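import Pool.Agent.Lib.MP_3f23fb_mp.W.S6
import Pool.Agent.Lib.MP_3f23fb_mp.A7
import Pool.Agent.Lib.MP_3f23fb_mp.A8

/-!
# MP_3f23fb_mp, module W/B1: a family of orbits over a path in the section

Y s = V s + i J, ‖Y s‖ ≤ R (R = b + 2 ≥ b + ‖J‖), P s = sec μ k (Y s) ∈ lev μ k, y_s t = Φ t (P s). exists_orb for every s (choose) gives f.x s. Joint continuity of r, z, w: they are the
continuous functions ‖(Φ t (P s)).1‖, ... of (s,t) (sec_continuousOn composed with the continuous V, values in the disc); p = Re(conj ρ ν)/‖ρ‖, ‖ρ‖ > 0 (members of lev). 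
At t = 0: Φ 0 x = x, sec_facts: (x s).Y 0 = Y s (real and imaginary parts), so (x s).V 0 = V s; z = 0, w > 0. orb_angle gives the last statement.
-/

set_option autoImplicit false
set_option linter.unusedVariables false

open Complex ComplexConjugate

namespace IsoTB

theorem exists_fam {μ k K b : ℝ} (hμ : 0 < μ) (hμ' : μ ≤ 1 / 64) (hk : 0 < k) (hkK : k ≤ K) (hb : 0 ≤ b)
    (h1 : μ * (b + 2) ≤ 1 / 8) (h2 : μ * ((b + 2) ^ 2 + K) ≤ 1 / 2) {Φ : ℝ → E6 → E6} (hΦ : IsFlow6 μ k Φ)
    {V : ℝ → ℂ} (hV : Continuous V) (hVb : ∀ s, ‖V s‖ ≤ b) :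
    ∃ (f : Fam μ k) (P : ℝ → E6), (∀ s, P s ∈ lev μ k) ∧ (∀ s, (f.x s).V 0 = V s) ∧ (∀ s, (f.x s).z 0 = 0) ∧
      (∀ s, 0 < (f.x s).w 0) ∧ (∀ s t, (f.x s).z t = (Φ t (P s)).2.2.1) ∧
      (∀ s t, (Φ t (P s)).1 = ((f.x s).r t : ℂ) * exp (I * (f.x s).ph t)) := by
  let Y : ℝ → ℂ := fun s => V s + I * JJ
  have hYc : Continuous Y := hV.add continuous_const
  have hY : ∀ s, ‖Y s‖ ≤ b + 2 := by
    intro s
    refine (norm_add_le _ _).trans ?_
    rw [norm_mul, norm_I, one_mul]
    have := norm_JJ_le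
    linarith [hVb s]
  let P : ℝ → E6 := fun s => sec μ k (Y s)
  have hPc : Continuous P := (sec_continuousOn hμ h1).comp_continuous hYc hY
  have hsec := fun s => sec_facts hμ hμ' hk hkK (by linarith : (0:ℝ) ≤ b + 2) h1 h2 (hY s)
  have hPl : ∀ s, P s ∈ lev μ k := fun s => (hsec s).1
  have hyl : ∀ s t, Φ t (P s) ∈ lev μ k := fun s t => hΦ.mem _ (hPl s) t
  have hyd : ∀ s t, HasDerivAt (fun t => Φ t (P s)) (fld μ (Φ t (P s))) t := fun s t =>
    hΦ.deriv _ (hPl s) t
  choose o ho1 ho2 ho3 ho4 using fun s => exists_orb (y := fun t => Φ t (P s)) (hyl s) (hyd s)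
  have hc : Continuous fun q : ℝ × ℝ => Φ q.2 (P q.1) :=
    hΦ.cont.comp (continuous_snd.prodMk (hPc.comp continuous_fst))
  have hn : ∀ q : ℝ × ℝ, ‖(Φ q.2 (P q.1)).1‖ ≠ 0 := fun q => norm_ne_zero_iff.2 (hyl q.1 q.2).1
  let f : Fam μ k :=
    { x := o
      cont_r := by
        simp only [ho1]
        exact (continuous_fst.comp hc).norm
      cont_p := by
        simp only [ho2]
        refine Continuous.div ?_ (continuous_fst.comp hc).norm hn
        exact Complex.continuous_re.comp ((Complex.continuous_conj.comp (continuous_fst.comp hc)).mul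
          (continuous_fst.comp (continuous_snd.comp hc)))
      cont_z := by
        simp only [ho3]
        exact continuous_fst.comp (continuous_snd.comp (continuous_snd.comp hc))
      cont_w := by
        simp only [ho4]
        exact continuous_snd.comp (continuous_snd.comp (continuous_snd.comp hc)) }
  refine ⟨f, P, hPl, ?_, ?_, ?_, fun s t => ho3 s t, ?_⟩
  · intro s
    have e : (o s).Y 0 = Y s := by
      apply Complex.ext
      · show (1 - 1 / (o s).r 0) / (2 * μ) = (Y s).re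
        rw [ho1, hΦ.zero]
        exact (hsec s).2.2.2.2.1
      · show (o s).p 0 / μ = (Y s).im
        rw [ho2, hΦ.zero]
        exact (hsec s).2.2.2.2.2
    show (o s).Y 0 - I * JJ = V s
    rw [e]
    show V s + I * JJ - I * JJ = V s
    ring
  · intro s
    show (o s).z 0 = 0
    rw [ho3, hΦ.zero]
    exact (hsec s).2.2.2.1
  · intro s
    show 0 < (o s).w 0
    rw [ho4, hΦ.zero]
    exact (hsec s).2.2.1
  · intro s t
    refine orb_angle (y := fun t => Φ t (P s)) (hyl s) (hyd s) (o s) (ho1 s) ?_ t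
    show (Φ 0 (P s)).1 = (‖(Φ 0 (P s)).1‖ : ℂ)
    rw [hΦ.zero]
    exact (hsec s).2.1

end IsoTB
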