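import Pool.Agent.Lib.MP_3f23fb_mp.W.T5
import Pool.Agent.Lib.MP_3f23fb_mp.O7
import Pool.Agent.Lib.MP_3f23fb_mp.M4

/-!
# MP_3f23fb_mp, module W/HO: everything about half orbits, uniform version

dd0 = 2 Re J ∈ [1/2, 4] (re_JJ, norm_JJ_le), ε = dd0/15, δ₁ = min of δ₀ of scatter ε, phase_law ε. RR k = max dd0 √k, so k ≤ RR², RR ≥ dd0 ≥ 1/2.
Choose κ₀ = 10⁻⁷ (at most 1/4000000) and μ₀ so small that μ ≤ μ₀, k⁴μ³ ≤ κ₀ imply
  μ³ RR⁸ ≤ 1/4000000 (RR⁸ = max(dd0⁸, k⁴), μ³·4⁸ ≤ 10⁻⁷), μ RR² ≤ small: (μk)⁴ = μ·(μ³k⁴) ≤ μ₀κ₀, so μk ≤ (μ₀κ₀)^{1/4}; in particular μRR² ≤ 1/50000, 5μ(RR+dd0/3+11) ≤ 1 and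
  μ((RR + dd0/3 + 2)² + k) ≤ δ₁ ((RR+4)² ≤ 2RR² + 32). 
Φ_A = (1 - 5μ(RR-dd0/3+11))(TT μ ((RR-dd0/3+ε)²+k) - 40)/2, Φ_B the other expression: gap_ineq. For ‖V(0)‖ ≤ RR + dd0/3: ‖Y(0)‖ ≤ RR + dd0/3 + 2. cross, scatter, ret_le, phase_law (RR - dd0/3 > ε).
-/

set_option autoImplicit false
set_option linter.unusedVariables false

open Complex

namespace IsoTB

/-- The size of the kick. -/
noncomputable def dd0 : ℝ := 2 * JJ.re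

/-- The radius of the rings. -/
noncomputable def RR (k : ℝ) : ℝ := max dd0 (√k)

theorem half_le_dd0 : 1 / 2 ≤ dd0 := by
  unfold dd0
  linarith [re_JJ]

theorem dd0_le : dd0 ≤ 4 := by
  unfold dd0
  have h1 := (Complex.abs_re_le_norm JJ).trans norm_JJ_le
  linarith [le_abs_self JJ.re]

private theorem RR_facts {k : ℝ} (hk : 0 < k) :
    dd0 ≤ RR k ∧ k ≤ RR k ^ 2 ∧ RR k ^ 2 ≤ 16 + k ∧ (RR k ^ 8 ≤ 65536 ∨ RR k ^ 8 = k ^ 4) := by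
  have h1 := half_le_dd0
  have h2 := dd0_le
  have hs : √k ^ 2 = k := Real.sq_sqrt hk.le
  have hs0 : 0 ≤ √k := Real.sqrt_nonneg k
  refine ⟨le_max_left _ _, ?_, ?_, ?_⟩
  · have h3 : √k ≤ RR k := le_max_right _ _
    have h4 := pow_le_pow_left₀ hs0 h3 2
    rwa [hs] at h4
  · unfold RR
    rcases max_choice dd0 (√k) with h | h
    · rw [h]
      nlinarith
    · rw [h, hs]
      linarith
  · unfold RR
    rcases max_choice dd0 (√k) with h | h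
    · left
      rw [h]
      have h5 : dd0 ^ 8 ≤ 4 ^ 8 := pow_le_pow_left₀ (by linarith) h2 8
      norm_num at h5
      exact h5
    · right
      rw [h]
      calc √k ^ 8 = (√k ^ 2) ^ 4 := by rw [← pow_mul]
        _ = k ^ 4 := by rw [hs]

theorem half_orbit : ∃ μ₀ κ₀ : ℝ, 0 < μ₀ ∧ μ₀ ≤ 1 / 5000 ∧ 0 < κ₀ ∧
    ∀ {μ k : ℝ}, 0 < μ → μ ≤ μ₀ → 0 < k → k ^ 4 * μ ^ 3 ≤ κ₀ →
      μ * ((RR k + dd0 / 3 + 2) ^ 2 + k) ≤ 1 / 8 ∧ μ * k ≤ 1 ∧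
      ∃ ΦA ΦB : ℝ, 8 * Real.pi ≤ ΦA - ΦB ∧
      ∀ (x : Orb μ k) (t₁ : ℝ), x.IsRet t₁ → ‖x.V 0‖ ≤ RR k + dd0 / 3 →
        1 / 2 ≤ t₁ ∧ t₁ ≤ 1 + 40 / (μ * k) ^ 3 ∧
        (∀ t ∈ Set.Icc 0 t₁, min (min t (t₁ - t)) 1 ≤ x.z t) ∧
        ‖x.V t₁ - (exp (-(I * x.ph t₁)) * x.V 0 - I * dd0)‖ ≤ dd0 / 15 ∧
        (‖x.V 0‖ = RR k - dd0 / 3 → ΦA ≤ x.ph t₁) ∧ (‖x.V 0‖ = RR k + dd0 / 3 → x.ph t₁ ≤ ΦB) := by
  have hd1 := half_le_dd0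
  have hd2 := dd0_le
  have hε : 0 < dd0 / 15 := by linarith
  obtain ⟨τ, δ₁, hτ, hδ₁, hδ₁', hscat⟩ := scatter (dd0 / 15) hε
  obtain ⟨δ₂, hδ₂, hδ₂', hphase⟩ := phase_law (dd0 / 15) hε
  set δ := min δ₁ δ₂ with hδ
  have hδ0 : 0 < δ := lt_min hδ₁ hδ₂
  have hδ5 : δ ≤ 1 / 5000 := (min_le_right _ _).trans hδ₂'
  set η := δ / 1000 with hη
  have hη0 : 0 < η := by positivity
  have hη1 : η ≤ 1 / 5000000 := by
    rw [hη]; linarith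
  have hη4 : η ^ 4 ≤ η := by
    calc η ^ 4 ≤ η ^ 1 := pow_le_pow_of_le_one hη0.le (by linarith) (by norm_num)
      _ = η := pow_one η
  refine ⟨η ^ 4, 1 / 10000000, by positivity, by linarith, by norm_num, ?_⟩
  intro μ k hμ hμ0 hk hkμ
  obtain ⟨hR1, hR2, hR3, hR4⟩ := RR_facts hk
  have hRhalf : 1 / 2 ≤ RR k := hd1.trans hR1
  have hμη : μ ≤ η := hμ0.trans hη4
  have hμk : μ * k ≤ η := by
    have h1 : (μ * k) ^ 4 ≤ η ^ 4 := by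
      calc (μ * k) ^ 4 = μ * (k ^ 4 * μ ^ 3) := by ring
        _ ≤ η ^ 4 * 1 := mul_le_mul hμ0 (hkμ.trans (by norm_num)) (by positivity) (by positivity)
        _ = η ^ 4 := mul_one _
    exact (pow_le_pow_iff_left₀ (by positivity) hη0.le (by norm_num)).mp h1
  have hμR : μ * RR k ^ 2 ≤ 17 * η := by
    calc μ * RR k ^ 2 ≤ μ * (16 + k) := mul_le_mul_of_nonneg_left hR3 hμ.le
      _ = 16 * μ + μ * k := by ring
      _ ≤ 17 * η := by linarith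
  have hμR1 : μ * RR k ≤ 34 * η := by
    have h1 : RR k ≤ 2 * RR k ^ 2 := by nlinarith
    calc μ * RR k ≤ μ * (2 * RR k ^ 2) := mul_le_mul_of_nonneg_left h1 hμ.le
      _ = 2 * (μ * RR k ^ 2) := by ring
      _ ≤ 34 * η := by linarith
  have hbig : μ * ((RR k + dd0 / 3 + 2) ^ 2 + k) ≤ δ := by
    have h1 : (RR k + dd0 / 3 + 2) ^ 2 ≤ 2 * RR k ^ 2 + 32 := by nlinarith [sq_nonneg (RR k - 4)]
    calc μ * ((RR k + dd0 / 3 + 2) ^ 2 + k) ≤ μ * (2 * RR k ^ 2 + 32 + k) :=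
          mul_le_mul_of_nonneg_left (by linarith) hμ.le
      _ = 2 * (μ * RR k ^ 2) + 32 * μ + μ * k := by ring
      _ ≤ 1000 * η := by linarith
      _ = δ := by rw [hη]; ring
  have hμ3R : μ ^ 3 * RR k ^ 8 ≤ 1 / 4000000 := by
    rcases hR4 with h | h
    · have h1 : μ ^ 3 ≤ η ^ 3 := pow_le_pow_left₀ hμ.le hμη 3
      have h2 : η ^ 3 ≤ (1 / 5000000) ^ 3 := pow_le_pow_left₀ hη0.le hη1 3
      calc μ ^ 3 * RR k ^ 8 ≤ (1 / 5000000) ^ 3 * 65536 :=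
            mul_le_mul (h1.trans h2) h (by positivity) (by positivity)
        _ ≤ 1 / 4000000 := by norm_num
    · rw [h]
      calc μ ^ 3 * k ^ 4 = k ^ 4 * μ ^ 3 := by ring
        _ ≤ 1 / 10000000 := hkμ
        _ ≤ 1 / 4000000 := by norm_num
  refine ⟨hbig.trans (by linarith), by linarith, _, _,
    gap_ineq (d := dd0) (R := RR k) hμ hk hd1 hd2 hR1 hR2 (by linarith) hμ3R, ?_⟩
  intro x t₁ hret hV
  have hY : ‖x.Y 0‖ ≤ RR k + dd0 / 3 + 2 := by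
    have e : x.Y 0 = x.V 0 + I * JJ := by
      unfold Orb.V
      ring
    rw [e]
    refine (norm_add_le _ _).trans ?_
    rw [norm_mul, norm_I, one_mul]
    have := norm_JJ_le
    linarith
  have hYδ : μ * (‖x.Y 0‖ ^ 2 + k) ≤ δ := by
    refine le_trans ?_ hbig
    have h1 : ‖x.Y 0‖ ^ 2 ≤ (RR k + dd0 / 3 + 2) ^ 2 := pow_le_pow_left₀ (norm_nonneg _) hY 2
    exact mul_le_mul_of_nonneg_left (by linarith) hμ.le
  have hY1 : μ * (‖x.Y 0‖ ^ 2 + k) ≤ δ₁ := hYδ.trans (min_le_left _ _)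
  have hY2 : μ * (‖x.Y 0‖ ^ 2 + k) ≤ δ₂ := hYδ.trans (min_le_right _ _)
  have hμ1 : μ ≤ δ₁ := by
    refine le_trans ?_ (min_le_left δ₁ δ₂)
    rw [← hδ]
    have : 1000 * η = δ := by rw [hη]; ring
    linarith
  have hμ2 : μ ≤ δ₂ := by
    refine le_trans ?_ (min_le_right δ₁ δ₂)
    rw [← hδ]
    have : 1000 * η = δ := by rw [hη]; ring
    linarith
  obtain ⟨-, c2, c3⟩ := cross hμ (by linarith) hk x hret (hYδ.trans (by linarith))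
  obtain ⟨d1, -, -, -, -⟩ := hscat hμ hμ1 hk x t₁ hret hY1
  have hph := hphase hμ hμ2 hk x t₁ hret hY2
  refine ⟨c2, x.ret_le hμ (by linarith) hk c3, c3, ?_, ?_, ?_⟩
  · have e : ((dd0 : ℝ) : ℂ) = 2 * (JJ.re : ℂ) := by
      unfold dd0
      push_cast
      ring
    rw [e]
    exact d1
  · intro hV0
    rw [hV0] at hph
    refine (hph (by linarith) ?_).1
    nlinarith
  · intro hV0
    rw [hV0] at hph
    refine (hph (by linarith) ?_).2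
    nlinarith

end IsoTB
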