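import Pool.Agent.Lib.MP_3f23fb_mp.W.S8
import Pool.Agent.Lib.MP_3f23fb_mp.S9

/-!
# MP_3f23fb_mp, module W/S10: different itineraries separate

Suppose not: for all s ∈ [0,nT] |z - z'| < 1/10 and ‖r e^{iφ} - r' e^{iφ'}‖ < 1/10 (φ = x.ph). `track`: |t m - t' m| ≤ 1/10 for m ≤ n; `angle_close` (ph 0 = 0, r_bounds,
continuous_ph): |φ - φ'| < π/2 on [0,nT]. abs_ph_sub_le: |φ(t m) - φ'(t' m)| ≤ |φ(t m) - φ'(t m)| + (9/8)|t m - t' m| ≤ π/2 + 9/80. So
|(φ(t(m+1)) - φ(t m)) - (φ'(t'(m+1)) - φ'(t' m))| ≤ π + 9/40 < 2π, |arg V - arg V'| < π (Ring.re_pos: arg ∈ (-π/2,π/2)), so the two numbers in Half.win differ by < 3π,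
contradicting wsym_dist when u m ≠ u' m.
-/

set_option autoImplicit false
set_option linter.unusedVariables false

open Complex

namespace IsoTB

theorem separated {μ k : ℝ} (hμ : 0 < μ) (hμ' : μ ≤ 1 / 64) (hk : 0 < k) {x x' : Orb μ k} {R d ΦB : ℝ} {n : ℕ}
    {u u' : ℕ → Bool} {t t' : ℕ → ℝ} (h : Itin x R d ΦB n u t) (h' : Itin x' R d ΦB n u' t') (hne : ∃ m < n, u m ≠ u' m) :
    ∃ s ∈ Set.Icc 0 (n * (1 + 40 / (μ * k) ^ 3)), 1 / 10 ≤ |x.z s - x'.z s| ∨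
      1 / 10 ≤ ‖(x.r s : ℂ) * exp (I * x.ph s) - (x'.r s : ℂ) * exp (I * x'.ph s)‖ := by
  by_contra hcon
  push Not at hcon
  have htr := track hμ hk h h' fun s hs => (hcon s hs).1
  have hang := angle_close x.continuous_ph x'.continuous_ph x.ph_zero x'.ph_zero
    (fun t => (x.r_bounds hμ hμ' hk t).1) (fun t => (x'.r_bounds hμ hμ' hk t).1)
    fun s hs => (hcon s hs).2
  have hT : 0 ≤ 1 + 40 / (μ * k) ^ 3 := by positivity
  have key : ∀ m ≤ n, |x.ph (t m) - x'.ph (t' m)| ≤ Real.pi / 2 + 9 / 80 := by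
    intro m hm
    have h1 : t m ∈ Set.Icc 0 (n * (1 + 40 / (μ * k) ^ 3)) := by
      refine ⟨h.nonneg m hm, (h.t_le m hm).trans ?_⟩
      exact mul_le_mul_of_nonneg_right (by exact_mod_cast hm) hT
    have h2 := (hang _ h1).le
    have h3 := x'.abs_ph_sub_le hμ hμ' hk (t' m) (t m)
    have h4 := htr m hm
    have h5 : |x.ph (t m) - x'.ph (t' m)| ≤ |x.ph (t m) - x'.ph (t m)| +
        |x'.ph (t m) - x'.ph (t' m)| := by
      have e : x.ph (t m) - x'.ph (t' m) = (x.ph (t m) - x'.ph (t m)) +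
        (x'.ph (t m) - x'.ph (t' m)) := by ring
      rw [e]
      exact abs_add_le _ _
    linarith
  obtain ⟨m, hm, hu⟩ := hne
  have hw := wsym_dist hu (h.half m hm).win (h'.half m hm).win
  have a1 := Complex.abs_arg_lt_pi_div_two_iff.2 (Or.inl (h.ring m hm.le).re_pos)
  have a2 := Complex.abs_arg_lt_pi_div_two_iff.2 (Or.inl (h'.ring m hm.le).re_pos)
  have k1 := key m hm.le
  have k2 := key (m + 1) hm
  have hpi := Real.pi_gt_three
  rw [abs_lt] at a1 a2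
  rw [abs_le] at k1 k2
  have hlt : |(arg (x.V (t m)) - (x.ph (t (m + 1)) - x.ph (t m))) -
      (arg (x'.V (t' m)) - (x'.ph (t' (m + 1)) - x'.ph (t' m)))| < 3 * Real.pi := by
    rw [abs_lt]
    constructor <;> linarith [a1.1, a1.2, a2.1, a2.2, k1.1, k1.2, k2.1, k2.2]
  linarith

end IsoTB
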