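import Pool.Agent.Lib.MP_3f23fb_mp.W.S1

/-!
# MP_3f23fb_mp, module W/S4: a path across the region (radius R ≥ d)

ρ(s) = R - d/3 + (2d/3) s (s clamped to [0,1]), V = a + i y with y = (R² - ρ² - d²)/(2d), a = √(ρ² - y²), 4d²(ρ² - y²) = ((ρ+R)² - d²)(d² - (ρ-R)²) > 0. ‖V‖ = ρ, ‖V + id‖ = R.
-/

set_option autoImplicit false
set_option linter.unusedVariables false

open Complex

namespace IsoTB

theorem exists_path {R d : ℝ} (hd : 0 < d) (hR : d ≤ R) : ∃ V : ℝ → ℂ, Continuous V ∧ (∀ s, Ring R d (V s)) ∧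
    ‖V 0‖ = R - d / 3 ∧ ‖V 1‖ = R + d / 3 := by
  set ρ : ℝ → ℝ := fun s => R - d / 3 + 2 * d / 3 * max 0 (min s 1) with hρ
  have hρc : Continuous ρ := by
    rw [hρ]
    fun_prop
  have hρ1 : ∀ s, R - d / 3 ≤ ρ s := by
    intro s
    have h1 : 0 ≤ max 0 (min s 1) := le_max_left _ _
    show R - d / 3 ≤ R - d / 3 + 2 * d / 3 * max 0 (min s 1)
    nlinarith
  have hρ2 : ∀ s, ρ s ≤ R + d / 3 := by
    intro s
    have h1 : max 0 (min s 1) ≤ 1 := max_le zero_le_one (min_le_right _ _)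
    show R - d / 3 + 2 * d / 3 * max 0 (min s 1) ≤ R + d / 3
    nlinarith
  have hρ0 : ∀ s, 0 < ρ s := fun s => lt_of_lt_of_le (by linarith) (hρ1 s)
  set y : ℝ → ℝ := fun s => (R ^ 2 - ρ s ^ 2 - d ^ 2) / (2 * d) with hy
  have hyc : Continuous y := by
    rw [hy]
    fun_prop
  have hrad : ∀ s, 0 < ρ s ^ 2 - y s ^ 2 := by
    intro s
    have h1 := hρ1 s
    have h2 := hρ2 s
    have f1 : 0 < (ρ s + R) ^ 2 - d ^ 2 := by nlinarith
    have f2 : 0 < d ^ 2 - (ρ s - R) ^ 2 := by nlinarith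
    have e : 4 * d ^ 2 * (ρ s ^ 2 - y s ^ 2) = ((ρ s + R) ^ 2 - d ^ 2) * (d ^ 2 - (ρ s - R) ^ 2) := by
      show 4 * d ^ 2 * (ρ s ^ 2 - ((R ^ 2 - ρ s ^ 2 - d ^ 2) / (2 * d)) ^ 2) = _
      field_simp
      ring
    have h3 : 0 < 4 * d ^ 2 * (ρ s ^ 2 - y s ^ 2) := by
      rw [e]
      exact mul_pos f1 f2
    exact pos_of_mul_pos_right h3 (by positivity)
  set a : ℝ → ℝ := fun s => √(ρ s ^ 2 - y s ^ 2) with ha
  have hasq : ∀ s, a s ^ 2 = ρ s ^ 2 - y s ^ 2 := fun s => Real.sq_sqrt (hrad s).le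
  have hapos : ∀ s, 0 < a s := fun s => Real.sqrt_pos.mpr (hrad s)
  have hac : Continuous a := by
    rw [ha]
    fun_prop
  set V : ℝ → ℂ := fun s => (a s : ℂ) + (y s : ℂ) * I with hV
  have hn1 : ∀ s, ‖V s‖ = ρ s := by
    intro s
    show ‖(a s : ℂ) + (y s : ℂ) * I‖ = ρ s
    rw [norm_add_mul_I, hasq, sub_add_cancel, Real.sqrt_sq (hρ0 s).le]
  have hn2 : ∀ s, ‖V s + I * d‖ = R := by
    intro s
    have h0 : V s + I * d = (a s : ℂ) + ((y s + d : ℝ) : ℂ) * I := by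
      show (a s : ℂ) + (y s : ℂ) * I + I * d = _
      push_cast
      ring
    rw [h0, norm_add_mul_I, hasq]
    have h1 : ρ s ^ 2 - y s ^ 2 + (y s + d) ^ 2 = R ^ 2 := by
      have h2 : 2 * d * y s = R ^ 2 - ρ s ^ 2 - d ^ 2 := by
        show 2 * d * ((R ^ 2 - ρ s ^ 2 - d ^ 2) / (2 * d)) = _
        field_simp
      nlinarith
    rw [h1, Real.sqrt_sq (by linarith)]
  refine ⟨V, ?_, fun s => ⟨?_, ?_, ?_, ?_, ?_⟩, ?_, ?_⟩
  · rw [hV]
    fun_prop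
  · rw [hn1]
    exact hρ1 s
  · rw [hn1]
    exact hρ2 s
  · rw [hn2]
    linarith
  · rw [hn2]
    linarith
  · show 0 < ((a s : ℂ) + (y s : ℂ) * I).re
    have h0 : ((a s : ℂ) + (y s : ℂ) * I).re = a s := by
      rw [Complex.add_re, Complex.ofReal_re, Complex.re_ofReal_mul, Complex.I_re, mul_zero, add_zero]
    rw [h0]
    exact hapos s
  · rw [hn1]
    show R - d / 3 + 2 * d / 3 * max 0 (min 0 1) = R - d / 3
    rw [min_eq_left zero_le_one, max_self]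
    ring
  · rw [hn1]
    show R - d / 3 + 2 * d / 3 * max 0 (min 1 1) = R + d / 3
    rw [min_self, max_eq_right zero_le_one]
    ring

end IsoTB
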