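import Pool.Agent.Lib.MP_3f23fb_mp.W.S6

/-!
# MP_3f23fb_mp, module W/S7: all itineraries occur

Induction on n: for every u there are 0 ≤ α ≤ β ≤ 1 and t : ℕ → ℝ → ℝ with t 0 = 0, t n continuous on [α,β], for s ∈ [α,β] Itin (f.x s) R d ΦB n u (fun m => t m s),
the sign condition 0 < ± w(t n) (sign = parity of n, Bool sg), and Ends at α, β for t n. n = 0: [0,1], the hypotheses. Step: `next_step` with e = u n; replace t (n+1) by the new t₁
(Function.update), restrict to [α',β'].
-/

set_option autoImplicit false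
set_option linter.unusedVariables false

open Complex

namespace IsoTB

theorem Fam.exists_itin {μ k : ℝ} (f : Fam μ k) (hμ : 0 < μ) (hμ' : μ ≤ 1 / 64) (hk : 0 < k) {R d ΦA ΦB : ℝ} (hd : 0 < d) (hR : d ≤ R)
    (hgap : 8 * Real.pi ≤ ΦA - ΦB) (hho : HOFacts μ k R d ΦA ΦB)
    (hz : ∀ s ∈ Set.Icc (0:ℝ) 1, (f.x s).z 0 = 0) (hw : ∀ s ∈ Set.Icc (0:ℝ) 1, 0 < (f.x s).w 0)
    (hr : ∀ s ∈ Set.Icc (0:ℝ) 1, Ring R d ((f.x s).V 0)) (he : Ends R d ((f.x 0).V 0) ((f.x 1).V 0))
    (n : ℕ) (u : ℕ → Bool) :
    ∃ s ∈ Set.Icc (0:ℝ) 1, ∃ t : ℕ → ℝ, Itin (f.x s) R d ΦB n u t := by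
  have key : ∀ n : ℕ, ∃ α β : ℝ, 0 ≤ α ∧ α ≤ β ∧ β ≤ 1 ∧ ∃ (t : ℕ → ℝ → ℝ) (sg : Bool),
      ContinuousOn (t n) (Set.Icc α β) ∧ (∀ s ∈ Set.Icc α β, Itin (f.x s) R d ΦB n u (fun m => t m s)) ∧
      (∀ s ∈ Set.Icc α β, 0 < (if sg then (f.x s).w (t n s) else -(f.x s).w (t n s))) ∧
      Ends R d ((f.x α).V (t n α)) ((f.x β).V (t n β)) := by
    intro n
    induction n with
    | zero =>
      refine ⟨0, 1, le_rfl, zero_le_one, le_rfl, fun _ _ => 0, true, continuousOn_const, ?_, ?_, he⟩
      · intro s hs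
        refine ⟨rfl, fun m _ => hz s hs, fun m _ => hr s hs, fun m hm => absurd hm (Nat.not_lt_zero m)⟩
      · intro s hs
        simpa using hw s hs
    | succ n ih =>
      obtain ⟨α, β, h1, h2, h3, t, sg, h4, h5, h6, h7⟩ := ih
      obtain ⟨α', β', t₁, g1, g2, g3, g4, g5, g6⟩ := f.next_step hμ hμ' hk hd hR hgap hho h2 h4 sg
        (fun s hs => (h5 s hs).zero n le_rfl) h6 (fun s hs => (h5 s hs).ring n le_rfl) h7 (u n)
      have hsub : ∀ s ∈ Set.Icc α' β', s ∈ Set.Icc α β := fun s hs => ⟨g1.trans hs.1, hs.2.trans g3⟩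
      have hup : Function.update t (n + 1) t₁ (n + 1) = t₁ := Function.update_self _ _ _
      have hup' : ∀ m ≤ n, Function.update t (n + 1) t₁ m = t m := fun m hm =>
        Function.update_of_ne (by omega) _ _
      refine ⟨α', β', h1.trans g1, g2, g3.trans h3, Function.update t (n + 1) t₁, !sg, ?_, ?_, ?_, ?_⟩
      · rw [hup]; exact g4
      · intro s hs
        obtain ⟨c1, c2, c3, c4⟩ := g6 s hs
        have hI := h5 s (hsub s hs)
        refine ⟨?_, ?_, ?_, ?_⟩
        · show Function.update t (n + 1) t₁ 0 s = 0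
          rw [hup' 0 (Nat.zero_le n)]
          exact hI.t0
        · intro m hm
          show (f.x s).z (Function.update t (n + 1) t₁ m s) = 0
          rcases Nat.lt_or_ge n m with h | h
          · have : m = n + 1 := by omega
            subst this
            rw [hup]; exact c1
          · rw [hup' m h]; exact hI.zero m h
        · intro m hm
          show Ring R d ((f.x s).V (Function.update t (n + 1) t₁ m s))
          rcases Nat.lt_or_ge n m with h | h
          · have : m = n + 1 := by omega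
            subst this
            rw [hup]; exact c3
          · rw [hup' m h]; exact hI.ring m h
        · intro m hm
          show Half (f.x s) d ΦB (u m) (Function.update t (n + 1) t₁ m s) (Function.update t (n + 1) t₁ (m + 1) s)
          rcases Nat.lt_or_ge m n with h | h
          · rw [hup' m h.le, hup' (m + 1) h]; exact hI.half m h
          · have : m = n := by omega
            subst this
            rw [hup, hup' m le_rfl]; exact c4
      · intro s hs
        rw [hup]
        have h8 := (g6 s hs).2.1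
        cases sg
        · simpa using h8
        · simpa using h8
      · rw [hup]; exact g5
  obtain ⟨α, β, h1, h2, h3, t, sg, h4, h5, h6, h7⟩ := key n
  exact ⟨α, ⟨h1, h2.trans h3⟩, fun m => t m α, h5 α ⟨le_rfl, h2⟩⟩

end IsoTB
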