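import Pool.Agent.Lib.MP_3f23fb_mp.W.B1
import Pool.Agent.Lib.MP_3f23fb_mp.W.S4
import Pool.Agent.Lib.MP_3f23fb_mp.W.S7
import Pool.Agent.Lib.MP_3f23fb_mp.W.S10
import Pool.Agent.Lib.MP_3f23fb_mp.W.HO

/-!
# MP_3f23fb_mp, module W/B2: separated families for the normalised flow, uniform version

d = dd0 = 2 Re J ≥ 1/2, R = RR k ≥ d. half_orbit gives μ₀, κ₀ and for each admissible (μ,k) numbers ΦA, ΦB with HOFacts μ k R d ΦA ΦB. V = the path of S4, f, P from exists_fam, T = 1 + 40/(μk)³.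
For u : Fin n → Bool extend by false to ℕ → Bool; exists_itin gives s_u; put P' u = P s_u. For u ≠ v: `separated` gives a time s ∈ [0,nT] with |z - z'| ≥ 1/10 or ‖ρ - ρ'‖ ≥ 1/10,
and dist on E6 = ℂ × ℂ × ℝ × ℝ is the sup distance.
-/

set_option autoImplicit false
set_option linter.unusedVariables false

open Complex ComplexConjugate

namespace IsoTB

theorem chaos6 : ∃ μ₀ κ₀ : ℝ, 0 < μ₀ ∧ μ₀ ≤ 1 / 64 ∧ 0 < κ₀ ∧
    ∀ {μ k : ℝ}, 0 < μ → μ ≤ μ₀ → 0 < k → k ^ 4 * μ ^ 3 ≤ κ₀ → μ * k ≤ 1 ∧ ∀ Φ : ℝ → E6 → E6, IsFlow6 μ k Φ →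
      ∃ T : ℝ, 0 < T ∧ ∀ n : ℕ, ∃ P : (Fin n → Bool) → E6, (∀ u, P u ∈ lev μ k) ∧
        ∀ u v, u ≠ v → ∃ t ∈ Set.Icc 0 (n * T), 1 / 10 ≤ dist (Φ t (P u)) (Φ t (P v)) := by
  classical
  obtain ⟨μ1, κ1, hμ1, hμ1', hκ1, hH⟩ := half_orbit
  refine ⟨μ1, κ1, hμ1, hμ1'.trans (by norm_num), hκ1, ?_⟩
  intro μ k hμ hμ0 hk hkK
  obtain ⟨hsm, hμk, ΦA, ΦB, hgap, hho0⟩ := hH hμ hμ0 hk hkK
  refine ⟨hμk, ?_⟩
  intro Φ hΦ
  have hμ64 : μ ≤ 1 / 64 := (hμ0.trans hμ1').trans (by norm_num)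
  obtain ⟨d, hd0⟩ : ∃ d : ℝ, d = dd0 := ⟨_, rfl⟩
  obtain ⟨R, hR0⟩ : ∃ R : ℝ, R = RR k := ⟨_, rfl⟩
  rw [← hd0, ← hR0] at hsm hho0
  have hd2 : 1 / 2 ≤ d := by rw [hd0]; exact half_le_dd0
  have hd : 0 < d := by linarith
  have hR : d ≤ R := by rw [hd0, hR0]; exact le_max_left _ _
  have hb : 0 < R + d / 3 := by linarith
  have h1 : μ * (R + d / 3 + 2) ≤ 1 / 8 := by
    refine le_trans (mul_le_mul_of_nonneg_left ?_ hμ.le) hsm
    nlinarith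
  have h2 : μ * ((R + d / 3 + 2) ^ 2 + k) ≤ 1 / 2 := by linarith
  have hho : HOFacts μ k R d ΦA ΦB := fun x t₁ hret hV => hho0 x t₁ hret hV
  obtain ⟨V, hVc, hVr, hV0, hV1⟩ := exists_path hd hR
  have hVb : ∀ s, ‖V s‖ ≤ R + d / 3 := fun s => (hVr s).hi
  obtain ⟨f, P, hP, fV, fz, fw, fzt, fρ⟩ := exists_fam hμ hμ64 hk le_rfl hb.le h1 h2 hΦ hVc hVb
  have hT : 0 < 1 + 40 / (μ * k) ^ 3 := by positivity
  refine ⟨1 + 40 / (μ * k) ^ 3, hT, ?_⟩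
  intro n
  let ext : (Fin n → Bool) → ℕ → Bool := fun u m => if h : m < n then u ⟨m, h⟩ else false
  have hit : ∀ u : Fin n → Bool, ∃ s ∈ Set.Icc (0:ℝ) 1, ∃ t : ℕ → ℝ, Itin (f.x s) R d ΦB n (ext u) t := by
    intro u
    refine f.exists_itin hμ hμ64 hk hd hR hgap hho (fun s _ => fz s) (fun s _ => fw s) ?_ ?_ n (ext u)
    · intro s _
      rw [fV]
      exact hVr s
    · rw [fV, fV]
      exact Or.inl ⟨hV0, hV1⟩
  choose s hs t ht using hit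
  refine ⟨fun u => P (s u), fun u => hP _, ?_⟩
  intro u v huv
  have hne : ∃ m < n, ext u m ≠ ext v m := by
    by_contra hcon
    push Not at hcon
    apply huv
    funext i
    have := hcon i.1 i.2
    simpa [ext] using this
  obtain ⟨τ, hτ, hsep⟩ := separated hμ hμ64 hk (ht u) (ht v) hne
  refine ⟨τ, hτ, ?_⟩
  rcases hsep with h | h
  · rw [fzt, fzt] at h
    refine h.trans ?_
    rw [← Real.dist_eq]
    have e1 : dist (Φ τ (P (s u))).2.2.1 (Φ τ (P (s v))).2.2.1 ≤ dist (Φ τ (P (s u))).2.2 (Φ τ (P (s v))).2.2 := by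
      rw [Prod.dist_eq]; exact le_max_left _ _
    have e2 : dist (Φ τ (P (s u))).2.2 (Φ τ (P (s v))).2.2 ≤ dist (Φ τ (P (s u))).2 (Φ τ (P (s v))).2 := by
      rw [Prod.dist_eq (x := (Φ τ (P (s u))).2)]; exact le_max_right _ _
    have e3 : dist (Φ τ (P (s u))).2 (Φ τ (P (s v))).2 ≤ dist (Φ τ (P (s u))) (Φ τ (P (s v))) := by
      rw [Prod.dist_eq (x := (Φ τ (P (s u))))]; exact le_max_right _ _
    exact e1.trans (e2.trans e3)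
  · rw [← fρ, ← fρ] at h
    refine h.trans ?_
    rw [← dist_eq_norm, Prod.dist_eq (x := (Φ τ (P (s u))))]
    exact le_max_left _ _

end IsoTB
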