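import Pool.Agent.Lib.MP_3f23fb_mp.O2
import Pool.Agent.Lib.MP_3f23fb_mp.M2

/-!
# MP_3f23fb_mp, module W/N1: comparison with the MacMillan orbit on bounded times, uniform version

Same as module N1 with the smallness parameter δ: μ ≤ δ and μ(‖Y₀‖²+k) ≤ δ instead of ‖Y₀‖ ≤ R, k ≤ K. Then μ‖Y₀‖ ≤ δ ((μ‖Y₀‖)² = μ·μ‖Y₀‖² ≤ δ²), so on [0,τ]
|r-1| ≤ 3μ(‖Y₀‖ + 9τ/4) ≤ 3(1 + 9τ/4) δ; |w(0)² - 4| ≤ 18 μ‖Y₀‖ + 3μ + 3μ(‖Y₀‖²+k) ≤ 24 δ. The proof of N1.lean can be copied: constants C₁ = 24,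
C₂ = 48 (1 + 9τ/4) + 9/4, errors C₁δ/2, C₂δ; C = (C₁/2 + C₂)e^{2τ}.
-/

set_option autoImplicit false
set_option linter.unusedVariables false

open MeasureTheory intervalIntegral

namespace IsoTB

/-- Difference of inverse cubes. -/
private theorem N1_cube {A B z : ℝ} (hA : 2 / 3 ≤ A) (hB : 2 / 3 ≤ B) (hz : |z| ≤ A) :
    |z / A ^ 3 - z / B ^ 3| ≤ 11 * |A - B| := by
  have hA0 : 0 < A := by linarith
  have hB0 : 0 < B := by linarith
  set a := 1 / A with ha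
  set b := 1 / B with hb
  have ha0 : 0 < a := by positivity
  have hb0 : 0 < b := by positivity
  have haA : a ≤ 3 / 2 := by
    rw [ha, div_le_iff₀ hA0]; linarith
  have hbB : b ≤ 3 / 2 := by
    rw [hb, div_le_iff₀ hB0]; linarith
  have hza : |z| * a ≤ 1 := by
    rw [ha, mul_one_div, div_le_one hA0]; exact hz
  have e : z / A ^ 3 - z / B ^ 3 = -((A - B) * (z * a * (b * (a ^ 2 + a * b + b ^ 2)))) := by
    rw [ha, hb]; field_simp; ring
  rw [e, abs_neg, abs_mul, mul_comm (11 : ℝ)]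
  apply mul_le_mul_of_nonneg_left _ (abs_nonneg _)
  have h1 : 0 < b * (a ^ 2 + a * b + b ^ 2) := by positivity
  rw [abs_mul, abs_mul, abs_of_pos ha0, abs_of_pos h1]
  have h2 : a ^ 2 + a * b + b ^ 2 ≤ 27 / 4 := by nlinarith
  have h3 : b * (a ^ 2 + a * b + b ^ 2) ≤ 3 / 2 * (27 / 4) :=
    mul_le_mul hbB h2 (by positivity) (by norm_num)
  calc |z| * a * (b * (a ^ 2 + a * b + b ^ 2)) ≤ 1 * (3 / 2 * (27 / 4)) :=
        mul_le_mul hza h3 h1.le (by norm_num)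
    _ ≤ 11 := by norm_num

private theorem N1_sqrt {r s z y : ℝ} (hr : 0 < r) (hs : 0 < s) :
    |√(r ^ 2 + z ^ 2) - √(s ^ 2 + y ^ 2)| ≤ |r - s| + |z - y| := by
  set A := √(r ^ 2 + z ^ 2) with hA
  set B := √(s ^ 2 + y ^ 2) with hB
  have hA2 : A ^ 2 = r ^ 2 + z ^ 2 := Real.sq_sqrt (by positivity)
  have hB2 : B ^ 2 = s ^ 2 + y ^ 2 := Real.sq_sqrt (by positivity)
  have hrA : r ≤ A := le_dd_left z hr
  have hzA : |z| ≤ A := abs_le_dd_right r z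
  have hsB : s ≤ B := le_dd_left y hs
  have hyB : |y| ≤ B := abs_le_dd_right s y
  have hAB : 0 < A + B := by linarith
  have e : (A - B) * (A + B) = (r - s) * (r + s) + (z - y) * (z + y) := by
    have : (A - B) * (A + B) = A ^ 2 - B ^ 2 := by ring
    rw [this, hA2, hB2]; ring
  have h1 : |A - B| * (A + B) ≤ (|r - s| + |z - y|) * (A + B) := by
    calc |A - B| * (A + B) = |(A - B) * (A + B)| := by rw [abs_mul, abs_of_pos hAB]
      _ = |(r - s) * (r + s) + (z - y) * (z + y)| := by rw [e]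
      _ ≤ |(r - s) * (r + s)| + |(z - y) * (z + y)| := abs_add_le _ _
      _ = |r - s| * |r + s| + |z - y| * |z + y| := by rw [abs_mul, abs_mul]
      _ ≤ |r - s| * (A + B) + |z - y| * (A + B) := by
          have h2 : |r + s| ≤ A + B := by rw [abs_of_pos (by linarith)]; linarith
          have h3 : |z + y| ≤ A + B := (abs_add_le _ _).trans (by linarith)
          exact add_le_add (mul_le_mul_of_nonneg_left h2 (abs_nonneg _))
            (mul_le_mul_of_nonneg_left h3 (abs_nonneg _))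
      _ = _ := by ring
  exact le_of_mul_le_mul_right h1 hAB

/-- The limit field is Lipschitz. -/
private theorem N1_lip (a b : ℝ) :
    |2 * (a / √(1 + a ^ 2) ^ 3) - 2 * (b / √(1 + b ^ 2) ^ 3)| ≤ 24 * |a - b| := by
  have hA1 : (1 : ℝ) ≤ √(1 + a ^ 2) := by
    rw [Real.one_le_sqrt]; nlinarith [sq_nonneg a]
  have hB1 : (1 : ℝ) ≤ √(1 + b ^ 2) := by
    rw [Real.one_le_sqrt]; nlinarith [sq_nonneg b]
  have hs := N1_sqrt (r := 1) (s := 1) (z := a) (y := b) one_pos one_pos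
  rw [one_pow, sub_self, abs_zero, zero_add] at hs
  have hza : |a| ≤ √(1 + a ^ 2) := by
    have := abs_le_dd_right 1 a
    unfold dd at this
    rwa [one_pow] at this
  have h1 := N1_cube (A := √(1 + a ^ 2)) (B := √(1 + b ^ 2)) (z := a) (by linarith) (by linarith) hza
  have h2 : |a / √(1 + b ^ 2) ^ 3 - b / √(1 + b ^ 2) ^ 3| ≤ |a - b| := by
    rw [← sub_div, abs_div, abs_of_pos (show (0 : ℝ) < √(1 + b ^ 2) ^ 3 by positivity)]
    exact div_le_self (abs_nonneg _) (one_le_pow₀ hB1)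
  have e : 2 * (a / √(1 + a ^ 2) ^ 3) - 2 * (b / √(1 + b ^ 2) ^ 3)
      = 2 * ((a / √(1 + a ^ 2) ^ 3 - a / √(1 + b ^ 2) ^ 3)
        + (a / √(1 + b ^ 2) ^ 3 - b / √(1 + b ^ 2) ^ 3)) := by ring
  rw [e, abs_mul, abs_of_pos (show (0 : ℝ) < 2 by norm_num)]
  have h3 := abs_add_le (a / √(1 + a ^ 2) ^ 3 - a / √(1 + b ^ 2) ^ 3)
    (a / √(1 + b ^ 2) ^ 3 - b / √(1 + b ^ 2) ^ 3)
  linarith

private theorem N1_init {μ k R K : ℝ} (hR : 0 ≤ R) (hK : 0 ≤ K) (hμ : 0 < μ) (hμ' : μ ≤ 1 / 64)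
    (hk : 0 < k) (hkK : k ≤ K) (x : Orb μ k) (hz : x.z 0 = 0) (hw : 0 < x.w 0)
    (hY : ‖x.Y 0‖ ≤ R) : |x.w 0 - 2| ≤ (18 * R + 3 + 3 * (R ^ 2 + K)) / 2 * μ := by
  have h1 := x.w_sq hμ 0
  have hr := x.r_pos 0
  have hD : x.D 0 = x.r 0 := by
    unfold Orb.D dd
    rw [hz]
    simp [hr.le]
  rw [hD] at h1
  have hb := (x.r_bounds hμ hμ' hk 0).1
  have h2 := x.abs_r_sub_one_le hμ hμ' hk 0
  have hi : 1 / x.r 0 ≤ 3 / 2 := by
    rw [div_le_iff₀ hr]; linarith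
  have hi0 : 0 < 1 / x.r 0 := by positivity
  have h3 : |1 / x.r 0 - 1| ≤ 9 / 2 * μ * R := by
    have e : 1 / x.r 0 - 1 = -((x.r 0 - 1) * (1 / x.r 0)) := by field_simp; ring
    rw [e, abs_neg, abs_mul, abs_of_pos hi0]
    have h4 : |x.r 0 - 1| ≤ 3 * μ * R :=
      h2.trans (mul_le_mul_of_nonneg_left hY (by positivity))
    calc |x.r 0 - 1| * (1 / x.r 0) ≤ 3 * μ * R * (3 / 2) :=
          mul_le_mul h4 hi hi0.le (by positivity)
      _ = _ := by ring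
  have h5 : ‖x.Y 0‖ ^ 2 ≤ R ^ 2 := pow_le_pow_left₀ (norm_nonneg _) hY 2
  have h50 : 0 ≤ ‖x.Y 0‖ ^ 2 := by positivity
  have e : x.w 0 ^ 2 - 4 = 4 * (1 / x.r 0 - 1) + μ * (2 * (1 / x.r 0))
      - μ * ((2 + μ) * (‖x.Y 0‖ ^ 2 + k)) := by
    rw [h1]; ring
  have h6 : |x.w 0 ^ 2 - 4| ≤ (18 * R + 3 + 3 * (R ^ 2 + K)) * μ := by
    rw [e]
    have a1 : |4 * (1 / x.r 0 - 1)| ≤ 18 * R * μ := by
      rw [abs_mul, abs_of_pos (show (0 : ℝ) < 4 by norm_num)]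
      linarith
    have a2 : |μ * (2 * (1 / x.r 0))| ≤ 3 * μ := by
      rw [abs_of_pos (by positivity)]
      nlinarith
    have a3 : |μ * ((2 + μ) * (‖x.Y 0‖ ^ 2 + k))| ≤ 3 * (R ^ 2 + K) * μ := by
      rw [abs_of_nonneg (by positivity)]
      have b1 : (2 + μ) * (‖x.Y 0‖ ^ 2 + k) ≤ 3 * (R ^ 2 + K) :=
        mul_le_mul (by linarith) (by linarith) (by positivity) (by norm_num)
      nlinarith
    have c1 := abs_sub (4 * (1 / x.r 0 - 1) + μ * (2 * (1 / x.r 0)))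
      (μ * ((2 + μ) * (‖x.Y 0‖ ^ 2 + k)))
    have c2 := abs_add_le (4 * (1 / x.r 0 - 1)) (μ * (2 * (1 / x.r 0)))
    linarith
  have e2 : x.w 0 ^ 2 - 4 = (x.w 0 - 2) * (x.w 0 + 2) := by ring
  rw [e2, abs_mul, abs_of_pos (show 0 < x.w 0 + 2 by linarith)] at h6
  have h7 : |x.w 0 - 2| * 2 ≤ |x.w 0 - 2| * (x.w 0 + 2) :=
    mul_le_mul_of_nonneg_left (by linarith) (abs_nonneg _)
  linarith

private theorem N1_field {μ k R₁ : ℝ} (hR₁ : 0 ≤ R₁) (hμ : 0 < μ) (hμ' : μ ≤ 1 / 64)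
    (hk : 0 < k) (x : Orb μ k) (t : ℝ) (hY : ‖x.Y t‖ ≤ R₁) :
    |(2 + μ) * (x.z t / dd (x.r t) (x.z t) ^ 3) - 2 * (x.z t / √(1 + x.z t ^ 2) ^ 3)|
      ≤ (66 * R₁ + 3) * μ := by
  have hr := x.r_pos t
  have hb := (x.r_bounds hμ hμ' hk t).1
  have h2 := x.abs_r_sub_one_le hμ hμ' hk t
  have h3 : |x.r t - 1| ≤ 3 * μ * R₁ :=
    h2.trans (mul_le_mul_of_nonneg_left hY (by positivity))
  set D := dd (x.r t) (x.z t) with hD
  have hDr : x.r t ≤ D := le_dd_left _ hr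
  have hDz : |x.z t| ≤ D := abs_le_dd_right _ _
  have hD0 : 0 < D := by linarith
  have hs := N1_sqrt (r := x.r t) (s := 1) (z := x.z t) (y := x.z t) hr one_pos
  rw [one_pow, sub_self, abs_zero, add_zero] at hs
  have h1 : (1 : ℝ) ≤ √(1 + x.z t ^ 2) := by
    rw [Real.one_le_sqrt]; nlinarith [sq_nonneg (x.z t)]
  have hc := N1_cube (A := D) (B := √(1 + x.z t ^ 2)) (z := x.z t) (by linarith) (by linarith) hDz
  have hs' : |D - √(1 + x.z t ^ 2)| ≤ |x.r t - 1| := hs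
  have h4 : |x.z t / D ^ 3| ≤ 9 / 4 := by
    rw [abs_div, abs_of_pos (show 0 < D ^ 3 by positivity), div_le_iff₀ (by positivity)]
    have h5 : 4 / 9 ≤ D ^ 2 := by nlinarith
    calc |x.z t| ≤ D := hDz
      _ = 9 / 4 * (4 / 9) * D := by ring
      _ ≤ 9 / 4 * D ^ 2 * D := by
          apply mul_le_mul_of_nonneg_right _ hD0.le
          linarith
      _ = _ := by ring
  have e : (2 + μ) * (x.z t / D ^ 3) - 2 * (x.z t / √(1 + x.z t ^ 2) ^ 3)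
      = 2 * (x.z t / D ^ 3 - x.z t / √(1 + x.z t ^ 2) ^ 3) + μ * (x.z t / D ^ 3) := by ring
  rw [e]
  have c1 := abs_add_le (2 * (x.z t / D ^ 3 - x.z t / √(1 + x.z t ^ 2) ^ 3)) (μ * (x.z t / D ^ 3))
  rw [abs_mul, abs_mul, abs_of_pos (show (0 : ℝ) < 2 by norm_num), abs_of_pos hμ] at c1
  have c2 : μ * |x.z t / D ^ 3| ≤ μ * (9 / 4) := mul_le_mul_of_nonneg_left h4 hμ.le
  linarith

private theorem N1_small {μ a δ : ℝ} (hμ : 0 < μ) (hδ : μ ≤ δ) (ha : 0 ≤ a)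
    (h : μ * a ^ 2 ≤ δ) : μ * a ≤ δ := by
  have hδ0 : 0 < δ := lt_of_lt_of_le hμ hδ
  have h1 : (μ * a) ^ 2 ≤ δ ^ 2 := by
    calc (μ * a) ^ 2 = μ * (μ * a ^ 2) := by ring
      _ ≤ δ * δ := mul_le_mul hδ h (by positivity) hδ0.le
      _ = δ ^ 2 := by ring
  exact (pow_le_pow_iff_left₀ (by positivity) hδ0.le two_ne_zero).1 h1

theorem near (τ : ℝ) (hτ : 0 < τ) : ∃ C : ℝ, 0 < C ∧
    ∀ {μ k δ : ℝ}, 0 < μ → μ ≤ 1 / 64 → 0 < k → μ ≤ δ → ∀ (x : Orb μ k), x.z 0 = 0 → 0 < x.w 0 →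
      μ * (‖x.Y 0‖ ^ 2 + k) ≤ δ →
      ∀ t ∈ Set.Icc 0 τ, |x.z t - zeta t| ≤ C * δ ∧ |x.w t - vel t| ≤ C * δ := by
  obtain ⟨C₁, hC₁⟩ : ∃ C₁ : ℝ, C₁ = 12 := ⟨_, rfl⟩
  have hC₁0 : 0 < C₁ := by rw [hC₁]; norm_num
  obtain ⟨C₂, hC₂⟩ : ∃ C₂ : ℝ, C₂ = 66 * (1 + 9 / 4 * τ) + 3 := ⟨_, rfl⟩
  have hC₂0 : 0 < C₂ := by rw [hC₂]; positivity
  refine ⟨(C₁ + C₂) * Real.exp (24 * τ), by positivity, ?_⟩
  intro μ k δ hμ hμ' hk hμδ x hz hw hYk t ht
  have hδ0 : 0 < δ := lt_of_lt_of_le hμ hμδ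
  obtain ⟨R, hR⟩ : ∃ R, R = ‖x.Y 0‖ := ⟨_, rfl⟩
  have hR0 : 0 ≤ R := by
    rw [hR]
    exact norm_nonneg _
  have hYk1 : μ * R ^ 2 + μ * k ≤ δ := by
    rw [← hR] at hYk
    linarith
  have hμk : 0 < μ * k := mul_pos hμ hk
  have hμR2 : 0 ≤ μ * R ^ 2 := by positivity
  have hμR : μ * R ≤ δ := N1_small hμ hμδ hR0 (by linarith)
  obtain ⟨R₁, hR₁⟩ : ∃ R₁ : ℝ, R₁ = R + 9 / 4 * τ := ⟨_, rfl⟩
  have hR₁0 : 0 ≤ R₁ := by rw [hR₁]; positivity
  have hfld : (66 * R₁ + 3) * μ ≤ C₂ * δ := by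
    rw [hR₁, hC₂]
    have h1 : τ * μ ≤ τ * δ := mul_le_mul_of_nonneg_left hμδ hτ.le
    nlinarith
  have hini : (18 * R + 3 + 3 * (R ^ 2 + k)) / 2 * μ ≤ C₁ * δ := by
    rw [hC₁]
    nlinarith
  -- the Lipschitz field
  have hv : ∀ s : ℝ, LipschitzWith 24 (fun q : ℝ × ℝ => (q.2, -(2 * (q.1 / √(1 + q.1 ^ 2) ^ 3)))) := by
    intro s
    apply LipschitzWith.of_dist_le_mul
    intro a b
    rw [Prod.dist_eq, Prod.dist_eq]
    have e24 : ((24 : NNReal) : ℝ) = 24 := rfl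
    rw [e24]
    apply max_le
    · change dist a.2 b.2 ≤ _
      have h1 : dist a.2 b.2 ≤ max (dist a.1 b.1) (dist a.2 b.2) := le_max_right _ _
      have h2 : 0 ≤ max (dist a.1 b.1) (dist a.2 b.2) := le_trans dist_nonneg h1
      linarith
    · change dist (-(2 * (a.1 / √(1 + a.1 ^ 2) ^ 3))) (-(2 * (b.1 / √(1 + b.1 ^ 2) ^ 3))) ≤ _
      rw [dist_neg_neg, Real.dist_eq]
      have h1 : dist a.1 b.1 ≤ max (dist a.1 b.1) (dist a.2 b.2) := le_max_left _ _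
      rw [Real.dist_eq] at h1
      exact (N1_lip a.1 b.1).trans (mul_le_mul_of_nonneg_left h1 (by norm_num))
  have hYt : ∀ s ∈ Set.Ico 0 τ, ‖x.Y s‖ ≤ R₁ := by
    intro s hs
    have h1 := x.norm_Y_le' hμ hμ' hk hs.1
    have h2 : 9 / 4 * (s - 0) ≤ 9 / 4 * τ := by
      have := hs.2
      linarith
    rw [← hR] at h1
    linarith
  have key := dist_le_of_approx_trajectories_ODE (v := fun _ q => (q.2, -(2 * (q.1 / √(1 + q.1 ^ 2) ^ 3))))
    (K := 24) (f := fun s => (x.z s, x.w s)) (g := fun s => (zeta s, vel s))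
    (f' := fun s => (x.w s, -((2 + μ) * (x.z s / dd (x.r s) (x.z s) ^ 3))))
    (g' := fun s => (vel s, -(2 * (zeta s / √(1 + zeta s ^ 2) ^ 3))))
    (a := 0) (b := τ) (εf := C₂ * δ) (εg := 0) (δ := C₁ * δ) hv
    (x.continuous_z.prodMk x.continuous_w).continuousOn
    (fun s _ => ((x.dz s).prodMk (x.dw s)).hasDerivWithinAt)
    (fun s hs => by
      have h1 := N1_field hR₁0 hμ hμ' hk x s (hYt s hs)
      rw [Prod.dist_eq]
      apply max_le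
      · change dist (x.w s) (x.w s) ≤ _
        rw [dist_self]; positivity
      · change dist (-((2 + μ) * (x.z s / dd (x.r s) (x.z s) ^ 3)))
          (-(2 * (x.z s / √(1 + x.z s ^ 2) ^ 3))) ≤ _
        rw [dist_neg_neg, Real.dist_eq]
        exact h1.trans hfld)
    (continuous_zeta.prodMk continuous_vel).continuousOn
    (fun s _ => ((zeta_deriv s).prodMk (vel_deriv s)).hasDerivWithinAt)
    (fun s _ => by rw [dist_self])
    (by
      rw [Prod.dist_eq]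
      apply max_le
      · change dist (x.z 0) (zeta 0) ≤ _
        rw [hz, zeta_zero, dist_self]; positivity
      · change dist (x.w 0) (vel 0) ≤ _
        have e : vel 0 = 2 := by
          unfold vel
          rw [zeta_zero]; norm_num
        rw [e, Real.dist_eq]
        exact (N1_init hR0 hk.le hμ hμ' hk le_rfl x hz hw hR.ge).trans hini) t ht
  have h24 : ((24 : NNReal) : ℝ) ≠ 0 := by
    have e24 : ((24 : NNReal) : ℝ) = 24 := rfl
    rw [e24]; norm_num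
  rw [gronwallBound_of_K_ne_0 h24] at key
  have e24 : ((24 : NNReal) : ℝ) = 24 := rfl
  simp only [e24, sub_zero, add_zero] at key
  have hexp : Real.exp (24 * t) ≤ Real.exp (24 * τ) := by
    apply Real.exp_le_exp.2
    linarith [ht.2]
  have hexp0 : 0 < Real.exp (24 * t) := Real.exp_pos _
  have hfin : C₁ * δ * Real.exp (24 * t) + C₂ * δ / 24 * (Real.exp (24 * t) - 1)
      ≤ (C₁ + C₂) * Real.exp (24 * τ) * δ := by
    have h1 : C₁ * δ * Real.exp (24 * t) ≤ C₁ * δ * Real.exp (24 * τ) :=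
      mul_le_mul_of_nonneg_left hexp (by positivity)
    have h2 : C₂ * δ / 24 * (Real.exp (24 * t) - 1) ≤ C₂ * δ * Real.exp (24 * τ) := by
      have h3 : C₂ * δ / 24 ≤ C₂ * δ := by
        have : 0 < C₂ * δ := by positivity
        linarith
      have h4 : 0 ≤ C₂ * δ / 24 := by positivity
      calc C₂ * δ / 24 * (Real.exp (24 * t) - 1) ≤ C₂ * δ / 24 * Real.exp (24 * τ) :=
            mul_le_mul_of_nonneg_left (by linarith) h4
        _ ≤ C₂ * δ * Real.exp (24 * τ) := mul_le_mul_of_nonneg_right h3 (Real.exp_pos _).le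
    linarith
  have key2 := key.trans hfin
  rw [Prod.dist_eq] at key2
  have k1 := (le_max_left _ _).trans key2
  have k2 := (le_max_right _ _).trans key2
  change dist (x.z t) (zeta t) ≤ _ at k1
  change dist (x.w t) (vel t) ≤ _ at k2
  rw [Real.dist_eq] at k1 k2
  exact ⟨k1, k2⟩

end IsoTB
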