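import Pool.Agent.Lib.MP_3f23fb_mp.O2
import Pool.Agent.Lib.MP_3f23fb_mp.O4
import Pool.Agent.Lib.MP_3f23fb_mp.O5

/-!
# MP_3f23fb_mp, module W/O6: near the crossings, uniform version

Same as module O6, but uniform: instead of ‖Y(0)‖ ≤ R, k ≤ K, μ ≤ μ₂(R,K) only μ ≤ δ₀ and μ(‖Y(0)‖²+k) ≤ δ₀ are assumed, δ₀ = 1/400 (or smaller). With R = ‖Y(0)‖:
μ((R+9)²+k) ≤ μ(2R² + 162 + k) ≤ 2δ₀ + 162 δ₀ ≤ 1/2, and this is the only place where μ₂ was used. The proof of O6.lean can be copied (with R = ‖Y 0‖, K = k).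
-/

set_option autoImplicit false
set_option linter.unusedVariables false

open MeasureTheory intervalIntegral

namespace IsoTB

private theorem O6_low {f f' : ℝ → ℝ} (hf : ∀ t, HasDerivAt f (f' t) t) {a b c : ℝ} (hab : a ≤ b)
    (h : ∀ t ∈ Set.Icc a b, c ≤ f' t) : c * (b - a) ≤ f b - f a :=
  (convex_Icc a b).mul_sub_le_image_sub_of_le_deriv
    (fun t _ => (hf t).continuousAt.continuousWithinAt)
    (fun t _ => (hf t).differentiableAt.differentiableWithinAt)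
    (fun t ht => by rw [(hf t).deriv]; exact h t (interior_subset ht))
    a (Set.left_mem_Icc.2 hab) b (Set.right_mem_Icc.2 hab) hab

private theorem O6_up {f f' : ℝ → ℝ} (hf : ∀ t, HasDerivAt f (f' t) t) {a b c : ℝ} (hab : a ≤ b)
    (h : ∀ t ∈ Set.Icc a b, f' t ≤ c) : f b - f a ≤ c * (b - a) :=
  (convex_Icc a b).image_sub_le_mul_sub_of_deriv_le
    (fun t _ => (hf t).continuousAt.continuousWithinAt)
    (fun t _ => (hf t).differentiableAt.differentiableWithinAt)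
    (fun t ht => by rw [(hf t).deriv]; exact h t (interior_subset ht))
    a (Set.left_mem_Icc.2 hab) b (Set.right_mem_Icc.2 hab) hab

/-- A continuous function with `1 ≤ f²` which is positive at `a` is `≥ 1`. -/
private theorem O6_sign {f : ℝ → ℝ} (hf : Continuous f) {a b : ℝ} (ha : 0 < f a)
    (h : ∀ t ∈ Set.Icc a b, 1 ≤ f t ^ 2) : ∀ t ∈ Set.Icc a b, 1 ≤ f t := by
  intro t ht
  by_contra hlt
  rw [not_le] at hlt
  have h1 := h t ht
  have h2 : f t ≤ 0 := by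
    by_contra h3
    rw [not_le] at h3
    nlinarith
  obtain ⟨s, hs, hs0⟩ := intermediate_value_Icc' ht.1 hf.continuousOn ⟨h2, ha.le⟩
  have h4 := h s ⟨hs.1, hs.2.trans ht.2⟩
  rw [hs0] at h4
  norm_num at h4

private theorem O6_w {R K μ k : ℝ} (hR : 0 ≤ R) (hK : 0 ≤ K) (hμ : 0 < μ) (hμ64 : μ ≤ 1 / 64)
    (hμ2 : μ * (2 * ((R + 9) ^ 2 + K + 1)) ≤ 1) (hk : 0 < k) (hkK : k ≤ K) (x : Orb μ k) {t : ℝ}
    (hY : ‖x.Y t‖ ≤ R + 9) (hz0 : 0 ≤ x.z t) (hz1 : x.z t ≤ 1) : 1 ≤ x.w t ^ 2 := by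
  have h1 := x.r_bounds hμ hμ64 hk t
  have hD0 := x.D_pos t
  have hD2 : x.D t ^ 2 = x.r t ^ 2 + x.z t ^ 2 := dd_sq _ _
  have hD3 : x.D t ≤ 181 / 100 := by
    by_contra hc
    rw [not_le] at hc
    have e1 : x.r t ^ 2 ≤ (3 / 2) ^ 2 := pow_le_pow_left₀ (by linarith) h1.2.le 2
    have e2 : x.z t ^ 2 ≤ 1 ^ 2 := pow_le_pow_left₀ hz0 hz1 2
    nlinarith
  have hD4 : 11 / 10 ≤ 2 / x.D t := by
    rw [le_div_iff₀ hD0]
    linarith
  have hY2 : ‖x.Y t‖ ^ 2 ≤ (R + 9) ^ 2 := pow_le_pow_left₀ (norm_nonneg _) hY 2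
  have h2 : μ * (‖x.Y t‖ ^ 2 + k) ≤ 1 / 2 := by
    have e1 : μ * (‖x.Y t‖ ^ 2 + k) ≤ μ * ((R + 9) ^ 2 + K) :=
      mul_le_mul_of_nonneg_left (by linarith) hμ.le
    nlinarith
  rw [x.w_sq hμ t]
  nlinarith

theorem cross {μ k : ℝ} (hμ : 0 < μ) (hμ₀ : μ ≤ 1 / 400) (hk : 0 < k) (x : Orb μ k) {t₁ : ℝ} (h : x.IsRet t₁)
    (hY : μ * (‖x.Y 0‖ ^ 2 + k) ≤ 1 / 400) :
    (∀ t ∈ Set.Icc 0 t₁, ‖x.Y t‖ ≤ ‖x.Y 0‖ + 9) ∧ 1 / 2 ≤ t₁ ∧
      (∀ t ∈ Set.Icc 0 t₁, min (min t (t₁ - t)) 1 ≤ x.z t) := by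
  have hret := h
  have hμ64 : μ ≤ 1 / 64 := by linarith
  obtain ⟨R, hRdef⟩ : ∃ R, R = ‖x.Y 0‖ := ⟨_, rfl⟩
  obtain ⟨K, hKdef⟩ : ∃ K, K = k := ⟨_, rfl⟩
  have hR : 0 ≤ R := by
    rw [hRdef]
    exact norm_nonneg _
  have hK : 0 ≤ K := by
    rw [hKdef]
    exact hk.le
  have hkK : k ≤ K := hKdef.ge
  have hY0 : ‖x.Y 0‖ ≤ R := hRdef.ge
  have hμ3 : μ * (2 * ((R + 9) ^ 2 + K + 1)) ≤ 1 := by
    rw [← hRdef, ← hKdef] at hY
    have h1 : 2 * ((R + 9) ^ 2 + K + 1) ≤ 4 * (R ^ 2 + K) + 326 := by nlinarith [sq_nonneg (R - 9)]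
    have h2 := mul_le_mul_of_nonneg_left h1 hμ.le
    have h3 : μ * (4 * (R ^ 2 + K) + 326) = 4 * (μ * (R ^ 2 + K)) + 326 * μ := by ring
    rw [h3] at h2
    linarith
  have hw2 : ∀ t, ‖x.Y t‖ ≤ R + 9 → 0 ≤ x.z t → x.z t ≤ 1 → 1 ≤ x.w t ^ 2 := fun t h1 h2 h3 =>
    O6_w hR hK hμ hμ64 hμ3 hk hkK x h1 h2 h3
  have hz := x.continuous_z
  have hw := x.continuous_w
  have ht₁ := hret.pos
  have hzn : ∀ t, 0 ≤ t → t ≤ t₁ → 0 ≤ x.z t := fun t h1 h2 => hret.z_nonneg h1 h2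
  -- norms up to time one
  have hYs : ∀ t, 0 ≤ t → t ≤ 1 → ‖x.Y t‖ ≤ R + 9 / 4 := fun t h1 h2 => by
    have := x.norm_Y_le' hμ hμ64 hk h1
    nlinarith
  obtain ⟨m, hm⟩ : ∃ m, m = min 1 t₁ := ⟨_, rfl⟩
  have hm0 : 0 < m := by rw [hm]; exact lt_min one_pos ht₁
  have hm1 : m ≤ 1 := by rw [hm]; exact min_le_left _ _
  have hmt : m ≤ t₁ := by rw [hm]; exact min_le_right _ _
  -- w ≥ 1 as long as z ≤ 1
  have hwone : ∀ s, 0 ≤ s → s ≤ m → (∀ t ∈ Set.Icc 0 s, x.z t ≤ 1) →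
      ∀ t ∈ Set.Icc 0 s, 1 ≤ x.w t := fun s hs0 hsm hs =>
    O6_sign hw hret.w0 fun t ht => hw2 t (by
      have := hYs t ht.1 (by linarith [ht.2])
      linarith) (hzn t ht.1 (by linarith [ht.2])) (hs t ht)
  have hex : ∃ s ∈ Set.Icc 0 m, 1 ≤ x.z s := by
    by_contra hno
    push Not at hno
    have h1 := hwone m hm0.le le_rfl fun t ht => (hno t ht).le
    have h2 : m < t₁ := by
      refine lt_of_le_of_ne hmt fun h => ?_
      have h3 := h1 m ⟨hm0.le, le_rfl⟩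
      rw [h] at h3
      linarith [hret.w1]
    have h3 : m = 1 := by
      rw [hm]
      refine min_eq_left ?_
      by_contra h4
      rw [not_le] at h4
      rw [hm, min_eq_right h4.le] at h2
      exact lt_irrefl _ h2
    have h4 := O6_low x.dz hm0.le fun t ht => h1 t ht
    rw [hret.z0] at h4
    have h5 := hno m ⟨hm0.le, le_rfl⟩
    linarith
  -- the first time with z = 1
  have hcpt : IsCompact {t | t ∈ Set.Icc 0 m ∧ 1 ≤ x.z t} :=
    isCompact_Icc.inter_right (isClosed_le continuous_const hz)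
  obtain ⟨ta, ⟨hta, hzta⟩, hta'⟩ := hcpt.exists_isLeast (by
    obtain ⟨s, hs, hs1⟩ := hex
    exact ⟨s, hs, hs1⟩)
  have hta0 : 0 < ta := by
    rcases hta.1.lt_or_eq with h | h
    · exact h
    · rw [← h, hret.z0] at hzta
      norm_num at hzta
  have hzta1 : x.z ta = 1 := by
    refine le_antisymm ?_ hzta
    by_contra hc
    rw [not_le] at hc
    obtain ⟨s, hs, hs1⟩ := intermediate_value_Icc hta.1 hz.continuousOn
      (show (1 : ℝ) ∈ Set.Icc (x.z 0) (x.z ta) from ⟨by rw [hret.z0]; norm_num, hc.le⟩)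
    have h1 : ta ≤ s := hta' ⟨⟨hs.1, hs.2.trans hta.2⟩, hs1.ge⟩
    have h2 : s = ta := le_antisymm hs.2 h1
    rw [h2] at hs1
    linarith
  have hle1 : ∀ t ∈ Set.Icc 0 ta, x.z t ≤ 1 := by
    intro t ht
    by_contra hc
    rw [not_le] at hc
    have h1 : ta ≤ t := hta' ⟨⟨ht.1, ht.2.trans hta.2⟩, hc.le⟩
    have h2 : t = ta := le_antisymm ht.2 h1
    rw [h2] at hc
    linarith
  have hwa := hwone ta hta.1 hta.2 hle1
  have hta1 : ta ≤ 1 := hta.2.trans hm1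
  have htat : ta ≤ t₁ := hta.2.trans hmt
  have hza : ∀ t ∈ Set.Icc 0 ta, t ≤ x.z t := by
    intro t ht
    have := O6_low x.dz ht.1 fun s hs => hwa s ⟨hs.1, hs.2.trans ht.2⟩
    rw [hret.z0] at this
    linarith
  -- the last time with z = 1
  have hcpt2 : IsCompact {t | t ∈ Set.Icc 0 t₁ ∧ 1 ≤ x.z t} :=
    isCompact_Icc.inter_right (isClosed_le continuous_const hz)
  obtain ⟨tb, ⟨htb, hztb⟩, htb'⟩ := hcpt2.exists_isGreatest ⟨ta, ⟨hta.1, htat⟩, hzta⟩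
  have htab : ta ≤ tb := htb' ⟨⟨hta.1, htat⟩, hzta⟩
  have htb1 : tb < t₁ := by
    rcases htb.2.lt_or_eq with h | h
    · exact h
    · rw [h, hret.z1] at hztb
      norm_num at hztb
  have hzlt : ∀ t, tb < t → t ≤ t₁ → x.z t < 1 := by
    intro t h1 h2
    by_contra hc
    rw [not_lt] at hc
    exact absurd (htb' ⟨⟨by linarith [htb.1], h2⟩, hc⟩) (not_le.2 h1)
  have hztb1 : x.z tb = 1 := by
    refine le_antisymm ?_ hztb
    by_contra hc
    rw [not_le] at hc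
    obtain ⟨s, hs, hs1⟩ := intermediate_value_Icc' htb1.le hz.continuousOn
      (show (1 : ℝ) ∈ Set.Icc (x.z t₁) (x.z tb) from ⟨by rw [hret.z1]; norm_num, hc.le⟩)
    rcases hs.1.lt_or_eq with h | h
    · have := hzlt s h hs.2
      linarith
    · rw [← h] at hs1
      linarith
  have hzab : ∀ t ∈ Set.Icc ta tb, 1 ≤ x.z t := by
    intro t ht
    have := hret.min_le hμ hta.1 ht.1 ht.2 htb.2
    rwa [hzta1, hztb1, min_self] at this
  have hYa : ‖x.Y ta‖ ≤ R + 9 / 4 := hYs ta hta.1 hta1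
  have hYab : ∀ t ∈ Set.Icc ta tb, ‖x.Y t‖ ≤ R + 25 / 4 := by
    intro t ht
    have h1 := x.norm_Y_le hμ ht.1
    have h2 := x.far_kick hμ hμ64 hk ht.1 le_rfl fun s hs => hzab s ⟨hs.1, hs.2.trans ht.2⟩
    linarith
  have hYb : ‖x.Y tb‖ ≤ R + 25 / 4 := hYab tb ⟨htab, le_rfl⟩
  -- w(t_b) ≤ -1
  have hwb2 : 1 ≤ x.w tb ^ 2 := hw2 tb (by linarith) (by rw [hztb1]; norm_num) hztb1.le
  have hwb : x.w tb ≤ -1 := by
    by_contra hc
    rw [not_le] at hc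
    have h1 : 0 < x.w tb := by
      by_contra h2
      rw [not_lt] at h2
      nlinarith
    obtain ⟨tc, htc0, htc1, htc2, htc3, htc4⟩ := hret.exists_apex hμ
    have h2 : tb < tc := by
      by_contra h3
      rw [not_lt] at h3
      rcases h3.lt_or_eq with h4 | h4
      · have := htc4 tb h4 htb.2
        linarith
      · rw [← h4, htc2] at h1
        exact lt_irrefl _ h1
    have h3 := O6_low x.dz h2.le (c := 0) fun s hs => by
      rcases hs.2.lt_or_eq with h4 | h4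
      · exact (htc3 s (by linarith [hs.1, htb.1]) h4).le
      · rw [h4, htc2]
    have h4 := hzlt tc h2 htc1.le
    linarith
  have hwb' : ∀ t ∈ Set.Icc tb t₁, x.w t ≤ -1 := by
    intro t ht
    exact ((hret.w_anti hμ).antitoneOn htb ⟨htb.1.trans ht.1, ht.2⟩ ht.1).trans hwb
  have hzb : ∀ t ∈ Set.Icc tb t₁, t₁ - t ≤ x.z t := by
    intro t ht
    have := O6_up x.dz ht.2 fun s hs => hwb' s ⟨ht.1.trans hs.1, hs.2⟩
    rw [hret.z1] at this
    linarith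
  have htb2 : t₁ - tb ≤ 1 := by
    have := hzb tb ⟨le_rfl, htb1.le⟩
    linarith
  rw [← hRdef]
  refine ⟨fun t ht => ?_, ?_, fun t ht => ?_⟩
  · rcases le_total t ta with h1 | h1
    · have := hYs t ht.1 (h1.trans hta1)
      linarith
    · rcases le_total t tb with h2 | h2
      · have := hYab t ⟨h1, h2⟩
        linarith
      · have h3 := x.norm_Y_le' hμ hμ64 hk h2
        have h4 : t - tb ≤ 1 := by linarith [ht.2]
        linarith
  · have h1 := O6_up x.dz hta.1 (c := 5 / 2) fun s hs =>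
      (le_abs_self _).trans (x.abs_w_le hμ hμ64 hk s)
    have h2 := O6_low x.dz htb1.le (c := -(5 / 2)) fun s hs =>
      neg_le_of_abs_le (x.abs_w_le hμ hμ64 hk s)
    rw [hzta1, hret.z0] at h1
    rw [hret.z1, hztb1] at h2
    linarith
  · rcases le_total t ta with h1 | h1
    · exact (min_le_left _ _).trans ((min_le_left _ _).trans (hza t ⟨ht.1, h1⟩))
    · rcases le_total t tb with h2 | h2
      · exact (min_le_right _ _).trans (hzab t ⟨h1, h2⟩)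
      · exact (min_le_left _ _).trans ((min_le_right _ _).trans (hzb t ⟨h2, ht.2⟩))

end IsoTB
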