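import Pool.Agent.Lib.MP_3f23fb_mp.W.N2
import Pool.Agent.Lib.MP_3f23fb_mp.W.O6

/-!
# MP_3f23fb_mp, module W/N3: the scattering map, uniform version

Same as module N3; choose τ as there, C = max of the constants of `near τ`, `near_int τ`, and δ₀ ≤ 1/400 with 164 C δ₀ ≤ ε/8, 164 C δ₀ ≤ vel(τ)/2 (WLOG ε ≤ 1). The orbit x is used with δ = δ₀, the reversed orbit with
δ = 164 δ₀: ‖Y(t₁)‖ ≤ ‖Y(0)‖ + 9 (cross), μ((‖Y(0)‖+9)²+k) ≤ 2μ‖Y(0)‖² + 162μ + μk ≤ 164 δ₀. The rest of the proof of N3.lean can be copied.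
-/

set_option autoImplicit false
set_option linter.unusedVariables false

open MeasureTheory intervalIntegral Complex

namespace IsoTB

namespace Orb

/-- The shifted amplitude V = Y - iJ. -/
noncomputable def V {μ k : ℝ} (x : Orb μ k) (t : ℝ) : ℂ := x.Y t - I * JJ

end Orb

/-- Real inequalities for the choice of the constants. -/
private theorem N3_choice (ε : ℝ) (hε : 0 < ε) (hε1 : ε ≤ 1) : ∃ τ : ℝ, 0 < τ ∧ 1 + 16 / ε ≤ zeta τ := by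
  have h1 := (zeta_tendsto.eventually_ge_atTop (1 + 16 / ε)).and
    (Filter.eventually_gt_atTop (0 : ℝ))
  obtain ⟨τ, h2, h3⟩ := h1.exists
  exact ⟨τ, h3, h2⟩

/-- The contribution of the last piece. -/
private theorem N3_last {μ k : ℝ} (x : Orb μ k) (t₁ τ : ℝ) :
    ∫ s in (t₁ - τ)..t₁, (x.F s : ℂ) * exp (I * x.ph s) =
      exp (I * x.ph t₁) * (starRingEnd ℂ) (∫ s in (0:ℝ)..τ, ((x.rev t₁).F s : ℂ) * exp (I * (x.rev t₁).ph s)) := by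
  have h1 := intervalIntegral.integral_comp_sub_left (a := 0) (b := τ)
    (fun s => (x.F s : ℂ) * exp (I * x.ph s)) t₁
  rw [sub_zero] at h1
  rw [← h1]
  have h2 : (starRingEnd ℂ) (∫ s in (0:ℝ)..τ, ((x.rev t₁).F s : ℂ) * exp (I * (x.rev t₁).ph s)) =
      ∫ s in (0:ℝ)..τ, (starRingEnd ℂ) (((x.rev t₁).F s : ℂ) * exp (I * (x.rev t₁).ph s)) := by
    simp only [intervalIntegral, map_sub, ← integral_conj]
  rw [h2, ← intervalIntegral.integral_const_mul]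
  refine intervalIntegral.integral_congr fun s _ => ?_
  change (x.F (t₁ - s) : ℂ) * exp (I * x.ph (t₁ - s)) = exp (I * x.ph t₁) *
    (starRingEnd ℂ) (((x.rev t₁).F s : ℂ) * exp (I * (x.rev t₁).ph s))
  have e1 : (x.rev t₁).F s = x.F (t₁ - s) := x.F_rev t₁ s
  have e2 : (x.rev t₁).ph s = x.ph t₁ - x.ph (t₁ - s) := x.ph_rev t₁ s
  rw [map_mul, Complex.conj_ofReal, ← Complex.exp_conj, map_mul, Complex.conj_I, Complex.conj_ofReal,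
    e1, e2]
  have e3 : exp (I * (x.ph (t₁ - s) : ℂ)) = exp (I * (x.ph t₁ : ℂ)) *
      exp (-I * ((x.ph t₁ - x.ph (t₁ - s) : ℝ) : ℂ)) := by
    rw [← Complex.exp_add]
    congr 1
    push_cast
    ring
  rw [e3]
  ring

private theorem N3_core (ε : ℝ) (hε : 0 < ε) (hε1 : ε ≤ 1) :
    ∃ τ δ₀ : ℝ, 0 < τ ∧ 0 < δ₀ ∧ δ₀ ≤ 1 / 400 ∧
    ∀ {μ k : ℝ}, 0 < μ → μ ≤ δ₀ → 0 < k → ∀ (x : Orb μ k) (t₁ : ℝ), x.IsRet t₁ → μ * (‖x.Y 0‖ ^ 2 + k) ≤ δ₀ →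
      ‖x.V t₁ - (exp (-(I * x.ph t₁)) * x.V 0 - I * (2 * JJ.re))‖ ≤ ε ∧ 2 * τ < t₁ ∧
      (∀ t ∈ Set.Icc 0 τ, 0 < x.w t) ∧ (∀ t ∈ Set.Icc (t₁ - τ) t₁, x.w t < 0) ∧
      (∀ t ∈ Set.Icc τ (t₁ - τ), 1 / ε ≤ x.z t ∧ |‖x.Y t‖ - ‖x.V 0‖| ≤ ε) := by
  obtain ⟨τ, hτ, hζ⟩ := N3_choice ε hε hε1
  obtain ⟨C1, hC1, hnear⟩ := near τ hτ
  obtain ⟨C2, hC2, hnint⟩ := near_int τ hτ
  have hv := vel_pos τ
  -- real inequalities
  have h16 : 16 ≤ 16 / ε := by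
    rw [le_div_iff₀ hε]
    linarith
  have hζ1 : 1 ≤ zeta τ := by linarith
  have hζinv : 1 / zeta τ ≤ ε / 16 := by
    rw [div_le_div_iff₀ (by linarith) (by norm_num)]
    have h1 : 16 / ε ≤ zeta τ := by linarith
    rw [div_le_iff₀ hε] at h1
    linarith
  obtain ⟨Z, hZ⟩ : ∃ Z, Z = zeta τ - 1 := ⟨_, rfl⟩
  have hZ16 : 16 / ε ≤ Z := by rw [hZ]; linarith
  have hZ1 : 1 ≤ Z := by linarith
  have hZε : 1 / ε ≤ Z := by
    refine le_trans ?_ hZ16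
    exact div_le_div_of_nonneg_right (by norm_num) hε.le
  have hZ4 : 4 / Z ≤ ε / 4 := by
    rw [div_le_div_iff₀ (by linarith) (by norm_num)]
    rw [div_le_iff₀ hε] at hZ16
    linarith
  refine ⟨τ, min (1 / 400) (min (ε / (1312 * (C1 + C2))) (vel τ / (328 * (C1 + C2)))), hτ,
    lt_min (by norm_num) (lt_min (by positivity) (by positivity)), min_le_left _ _, ?_⟩
  set δ₀ : ℝ := min (1 / 400) (min (ε / (1312 * (C1 + C2))) (vel τ / (328 * (C1 + C2)))) with hδ₀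
  have hδpos : 0 < δ₀ := lt_min (by norm_num) (lt_min (by positivity) (by positivity))
  intro μ k hμ hμ0 hk x t₁ hret hY0
  have hμa : δ₀ ≤ 1 / 400 := min_le_left _ _
  have hμb : δ₀ ≤ ε / (1312 * (C1 + C2)) := (min_le_right _ _).trans (min_le_left _ _)
  have hμc : δ₀ ≤ vel τ / (328 * (C1 + C2)) := (min_le_right _ _).trans (min_le_right _ _)
  have hμ64 : μ ≤ 1 / 64 := by linarith
  rw [le_div_iff₀ (by positivity)] at hμb hμc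
  have hp1 : 0 < δ₀ * C1 := mul_pos hδpos hC1
  have hp2 : 0 < δ₀ * C2 := mul_pos hδpos hC2
  have hC1e : C1 * (164 * δ₀) ≤ ε / 8 := by nlinarith
  have hC2e : C2 * (164 * δ₀) ≤ ε / 8 := by nlinarith
  have hC1v : C1 * (164 * δ₀) ≤ vel τ / 2 := by nlinarith
  have hd1 : δ₀ ≤ 164 * δ₀ := by linarith
  obtain ⟨hYb, -, -⟩ := cross hμ (hμ0.trans hμa) hk x hret (hY0.trans hμa)
  have ht₁ := hret.pos
  have hret' : (x.rev t₁).IsRet t₁ := hret.rev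
  have hY0' : μ * (‖(x.rev t₁).Y 0‖ ^ 2 + k) ≤ 164 * δ₀ := by
    have h1 : ‖(x.rev t₁).Y 0‖ ≤ ‖x.Y 0‖ + 9 := by
      rw [x.Y_rev, sub_zero, Complex.norm_conj]
      exact hYb t₁ ⟨ht₁.le, le_rfl⟩
    have h2 : 0 ≤ ‖(x.rev t₁).Y 0‖ := norm_nonneg _
    have h3 : 0 ≤ ‖x.Y 0‖ := norm_nonneg _
    have h4 : ‖(x.rev t₁).Y 0‖ ^ 2 ≤ 2 * ‖x.Y 0‖ ^ 2 + 162 := by
      have h5 : ‖(x.rev t₁).Y 0‖ ^ 2 ≤ (‖x.Y 0‖ + 9) ^ 2 := pow_le_pow_left₀ h2 h1 2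
      nlinarith [sq_nonneg (‖x.Y 0‖ - 9)]
    have h6 : μ * (‖(x.rev t₁).Y 0‖ ^ 2 + k) ≤ μ * (2 * ‖x.Y 0‖ ^ 2 + 162 + k) :=
      mul_le_mul_of_nonneg_left (by linarith) hμ.le
    have h7 : μ * (2 * ‖x.Y 0‖ ^ 2 + 162 + k) = 2 * (μ * (‖x.Y 0‖ ^ 2 + k)) + 162 * μ - μ * k := by ring
    have h8 : 0 < μ * k := mul_pos hμ hk
    linarith
  have hμ164 : μ ≤ 164 * δ₀ := hμ0.trans hd1
  have hn := hnear hμ hμ64 hk hμ164 x hret.z0 hret.w0 (hY0.trans hd1)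
  have hn' := hnear hμ hμ64 hk hμ164 (x.rev t₁) hret'.z0 hret'.w0 hY0'
  have hi := hnint hμ hμ64 hk hμ164 x hret.z0 hret.w0 (hY0.trans hd1)
  have hi' := hnint hμ hμ64 hk hμ164 (x.rev t₁) hret'.z0 hret'.w0 hY0'
  -- signs of w
  have hw1 : ∀ t ∈ Set.Icc 0 τ, 0 < x.w t := by
    intro t ht
    have h1 := (abs_le.1 (hn t ht).2).1
    have h2 := vel_antitone ht.1 ht.2
    linarith
  have hw2 : ∀ t ∈ Set.Icc (t₁ - τ) t₁, x.w t < 0 := by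
    intro t ht
    have h0 : t₁ - t ∈ Set.Icc 0 τ := ⟨by linarith [ht.2], by linarith [ht.1]⟩
    have h1 := (abs_le.1 (hn' (t₁ - t) h0).2).1
    have h2 := vel_antitone h0.1 h0.2
    have h3 : (x.rev t₁).w (t₁ - t) = -x.w t := by
      change -x.w (t₁ - (t₁ - t)) = -x.w t
      rw [sub_sub_cancel]
    rw [h3] at h1
    linarith
  have h2τ : 2 * τ < t₁ := by
    by_contra hc
    rw [not_lt] at hc
    rcases le_or_gt t₁ τ with h1 | h1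
    · have h2 := hw1 t₁ ⟨ht₁.le, h1⟩
      linarith [hret.w1]
    · have h2 := hw1 τ ⟨hτ.le, le_rfl⟩
      have h3 := hw2 τ ⟨by linarith, h1.le⟩
      linarith
  -- heights
  have hzτ : Z ≤ x.z τ := by
    have h1 := (abs_le.1 (hn τ ⟨hτ.le, le_rfl⟩).1).1
    rw [hZ]
    linarith
  have hzτ' : Z ≤ x.z (t₁ - τ) := by
    have h1 := (abs_le.1 (hn' τ ⟨hτ.le, le_rfl⟩).1).1
    have h3 : (x.rev t₁).z τ = x.z (t₁ - τ) := rfl
    rw [h3] at h1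
    rw [hZ]
    linarith
  have hzZ : ∀ t ∈ Set.Icc τ (t₁ - τ), Z ≤ x.z t := by
    intro t ht
    have h1 := hret.min_le hμ (a := τ) (b := t₁ - τ) hτ.le ht.1 ht.2 (by linarith)
    exact (le_min hzτ hzτ').trans h1
  have hkick : ∀ t ∈ Set.Icc τ (t₁ - τ), ∫ s in τ..t, x.F s ≤ ε / 4 := by
    intro t ht
    exact (x.far_kick hμ hμ64 hk ht.1 hZ1 fun s hs => hzZ s ⟨hs.1, hs.2.trans ht.2⟩).trans hZ4
  -- errors
  have hint : ∀ a b : ℝ, IntervalIntegrable (fun s => (x.F s : ℂ) * exp (I * x.ph s)) volume a b :=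
    fun a b => x.O2_cont_int.intervalIntegrable a b
  have hJ := Jt_sub_le hτ hζ1
  obtain ⟨E1, hE1⟩ : ∃ E1, E1 = (∫ s in (0:ℝ)..τ, (x.F s : ℂ) * exp (I * x.ph s)) - JJ := ⟨_, rfl⟩
  have hE1n : ‖E1‖ ≤ ε / 8 + ε / 16 := by
    have h1 : E1 = ((∫ s in (0:ℝ)..τ, (x.F s : ℂ) * exp (I * x.ph s)) - Jt τ) + (Jt τ - JJ) := by
      rw [hE1]; ring
    rw [h1]
    refine (norm_add_le _ _).trans (add_le_add (hi.trans hC2e) (hJ.trans hζinv))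
  obtain ⟨E3, hE3⟩ : ∃ E3, E3 = (∫ s in (0:ℝ)..τ, ((x.rev t₁).F s : ℂ) *
    exp (I * (x.rev t₁).ph s)) - JJ := ⟨_, rfl⟩
  have hE3n : ‖E3‖ ≤ ε / 8 + ε / 16 := by
    have h1 : E3 = ((∫ s in (0:ℝ)..τ, ((x.rev t₁).F s : ℂ) * exp (I * (x.rev t₁).ph s)) - Jt τ) +
        (Jt τ - JJ) := by
      rw [hE3]; ring
    rw [h1]
    refine (norm_add_le _ _).trans (add_le_add (hi'.trans hC2e) (hJ.trans hζinv))
  have hI1 : (∫ s in (0:ℝ)..τ, (x.F s : ℂ) * exp (I * x.ph s)) = JJ + E1 := by rw [hE1]; ring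
  have hI3 : (∫ s in (0:ℝ)..τ, ((x.rev t₁).F s : ℂ) * exp (I * (x.rev t₁).ph s)) = JJ + E3 := by
    rw [hE3]; ring
  have hexp0 : exp (I * (x.ph 0 : ℂ)) = 1 := by
    rw [x.ph_zero]
    simp
  have hform : ∀ t ∈ Set.Icc τ (t₁ - τ), ∃ E2 : ℂ, ‖E2‖ ≤ ε / 4 ∧
      (∫ s in τ..t, (x.F s : ℂ) * exp (I * x.ph s)) = E2 ∧
      x.Y t * exp (I * x.ph t) = x.V 0 - I * (E1 + E2) := by
    intro t ht
    refine ⟨_, (x.norm_integral_le ht.1).trans (hkick t ht), rfl, ?_⟩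
    rw [x.Y_formula hμ 0 t, hexp0, ← intervalIntegral.integral_add_adjacent_intervals (hint 0 τ)
      (hint τ t), hI1]
    unfold Orb.V
    ring
  refine ⟨?_, h2τ, hw1, hw2, ?_⟩
  · obtain ⟨E2, hE2n, hI2, -⟩ := hform (t₁ - τ) ⟨by linarith, le_rfl⟩
    have h1 := x.Y_formula hμ 0 t₁
    rw [hexp0, ← intervalIntegral.integral_add_adjacent_intervals (hint 0 (t₁ - τ))
      (hint (t₁ - τ) t₁), ← intervalIntegral.integral_add_adjacent_intervals (hint 0 τ)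
      (hint τ (t₁ - τ)), hI1, hI2, N3_last, hI3, map_add] at h1
    have h2 : exp (I * (x.ph t₁ : ℂ)) * exp (-(I * (x.ph t₁ : ℂ))) = 1 := by
      rw [← Complex.exp_add, add_neg_cancel, Complex.exp_zero]
    have hJJ : JJ + (starRingEnd ℂ) JJ = ((2 * JJ.re : ℝ) : ℂ) := Complex.add_conj JJ
    have h3 : x.V t₁ - (exp (-(I * (x.ph t₁ : ℂ))) * x.V 0 - I * (2 * JJ.re)) =
        -(I * (exp (-(I * (x.ph t₁ : ℂ))) * (E1 + E2))) - I * (starRingEnd ℂ) E3 := by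
      have h4 : x.Y t₁ = x.Y t₁ * exp (I * (x.ph t₁ : ℂ)) * exp (-(I * (x.ph t₁ : ℂ))) := by
        rw [mul_assoc, h2, mul_one]
      have h5 : (starRingEnd ℂ) JJ = 2 * (JJ.re : ℂ) - JJ := by
        rw [eq_sub_iff_add_eq, add_comm, hJJ]
        push_cast
        ring
      unfold Orb.V
      rw [h4, h1, h5]
      linear_combination (-I * (2 * (JJ.re : ℂ) - JJ + (starRingEnd ℂ) E3)) * h2
    rw [h3]
    have h4 : ‖exp (-(I * (x.ph t₁ : ℂ)))‖ = 1 := by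
      have : -(I * (x.ph t₁ : ℂ)) = ((-x.ph t₁ : ℝ) : ℂ) * I := by
        push_cast
        ring
      rw [this]
      exact Complex.norm_exp_ofReal_mul_I _
    refine (norm_sub_le _ _).trans ?_
    rw [norm_neg, norm_mul, norm_mul, norm_mul, h4, Complex.norm_I, one_mul, one_mul, one_mul,
      Complex.norm_conj]
    have h5 := norm_add_le E1 E2
    linarith
  · intro t ht
    refine ⟨hZε.trans (hzZ t ht), ?_⟩
    obtain ⟨E2, hE2n, -, hE2⟩ := hform t ht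
    have h1 : ‖x.Y t‖ = ‖x.Y t * exp (I * x.ph t)‖ := by
      rw [norm_mul, x.O2_norm_exp, mul_one]
    rw [h1, hE2]
    refine (abs_norm_sub_norm_le _ _).trans ?_
    have h2 : x.V 0 - I * (E1 + E2) - x.V 0 = -(I * (E1 + E2)) := by ring
    rw [h2, norm_neg, norm_mul, Complex.norm_I, one_mul]
    have h5 := norm_add_le E1 E2
    linarith

theorem scatter (ε : ℝ) (hε : 0 < ε) : ∃ τ δ₀ : ℝ, 0 < τ ∧ 0 < δ₀ ∧ δ₀ ≤ 1 / 400 ∧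
    ∀ {μ k : ℝ}, 0 < μ → μ ≤ δ₀ → 0 < k → ∀ (x : Orb μ k) (t₁ : ℝ), x.IsRet t₁ → μ * (‖x.Y 0‖ ^ 2 + k) ≤ δ₀ →
      ‖x.V t₁ - (exp (-(I * x.ph t₁)) * x.V 0 - I * (2 * JJ.re))‖ ≤ ε ∧ 2 * τ < t₁ ∧
      (∀ t ∈ Set.Icc 0 τ, 0 < x.w t) ∧ (∀ t ∈ Set.Icc (t₁ - τ) t₁, x.w t < 0) ∧
      (∀ t ∈ Set.Icc τ (t₁ - τ), 1 / ε ≤ x.z t ∧ |‖x.Y t‖ - ‖x.V 0‖| ≤ ε) := by
  have hm : 0 < min ε 1 := lt_min hε one_pos
  obtain ⟨τ, δ₀, h1, h2, h3, h4⟩ := N3_core (min ε 1) hm (min_le_right _ _)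
  refine ⟨τ, δ₀, h1, h2, h3, ?_⟩
  intro μ k hμ hμ0 hk x t₁ hret hY0
  obtain ⟨a1, a2, a3, a4, a5⟩ := h4 hμ hμ0 hk x t₁ hret hY0
  refine ⟨a1.trans (min_le_left _ _), a2, a3, a4, fun t ht => ?_⟩
  obtain ⟨b1, b2⟩ := a5 t ht
  exact ⟨(one_div_le_one_div_of_le hm (min_le_left _ _)).trans b1, b2.trans (min_le_left _ _)⟩

end IsoTB
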