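import Pool.Agent.Lib.MP_3f23fb_mp.W.S1
import Pool.Agent.Lib.MP_3f23fb_mp.S2

/-!
# MP_3f23fb_mp, module W/S3: one stretching step (radius R ≥ d)

Win j = [-π/2 - 2πj, π/2 - 2πj]. j₀ = ⌈(π + ΦB)/(2π)⌉, so π + ΦB ≤ 2πj₀ < 3π + ΦB. β(s) = arg (V s) - Φ s crosses the windows j₀, j₀ + 2; V = ‖V‖ e^{i arg V}, so
V' = ‖V‖ e^{iβ} - i d + err, ‖err‖ ≤ d/15. At the end with e^{iβ} = -i: ‖V'‖ ≥ R - d/3 + d - d/15 ≥ R + d/3. At the end with e^{iβ} = i: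
‖V'‖ ≤ |‖V‖ - d| + d/15 ≤ R - 2d/3 + d/15 ≤ R - d/3 (‖V‖ - d ≤ R - 2d/3 and d - ‖V‖ ≤ 4d/3 - R ≤ R - 2d/3). Then as in module S3.
-/

set_option autoImplicit false
set_option linter.unusedVariables false

open Complex

namespace IsoTB

/-- The j-th window of angles. -/
def Win (j : ℤ) : Set ℝ := Set.Icc (-(Real.pi / 2) - 2 * Real.pi * j) (Real.pi / 2 - 2 * Real.pi * j)

/-- The first window used. -/
noncomputable def jz (ΦB : ℝ) : ℤ := ⌈(Real.pi + ΦB) / (2 * Real.pi)⌉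

/-- The window belonging to a symbol. -/
noncomputable def wsym (ΦB : ℝ) (e : Bool) : Set ℝ := Win (jz ΦB + 2 * (if e then 1 else 0))

/-- the numerical facts at one parameter -/
private theorem S3_facts {d ρ x ε : ℝ} (hρ : 0 ≤ ρ) (hd : 0 < d) {V' : ℂ}
    (h : ‖V' - ((ρ : ℂ) * exp (I * x) - I * d)‖ ≤ ε) :
    (Real.cos x = 0 → Real.sin x = -1 → ρ + d - ε ≤ ‖V'‖) ∧
      (Real.cos x = 0 → Real.sin x = 1 → ‖V'‖ ≤ |ρ - d| + ε) ∧
      (ρ - ε ≤ ‖V' + I * d‖ ∧ ‖V' + I * d‖ ≤ ρ + ε) ∧ ρ * Real.cos x - ε ≤ V'.re := by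
  have hexp : exp (I * x) = (Real.cos x : ℂ) + (Real.sin x : ℂ) * I := by
    rw [mul_comm, Complex.exp_mul_I, Complex.ofReal_cos, Complex.ofReal_sin]
  have hn : ‖(ρ : ℂ) * exp (I * x)‖ = ρ := by
    rw [norm_mul, mul_comm I, Complex.norm_exp_ofReal_mul_I, mul_one, Complex.norm_real, Real.norm_eq_abs,
      abs_of_nonneg hρ]
  refine ⟨?_, ?_, ⟨?_, ?_⟩, ?_⟩
  · intro hc hs
    have e : (ρ : ℂ) * exp (I * x) - I * d = -(((ρ + d : ℝ) : ℂ) * I) := by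
      rw [hexp, hc, hs]
      push_cast
      ring
    rw [e] at h
    have h1 : ‖(((ρ + d : ℝ) : ℂ) * I)‖ = ρ + d := by
      rw [norm_mul, Complex.norm_I, mul_one, Complex.norm_real, Real.norm_eq_abs, abs_of_nonneg (by linarith)]
    have h2 := norm_sub_norm_le (((ρ + d : ℝ) : ℂ) * I) (-(V' - -(((ρ + d : ℝ) : ℂ) * I)) + (((ρ + d : ℝ) : ℂ) * I))
    have h3 : -V' = -(V' - -(((ρ + d : ℝ) : ℂ) * I)) + (((ρ + d : ℝ) : ℂ) * I) := by ring
    have h4 : (((ρ + d : ℝ) : ℂ) * I) - -V' = V' - -(((ρ + d : ℝ) : ℂ) * I) := by ring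
    rw [← h3, h4, norm_neg, h1] at h2
    linarith
  · intro hc hs
    have e : (ρ : ℂ) * exp (I * x) - I * d = ((ρ - d : ℝ) : ℂ) * I := by
      rw [hexp, hc, hs]
      push_cast
      ring
    rw [e] at h
    have h1 : ‖(((ρ - d : ℝ) : ℂ) * I)‖ = |ρ - d| := by
      rw [norm_mul, Complex.norm_I, mul_one, Complex.norm_real, Real.norm_eq_abs]
    have h2 := norm_add_le (((ρ - d : ℝ) : ℂ) * I) (V' - ((ρ - d : ℝ) : ℂ) * I)
    rw [add_sub_cancel, h1] at h2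
    linarith
  · have h2 := norm_sub_norm_le ((ρ : ℂ) * exp (I * x)) (V' + I * d)
    have h3 : (ρ : ℂ) * exp (I * x) - (V' + I * d) = -(V' - ((ρ : ℂ) * exp (I * x) - I * d)) := by ring
    rw [h3, norm_neg, hn] at h2
    linarith
  · have h2 := norm_add_le ((ρ : ℂ) * exp (I * x)) (V' - ((ρ : ℂ) * exp (I * x) - I * d))
    have h3 : (ρ : ℂ) * exp (I * x) + (V' - ((ρ : ℂ) * exp (I * x) - I * d)) = V' + I * d := by ring
    rw [h3, hn] at h2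
    linarith
  · have h2 := (Complex.abs_re_le_norm (V' - ((ρ : ℂ) * exp (I * x) - I * d))).trans h
    have h3 : (V' - ((ρ : ℂ) * exp (I * x) - I * d)).re = V'.re - ρ * Real.cos x := by
      rw [hexp]
      simp [Complex.sub_re, Complex.mul_re, -Complex.ofReal_cos, -Complex.ofReal_sin]
    rw [h3] at h2
    linarith [(abs_le.1 h2).1]

theorem wsym_dist {ΦB : ℝ} {e e' : Bool} (hne : e ≠ e') {x y : ℝ} (hx : x ∈ wsym ΦB e) (hy : y ∈ wsym ΦB e') :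
    3 * Real.pi ≤ |x - y| := by
  have hpi := Real.pi_pos
  have key : ∀ {x y : ℝ}, x ∈ wsym ΦB false → y ∈ wsym ΦB true → 3 * Real.pi ≤ x - y := by
    intro x y hx hy
    have h1 := hx.1
    have h2 := hy.2
    simp only [Bool.false_eq_true, if_false, if_true, mul_zero, add_zero, mul_one] at h1 h2
    push_cast at h2
    linarith
  cases e <;> cases e'
  · exact absurd rfl hne
  · exact (key hx hy).trans (le_abs_self _)
  · rw [abs_sub_comm]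
    exact (key hy hx).trans (le_abs_self _)
  · exact absurd rfl hne

theorem step {R d ΦA ΦB : ℝ} (hd : 0 < d) (hR : d ≤ R) (hgap : 8 * Real.pi ≤ ΦA - ΦB) {α β : ℝ} (hαβ : α ≤ β)
    {V V' : ℝ → ℂ} {Φ : ℝ → ℝ} (hV : ContinuousOn V (Set.Icc α β)) (hV' : ContinuousOn V' (Set.Icc α β))
    (hΦ : ContinuousOn Φ (Set.Icc α β)) (hr : ∀ s ∈ Set.Icc α β, Ring R d (V s)) (he : Ends R d (V α) (V β))
    (herr : ∀ s ∈ Set.Icc α β, ‖V' s - (exp (-(I * Φ s)) * V s - I * d)‖ ≤ d / 15)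
    (hA : ∀ s ∈ Set.Icc α β, ‖V s‖ = R - d / 3 → ΦA ≤ Φ s)
    (hB : ∀ s ∈ Set.Icc α β, ‖V s‖ = R + d / 3 → Φ s ≤ ΦB) (e : Bool) :
    ∃ α' β', α ≤ α' ∧ α' ≤ β' ∧ β' ≤ β ∧ Ends R d (V' α') (V' β') ∧
      ∀ s ∈ Set.Icc α' β', Ring R d (V' s) ∧ arg (V s) - Φ s ∈ wsym ΦB e := by
  have hpi := Real.pi_pos
  set j : ℤ := jz ΦB + 2 * (if e then 1 else 0) with hj
  have hceil1 : Real.pi + ΦB ≤ 2 * Real.pi * (jz ΦB : ℝ) := by
    have h1 : (Real.pi + ΦB) / (2 * Real.pi) ≤ (jz ΦB : ℝ) := Int.le_ceil _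
    rw [div_le_iff₀ (by positivity)] at h1
    linarith
  have hceil2 : 2 * Real.pi * (jz ΦB : ℝ) < 3 * Real.pi + ΦB := by
    have h1 : (jz ΦB : ℝ) < (Real.pi + ΦB) / (2 * Real.pi) + 1 := Int.ceil_lt_add_one _
    have h2 : (2 * Real.pi) * (jz ΦB : ℝ) < (2 * Real.pi) * ((Real.pi + ΦB) / (2 * Real.pi) + 1) :=
      mul_lt_mul_of_pos_left h1 (by positivity)
    have h3 : (2 * Real.pi) * ((Real.pi + ΦB) / (2 * Real.pi) + 1) = 3 * Real.pi + ΦB := by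
      field_simp
      ring
    linarith
  have hJ1 : Real.pi + ΦB ≤ 2 * Real.pi * (j : ℝ) := by
    rw [hj]
    push_cast
    split_ifs <;> linarith
  have hJ2 : 2 * Real.pi * (j : ℝ) ≤ 7 * Real.pi + ΦB := by
    rw [hj]
    push_cast
    split_ifs <;> linarith
  have harg : ∀ s ∈ Set.Icc α β, |arg (V s)| < Real.pi / 2 := fun s hs =>
    Complex.abs_arg_lt_pi_div_two_iff.2 (Or.inl (hr s hs).re_pos)
  have hbt : ContinuousOn (fun s => arg (V s) - Φ s) (Set.Icc α β) := by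
    refine ContinuousOn.sub (fun s hs => ?_) hΦ
    exact (Complex.continuousAt_arg (Or.inl (hr s hs).re_pos)).comp_continuousWithinAt (hV s hs)
  have hαm : α ∈ Set.Icc α β := ⟨le_rfl, hαβ⟩
  have hβm : β ∈ Set.Icc α β := ⟨hαβ, le_rfl⟩
  have hlow : ∀ s ∈ Set.Icc α β, ‖V s‖ = R - d / 3 → arg (V s) - Φ s ≤ -(Real.pi / 2) - 2 * Real.pi * j := by
    intro s hs h
    have h1 := hA s hs h
    have h2 := (abs_lt.1 (harg s hs)).2
    linarith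
  have hhigh : ∀ s ∈ Set.Icc α β, ‖V s‖ = R + d / 3 → Real.pi / 2 - 2 * Real.pi * j ≤ arg (V s) - Φ s := by
    intro s hs h
    have h1 := hB s hs h
    have h2 := (abs_lt.1 (harg s hs)).1
    linarith
  obtain ⟨α₁, β₁, hα₁, hαβ₁, hβ₁, hend, hwin⟩ := cross_any hαβ hbt
    (show -(Real.pi / 2) - 2 * Real.pi * j < Real.pi / 2 - 2 * Real.pi * (j : ℝ) by linarith) (by
      rcases he with ⟨h1, h2⟩ | ⟨h1, h2⟩
      · exact Or.inl ⟨hlow α hαm h1, hhigh β hβm h2⟩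
      · exact Or.inr ⟨hhigh α hαm h1, hlow β hβm h2⟩)
  have hsub : ∀ s ∈ Set.Icc α₁ β₁, s ∈ Set.Icc α β := fun s hs => ⟨hα₁.trans hs.1, hs.2.trans hβ₁⟩
  have hfacts : ∀ s ∈ Set.Icc α β, ‖V' s - ((‖V s‖ : ℂ) * exp (I * ((arg (V s) - Φ s : ℝ) : ℂ)) - I * d)‖ ≤ d / 15 := by
    intro s hs
    have e1 : (‖V s‖ : ℂ) * exp (I * ((arg (V s) - Φ s : ℝ) : ℂ)) = exp (-(I * Φ s)) * V s := by
      conv_rhs => rw [← Complex.norm_mul_exp_arg_mul_I (V s)]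
      rw [mul_left_comm, ← Complex.exp_add]
      congr 2
      push_cast
      ring
    rw [e1]
    exact herr s hs
  have hV'low : ∀ s ∈ Set.Icc α₁ β₁, arg (V s) - Φ s = -(Real.pi / 2) - 2 * Real.pi * j → R + d / 3 ≤ ‖V' s‖ := by
    intro s hs h
    have hx : -(Real.pi / 2) - 2 * Real.pi * (j : ℝ) = -(Real.pi / 2) - j * (2 * Real.pi) := by ring
    have h1 := (S3_facts (norm_nonneg _) hd (hfacts s (hsub s hs))).1 (by
      rw [h, hx, Real.cos_sub_int_mul_two_pi, Real.cos_neg, Real.cos_pi_div_two]) (by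
      rw [h, hx, Real.sin_sub_int_mul_two_pi, Real.sin_neg, Real.sin_pi_div_two])
    have h2 := (hr s (hsub s hs)).lo
    linarith
  have hV'high : ∀ s ∈ Set.Icc α₁ β₁, arg (V s) - Φ s = Real.pi / 2 - 2 * Real.pi * j → ‖V' s‖ ≤ R - d / 3 := by
    intro s hs h
    have hx : Real.pi / 2 - 2 * Real.pi * (j : ℝ) = Real.pi / 2 - j * (2 * Real.pi) := by ring
    have h1 := (S3_facts (norm_nonneg _) hd (hfacts s (hsub s hs))).2.1 (by
      rw [h, hx, Real.cos_sub_int_mul_two_pi, Real.cos_pi_div_two]) (by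
      rw [h, hx, Real.sin_sub_int_mul_two_pi, Real.sin_pi_div_two])
    have h2 := (hr s (hsub s hs)).lo
    have h3 := (hr s (hsub s hs)).hi
    have h4 : |‖V s‖ - d| ≤ R - 2 * d / 3 := by
      rw [abs_le]
      constructor <;> linarith
    linarith
  have hα₁m : α₁ ∈ Set.Icc α₁ β₁ := ⟨le_rfl, hαβ₁⟩
  have hβ₁m : β₁ ∈ Set.Icc α₁ β₁ := ⟨hαβ₁, le_rfl⟩
  obtain ⟨α', β', hα', hαβ', hβ', hend', hring⟩ := cross_any (f := fun s => ‖V' s‖) hαβ₁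
    ((hV'.mono fun s hs => hsub s hs).norm) (show R - d / 3 < R + d / 3 by linarith) (by
      rcases hend with ⟨h1, h2⟩ | ⟨h1, h2⟩
      · exact Or.inr ⟨hV'low α₁ hα₁m h1, hV'high β₁ hβ₁m h2⟩
      · exact Or.inl ⟨hV'high α₁ hα₁m h1, hV'low β₁ hβ₁m h2⟩)
  refine ⟨α', β', hα₁.trans hα', hαβ', hβ'.trans hβ₁, hend', ?_⟩
  intro s hs
  have hs1 : s ∈ Set.Icc α₁ β₁ := ⟨hα'.trans hs.1, hs.2.trans hβ'⟩
  have hw := hwin s hs1
  refine ⟨?_, hw⟩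
  obtain ⟨-, -, ⟨f1, f2⟩, f3⟩ := S3_facts (norm_nonneg _) hd (hfacts s (hsub s hs1))
  have h2 := (hr s (hsub s hs1)).lo
  have h3 := (hr s (hsub s hs1)).hi
  have h4 := hring s hs
  refine Ring.of_re hd hR h4.1 h4.2 (by linarith) (by linarith) ?_
  have hcos : 0 ≤ Real.cos (arg (V s) - Φ s) := by
    rw [← Real.cos_add_int_mul_two_pi _ j]
    exact Real.cos_nonneg_of_neg_pi_div_two_le_of_le (by linarith [hw.1]) (by linarith [hw.2])
  have h5 : 0 ≤ ‖V s‖ * Real.cos (arg (V s) - Φ s) := mul_nonneg (norm_nonneg _) hcos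
  linarith

end IsoTB
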