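import Pool.Agent.Lib.MP_3f23fb_mp.W.N3
import Pool.Agent.Lib.MP_3f23fb_mp.O3
import Pool.Agent.Lib.MP_3f23fb_mp.W.S3
import Pool.Agent.Lib.MP_3f23fb_mp.S5

/-!
# MP_3f23fb_mp, module W/S6: itineraries and one step for a family of orbits

`Itin x R d ΦB n u t`: t 0 = 0 < t 1 < ... < t n are consecutive crossings of the plane z = 0 by the orbit x, at every crossing the amplitude
V is in the region `Ring`, and the angle of the m-th half orbit is in the window of the symbol u m.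

`next_step`. For s ∈ [α,β] let y_s = (x s).shift (t₀ s) if sg, and its reflection `refl` if not sg. Then y_s.z 0 = 0, y_s.w 0 > 0, ‖y_s.V 0‖ = ‖(x s).V (t₀ s)‖ ≤ R + d/3
(Y_shift, Y_refl), so exists_isRet gives T_s with y_s.IsRet T_s; put t₁ s = t₀ s + T_s (choose; arbitrary outside [α,β]). The half-orbit facts `hho` for y_s give
all pointwise statements (ph_shift, ph_refl: y_s.ph T_s = (x s).ph (t₁ s) - (x s).ph (t₀ s)). ContinuousOn t₁: next_zero_continuous with (z,w) or (-z,-w).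
V' s = (x s).V (t₁ s), Φ s = (x s).ph (t₁ s) - (x s).ph (t₀ s) are continuous on [α,β] (cont_V, cont_ph composed with t₀, t₁). `step` gives [α',β'].
(2 JJ.re = d.)
-/

set_option autoImplicit false
set_option linter.unusedVariables false

open Complex

namespace IsoTB

/-- A family of orbits depending continuously on a real parameter. -/
structure Fam (μ k : ℝ) where
  x : ℝ → Orb μ k
  cont_r : Continuous fun q : ℝ × ℝ => (x q.1).r q.2
  cont_p : Continuous fun q : ℝ × ℝ => (x q.1).p q.2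
  cont_z : Continuous fun q : ℝ × ℝ => (x q.1).z q.2
  cont_w : Continuous fun q : ℝ × ℝ => (x q.1).w q.2

/-- The half-orbit facts used in the coding (conclusion of `half_orbit`). -/
def HOFacts (μ k R d ΦA ΦB : ℝ) : Prop :=
  ∀ (x : Orb μ k) (t₁ : ℝ), x.IsRet t₁ → ‖x.V 0‖ ≤ R + d / 3 →
    1 / 2 ≤ t₁ ∧ t₁ ≤ 1 + 40 / (μ * k) ^ 3 ∧
    (∀ t ∈ Set.Icc 0 t₁, min (min t (t₁ - t)) 1 ≤ x.z t) ∧
    ‖x.V t₁ - (exp (-(I * x.ph t₁)) * x.V 0 - I * d)‖ ≤ d / 15 ∧
    (‖x.V 0‖ = R - d / 3 → ΦA ≤ x.ph t₁) ∧ (‖x.V 0‖ = R + d / 3 → x.ph t₁ ≤ ΦB)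

/-- The data of one half orbit between the times a and b. -/
structure Half {μ k : ℝ} (x : Orb μ k) (d ΦB : ℝ) (e : Bool) (a b : ℝ) : Prop where
  gap : a + 1 / 2 ≤ b
  le : b ≤ a + (1 + 40 / (μ * k) ^ 3)
  big : ∀ t ∈ Set.Icc a b, min (min (t - a) (b - t)) 1 ≤ |x.z t|
  win : arg (x.V a) - (x.ph b - x.ph a) ∈ wsym ΦB e

/-- Itineraries. -/
structure Itin {μ k : ℝ} (x : Orb μ k) (R d ΦB : ℝ) (n : ℕ) (u : ℕ → Bool) (t : ℕ → ℝ) : Prop where
  t0 : t 0 = 0
  zero : ∀ m ≤ n, x.z (t m) = 0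
  ring : ∀ m ≤ n, Ring R d (x.V (t m))
  half : ∀ m < n, Half x d ΦB (u m) (t m) (t (m + 1))

/-- Pointwise facts about the next half orbit after a crossing at time a. -/
private theorem S6_point {μ k : ℝ} (hμ : 0 < μ) (hμ' : μ ≤ 1 / 64) (hk : 0 < k) {R d ΦA ΦB : ℝ}
    (hho : HOFacts μ k R d ΦA ΦB) (x : Orb μ k) (sg : Bool) (a : ℝ) (hz : x.z a = 0)
    (hw : 0 < (if sg then x.w a else -x.w a)) (hV : ‖x.V a‖ ≤ R + d / 3) :
    ∃ T, 0 < T ∧ x.z (a + T) = 0 ∧ 0 < (if sg then -x.w (a + T) else x.w (a + T)) ∧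
      (∀ t, a < t → t < a + T → 0 < (if sg then x.z t else -x.z t)) ∧
      1 / 2 ≤ T ∧ T ≤ 1 + 40 / (μ * k) ^ 3 ∧
      (∀ t ∈ Set.Icc a (a + T), min (min (t - a) (a + T - t)) 1 ≤ |x.z t|) ∧
      ‖x.V (a + T) - (exp (-(I * ((x.ph (a + T) - x.ph a : ℝ) : ℂ))) * x.V a - I * d)‖ ≤ d / 15 ∧
      (‖x.V a‖ = R - d / 3 → ΦA ≤ x.ph (a + T) - x.ph a) ∧
      (‖x.V a‖ = R + d / 3 → x.ph (a + T) - x.ph a ≤ ΦB) := by
  obtain ⟨y, hyz, hyw, hyV, hyph⟩ : ∃ y : Orb μ k, (∀ t, y.z t = if sg then x.z (t + a) else -x.z (t + a)) ∧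
      (∀ t, y.w t = if sg then x.w (t + a) else -x.w (t + a)) ∧ (∀ t, y.V t = x.V (t + a)) ∧
      (∀ t, y.ph t = x.ph (t + a) - x.ph a) := by
    cases sg
    · refine ⟨(x.shift a).refl, fun t => ?_, fun t => ?_, fun t => ?_, fun t => ?_⟩
      · simp [Orb.refl, Orb.shift]
      · simp [Orb.refl, Orb.shift]
      · show (x.shift a).refl.Y t - I * JJ = x.Y (t + a) - I * JJ
        rw [Orb.Y_refl, Orb.Y_shift]
      · rw [Orb.ph_refl, Orb.ph_shift]
    · refine ⟨x.shift a, fun t => ?_, fun t => ?_, fun t => ?_, fun t => ?_⟩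
      · simp [Orb.shift]
      · simp [Orb.shift]
      · show (x.shift a).Y t - I * JJ = x.Y (t + a) - I * JJ
        rw [Orb.Y_shift]
      · rw [Orb.ph_shift]
  have hy0 : y.z 0 = 0 := by
    rw [hyz, zero_add, hz]
    cases sg <;> simp
  have hy1 : 0 < y.w 0 := by
    rw [hyw, zero_add]
    exact hw
  obtain ⟨T, hT⟩ := y.exists_isRet hμ hμ' hk hy0 hy1
  have hV0 : ‖y.V 0‖ ≤ R + d / 3 := by
    rw [hyV, zero_add]
    exact hV
  obtain ⟨c1, c2, c3, c4, c5, c6⟩ := hho y T hT hV0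
  have e0 : y.V 0 = x.V a := by rw [hyV, zero_add]
  have e1 : y.V T = x.V (a + T) := by rw [hyV, add_comm]
  have e2 : y.ph T = x.ph (a + T) - x.ph a := by rw [hyph, add_comm]
  rw [e0, e1, e2] at c4
  rw [e0, e2] at c5 c6
  refine ⟨T, hT.pos, ?_, ?_, ?_, c1, c2, ?_, c4, c5, c6⟩
  · have h := hT.z1
    rw [hyz, add_comm] at h
    cases sg
    · simpa using h
    · simpa using h
  · have h := hT.w1
    rw [hyw, add_comm] at h
    cases sg
    · simp only [Bool.false_eq_true, if_false] at h ⊢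
      linarith
    · simp only [if_true] at h ⊢
      linarith
  · intro t h1 h2
    have h := hT.zpos (t - a) (by linarith) (by linarith)
    rw [hyz, sub_add_cancel] at h
    exact h
  · intro t ht
    have h := c3 (t - a) ⟨by linarith [ht.1], by linarith [ht.2]⟩
    rw [hyz, sub_add_cancel] at h
    have e3 : T - (t - a) = a + T - t := by ring
    rw [e3] at h
    refine h.trans ?_
    cases sg
    · simp only [Bool.false_eq_true, if_false]
      exact neg_le_abs _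
    · simp only [if_true]
      exact le_abs_self _

namespace Fam

variable {μ k : ℝ} (f : Fam μ k)

theorem cont_V : Continuous fun q : ℝ × ℝ => (f.x q.1).V q.2 := by
  have h : (fun q : ℝ × ℝ => (f.x q.1).V q.2) = fun q : ℝ × ℝ =>
      ((((1 - 1 / (f.x q.1).r q.2) / (2 * μ) : ℝ) : ℂ) + (((f.x q.1).p q.2 / μ : ℝ) : ℂ) * I) - I * JJ := by
    funext q
    show (f.x q.1).Y q.2 - I * JJ = _
    congr 1
    apply Complex.ext
    · rw [Complex.add_re, Complex.ofReal_re, Complex.re_ofReal_mul, Complex.I_re, mul_zero, add_zero]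
      rfl
    · rw [Complex.add_im, Complex.ofReal_im, Complex.im_ofReal_mul, Complex.I_im, mul_one, zero_add]
      rfl
  rw [h]
  have h1 : Continuous fun q : ℝ × ℝ => 1 / (f.x q.1).r q.2 :=
    continuous_const.div f.cont_r fun q => ((f.x q.1).r_pos q.2).ne'
  have h2 : Continuous fun q : ℝ × ℝ => (1 - 1 / (f.x q.1).r q.2) / (2 * μ) :=
    (continuous_const.sub h1).div_const _
  have h3 : Continuous fun q : ℝ × ℝ => (f.x q.1).p q.2 / μ := f.cont_p.div_const _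
  exact ((Complex.continuous_ofReal.comp h2).add ((Complex.continuous_ofReal.comp h3).mul continuous_const)).sub
    continuous_const

theorem cont_ph : Continuous fun q : ℝ × ℝ => (f.x q.1).ph q.2 := by
  have h1 : Continuous fun p : (ℝ × ℝ) × ℝ => (f.x p.1.1).Om p.2 := by
    have h2 : Continuous fun p : (ℝ × ℝ) × ℝ => (f.x p.1.1).r p.2 :=
      f.cont_r.comp ((continuous_fst.comp continuous_fst).prodMk continuous_snd)
    show Continuous fun p : (ℝ × ℝ) × ℝ => 1 / (2 * (f.x p.1.1).r p.2 ^ 2)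
    refine continuous_const.div (continuous_const.mul (h2.pow 2)) fun p => ?_
    have := (f.x p.1.1).r_pos p.2
    positivity
  exact intervalIntegral.continuous_parametric_intervalIntegral_of_continuous
    (f := fun q : ℝ × ℝ => fun t => (f.x q.1).Om t) (a₀ := 0) h1 continuous_snd

theorem next_step (hμ : 0 < μ) (hμ' : μ ≤ 1 / 64) (hk : 0 < k) {R d ΦA ΦB : ℝ} (hd : 0 < d) (hR : d ≤ R)
    (hgap : 8 * Real.pi ≤ ΦA - ΦB) (hho : HOFacts μ k R d ΦA ΦB) {α β : ℝ} (hαβ : α ≤ β) {t₀ : ℝ → ℝ}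
    (h0 : ContinuousOn t₀ (Set.Icc α β)) (sg : Bool)
    (hz : ∀ s ∈ Set.Icc α β, (f.x s).z (t₀ s) = 0)
    (hw : ∀ s ∈ Set.Icc α β, 0 < (if sg then (f.x s).w (t₀ s) else -(f.x s).w (t₀ s)))
    (hr : ∀ s ∈ Set.Icc α β, Ring R d ((f.x s).V (t₀ s)))
    (he : Ends R d ((f.x α).V (t₀ α)) ((f.x β).V (t₀ β))) (e : Bool) :
    ∃ (α' β' : ℝ) (t₁ : ℝ → ℝ), α ≤ α' ∧ α' ≤ β' ∧ β' ≤ β ∧ ContinuousOn t₁ (Set.Icc α' β') ∧
      Ends R d ((f.x α').V (t₁ α')) ((f.x β').V (t₁ β')) ∧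
      ∀ s ∈ Set.Icc α' β', (f.x s).z (t₁ s) = 0 ∧
        0 < (if sg then -(f.x s).w (t₁ s) else (f.x s).w (t₁ s)) ∧
        Ring R d ((f.x s).V (t₁ s)) ∧ Half (f.x s) d ΦB e (t₀ s) (t₁ s) := by
  classical
  have hpt := fun s (hs : s ∈ Set.Icc α β) =>
    S6_point hμ hμ' hk hho (f.x s) sg (t₀ s) (hz s hs) (hw s hs) (hr s hs).hi
  choose T hT using hpt
  let t₁ : ℝ → ℝ := fun s => if hs : s ∈ Set.Icc α β then t₀ s + T s hs else 0
  have ht₁ : ∀ s (hs : s ∈ Set.Icc α β), t₁ s = t₀ s + T s hs := fun s hs => dif_pos hs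
  have hc1 : ContinuousOn t₁ (Set.Icc α β) := by
    refine next_zero_continuous (z := fun s t => if sg then (f.x s).z t else -(f.x s).z t)
      (w := fun s t => if sg then (f.x s).w t else -(f.x s).w t) (t₀ := t₀) ?_ ?_ ?_ h0 ?_
    · cases sg
      · exact f.cont_z.neg
      · exact f.cont_z
    · cases sg
      · exact f.cont_w.neg
      · exact f.cont_w
    · intro s t
      cases sg
      · exact ((f.x s).dz t).neg
      · exact (f.x s).dz t
    · intro s hs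
      obtain ⟨b1, b2, b3, b4, -⟩ := hT s hs
      rw [ht₁ s hs]
      refine ⟨?_, hw s hs, by linarith, ?_, ?_, b4⟩
      · cases sg
        · simp [hz s hs]
        · simp [hz s hs]
      · cases sg
        · simp [b2]
        · simp [b2]
      · cases sg
        · simp only [Bool.false_eq_true, if_false] at b3 ⊢
          linarith
        · simp only [if_true] at b3 ⊢
          linarith
  have hq0 : ContinuousOn (fun s => ((s, t₀ s) : ℝ × ℝ)) (Set.Icc α β) := continuousOn_id.prodMk h0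
  have hq1 : ContinuousOn (fun s => ((s, t₁ s) : ℝ × ℝ)) (Set.Icc α β) := continuousOn_id.prodMk hc1
  have hV : ContinuousOn (fun s => (f.x s).V (t₀ s)) (Set.Icc α β) := f.cont_V.comp_continuousOn hq0
  have hV' : ContinuousOn (fun s => (f.x s).V (t₁ s)) (Set.Icc α β) := f.cont_V.comp_continuousOn hq1
  have hΦ : ContinuousOn (fun s => (f.x s).ph (t₁ s) - (f.x s).ph (t₀ s)) (Set.Icc α β) :=
    (f.cont_ph.comp_continuousOn hq1).sub (f.cont_ph.comp_continuousOn hq0)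
  obtain ⟨α', β', g1, g2, g3, g4, g5⟩ := step hd hR hgap hαβ hV hV' hΦ hr he (by
      intro s hs
      have h := (hT s hs).2.2.2.2.2.2.2.1
      show ‖(f.x s).V (t₁ s) - (exp (-(I * (((f.x s).ph (t₁ s) - (f.x s).ph (t₀ s) : ℝ) : ℂ))) * (f.x s).V (t₀ s)
        - I * d)‖ ≤ d / 15
      rw [ht₁ s hs]
      exact h) (by
      intro s hs h
      have h' := (hT s hs).2.2.2.2.2.2.2.2.1 h
      show ΦA ≤ (f.x s).ph (t₁ s) - (f.x s).ph (t₀ s)
      rw [ht₁ s hs]
      exact h') (by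
      intro s hs h
      have h' := (hT s hs).2.2.2.2.2.2.2.2.2 h
      show (f.x s).ph (t₁ s) - (f.x s).ph (t₀ s) ≤ ΦB
      rw [ht₁ s hs]
      exact h') e
  have hsub : ∀ s ∈ Set.Icc α' β', s ∈ Set.Icc α β := fun s hs => ⟨g1.trans hs.1, hs.2.trans g3⟩
  refine ⟨α', β', t₁, g1, g2, g3, hc1.mono hsub, g4, ?_⟩
  intro s hs
  have hs' := hsub s hs
  obtain ⟨b1, b2, b3, b4, b5, b6, b7, -⟩ := hT s hs'
  obtain ⟨r1, r2⟩ := g5 s hs
  have e1 := ht₁ s hs'
  refine ⟨?_, ?_, r1, ?_, ?_, ?_, r2⟩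
  · rw [e1]
    exact b2
  · rw [e1]
    exact b3
  · rw [e1]
    linarith
  · rw [e1]
    linarith
  · intro t ht
    rw [e1] at ht ⊢
    exact b7 t ht

end Fam

end IsoTB
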