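import Pool.Agent.Lib.MP_3f23fb_mp.O1
import Pool.Agent.Lib.MP_3f23fb_mp.G1

/-!
# MP_3f23fb_mp, module W/T1: speed on the falling branch

Let w(ta) = 0 and 0 < z, w ≤ 0 on [ta, tc]; z_a = z(ta), so z ≤ z_a. 
(i) f(t) = w²/2 - (2+μ)/z has f' = (2+μ) w (1/z² - z/D³) ≤ 0 (z/D³ ≤ 1/z², w ≤ 0), so w² ≤ 2(2+μ)(1/z - 1/z_a).
(ii) if moreover z ≥ 3 on [ta,tc]: (1+y)^{-3/2} ≥ 1 - (3/2) y with y = r²/z² ≤ 9/(4z²) gives z/D³ ≥ 1/z² - (27/8)/z⁴ (square both sides of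
(1 - (3/2)y) D³ ≤ z³, or (1-(3/2)y)²(1+y)³ ≤ 1 for 0 ≤ y ≤ 2/3). h(t) = w²/2 - (2+μ)(1/z - (9/8)/z³) has h' = w (-(2+μ)z/D³ + (2+μ)(1/z² - (27/8)/z⁴)) ≥ 0, so
w²/2 ≥ (2+μ)((1/z - 1/z_a) - (9/8)(1/z³ - 1/z_a³)) and 1/z³ - 1/z_a³ ≤ (1/z - 1/z_a)·3/z²:  w² ≥ 2(2+μ)(1/z - 1/z_a)(1 - 27/(8z²)).
-/

set_option autoImplicit false
set_option linter.unusedVariables false

namespace IsoTB

namespace Orb

variable {μ k : ℝ} (x : Orb μ k)

private theorem T1_zz (t : ℝ) : x.z t ≤ dd (x.r t) (x.z t) :=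
  (le_abs_self _).trans (abs_le_dd_right _ _)

theorem speed_le (hμ : 0 < μ) {ta tc : ℝ} (hab : ta ≤ tc) (hwa : x.w ta = 0)
    (hz : ∀ t ∈ Set.Icc ta tc, 0 < x.z t) (hw : ∀ t ∈ Set.Icc ta tc, x.w t ≤ 0) :
    ∀ t ∈ Set.Icc ta tc, x.w t ^ 2 ≤ 2 * (2 + μ) * (1 / x.z t - 1 / x.z ta) := by
  have hd : ∀ t ∈ Set.Icc ta tc, HasDerivAt (fun s => x.w s ^ 2 / 2 - (2 + μ) * (x.z s)⁻¹)
      ((2 + μ) * (x.w t * ((x.z t ^ 2)⁻¹ - x.z t / dd (x.r t) (x.z t) ^ 3))) t := by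
    intro t ht
    have h1 := ((x.dw t).pow 2).div_const 2
    have h2 := ((x.dz t).inv (hz t ht).ne').const_mul (2 + μ)
    have h3 := h1.sub h2
    refine h3.congr_deriv ?_
    have hz0 := (hz t ht).ne'
    have hD0 := (x.D_pos t).ne'
    have hD1 : dd (x.r t) (x.z t) ≠ 0 := hD0
    simp only [Nat.cast_ofNat]
    field_simp
    ring
  have hanti : AntitoneOn (fun s => x.w s ^ 2 / 2 - (2 + μ) * (x.z s)⁻¹) (Set.Icc ta tc) := by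
    refine antitoneOn_of_deriv_nonpos (convex_Icc ta tc) ?_ ?_ ?_
    · exact fun t ht => (hd t ht).continuousAt.continuousWithinAt
    · exact fun t ht => (hd t (interior_subset ht)).differentiableAt.differentiableWithinAt
    · intro t ht
      have ht' := interior_subset ht
      rw [(hd t ht').deriv]
      have h1 := hw t ht'
      have hz0 := hz t ht'
      have hD : 0 < dd (x.r t) (x.z t) := x.D_pos t
      have h2 : x.z t / dd (x.r t) (x.z t) ^ 3 ≤ (x.z t ^ 2)⁻¹ := by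
        rw [div_le_iff₀ (by positivity), ← div_eq_inv_mul, le_div_iff₀ (by positivity)]
        have h3 := pow_le_pow_left₀ hz0.le (x.T1_zz t) 3
        calc x.z t * x.z t ^ 2 = x.z t ^ 3 := by ring
          _ ≤ dd (x.r t) (x.z t) ^ 3 := h3
      have h3 : x.w t * ((x.z t ^ 2)⁻¹ - x.z t / dd (x.r t) (x.z t) ^ 3) ≤ 0 :=
        mul_nonpos_of_nonpos_of_nonneg h1 (by linarith)
      exact mul_nonpos_of_nonneg_of_nonpos (by linarith) h3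
  intro t ht
  have h1 := hanti ⟨le_rfl, hab⟩ ht ht.1
  simp only [hwa] at h1
  rw [one_div, one_div]
  have h2 : (0 : ℝ) ^ 2 / 2 = 0 := by norm_num
  rw [h2] at h1
  nlinarith

private theorem T1_num {y : ℝ} (h0 : 0 ≤ y) (h1 : y ≤ 1 / 4) :
    (1 - 3 / 2 * y) ^ 2 * (1 + y) ^ 3 ≤ 1 := by
  have e : (1 - 3 / 2 * y) ^ 2 * (1 + y) ^ 3 = 1 - y ^ 2 * (15 / 4 + 5 / 4 * y - 15 / 4 * y ^ 2 -
      9 / 4 * y ^ 3) := by ring
  rw [e]
  have h2 : y ^ 2 ≤ 1 / 16 := by nlinarith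
  have h3 : y ^ 3 ≤ 1 / 64 := by
    have : y ^ 3 = y ^ 2 * y := by ring
    rw [this]
    nlinarith [sq_nonneg y]
  have h4 : 0 ≤ y ^ 2 * (15 / 4 + 5 / 4 * y - 15 / 4 * y ^ 2 - 9 / 4 * y ^ 3) :=
    mul_nonneg (sq_nonneg y) (by linarith)
  linarith

private theorem T1_pull {r z : ℝ} (hr0 : 0 < r) (hr : r ≤ 3 / 2) (hz : 3 ≤ z) :
    (z ^ 2)⁻¹ - 27 / 8 * (z ^ 4)⁻¹ ≤ z / dd r z ^ 3 := by
  have hz0 : 0 < z := by linarith
  have hD : 0 < dd r z := dd_pos z hr0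
  have hDsq := dd_sq r z
  set y : ℝ := 9 / (4 * z ^ 2) with hy
  have hy0 : 0 ≤ y := by positivity
  have hy1 : y ≤ 1 / 4 := by
    rw [hy, div_le_div_iff₀ (by positivity) (by norm_num)]
    nlinarith
  have h1 : dd r z ^ 2 ≤ z ^ 2 * (1 + y) := by
    rw [hDsq]
    have h2 : z ^ 2 * (1 + y) = z ^ 2 + 9 / 4 := by
      rw [hy]
      field_simp
    rw [h2]
    nlinarith
  have h2 : ((1 - 3 / 2 * y) * dd r z ^ 3) ^ 2 ≤ (z ^ 3) ^ 2 := by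
    have h3 : (dd r z ^ 2) ^ 3 ≤ (z ^ 2 * (1 + y)) ^ 3 := pow_le_pow_left₀ (by positivity) h1 3
    calc ((1 - 3 / 2 * y) * dd r z ^ 3) ^ 2 = (1 - 3 / 2 * y) ^ 2 * (dd r z ^ 2) ^ 3 := by ring
      _ ≤ (1 - 3 / 2 * y) ^ 2 * (z ^ 2 * (1 + y)) ^ 3 :=
          mul_le_mul_of_nonneg_left h3 (sq_nonneg _)
      _ = (1 - 3 / 2 * y) ^ 2 * (1 + y) ^ 3 * (z ^ 3) ^ 2 := by ring
      _ ≤ 1 * (z ^ 3) ^ 2 := mul_le_mul_of_nonneg_right (T1_num hy0 hy1) (sq_nonneg _)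
      _ = (z ^ 3) ^ 2 := one_mul _
  have h3 : (1 - 3 / 2 * y) * dd r z ^ 3 ≤ z ^ 3 :=
    (abs_le_of_sq_le_sq' h2 (by positivity)).2
  have h4 : (z ^ 2)⁻¹ - 27 / 8 * (z ^ 4)⁻¹ = (1 - 3 / 2 * y) / z ^ 2 := by
    rw [hy]
    field_simp
    ring
  rw [h4, div_le_div_iff₀ (by positivity) (by positivity)]
  calc (1 - 3 / 2 * y) * dd r z ^ 3 ≤ z ^ 3 := h3
    _ = z * z ^ 2 := by ring

theorem le_speed (hμ : 0 < μ) (hμ' : μ ≤ 1 / 64) (hk : 0 < k) {ta tc : ℝ} (hab : ta ≤ tc) (hwa : x.w ta = 0)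
    (hz : ∀ t ∈ Set.Icc ta tc, 3 ≤ x.z t) (hw : ∀ t ∈ Set.Icc ta tc, x.w t ≤ 0) :
    ∀ t ∈ Set.Icc ta tc, 2 * (2 + μ) * (1 / x.z t - 1 / x.z ta) * (1 - 27 / (8 * x.z t ^ 2)) ≤ x.w t ^ 2 := by
  have hzpos : ∀ t ∈ Set.Icc ta tc, 0 < x.z t := fun t ht => by linarith [hz t ht]
  have hd : ∀ t ∈ Set.Icc ta tc, HasDerivAt
      (fun s => x.w s ^ 2 / 2 - (2 + μ) * ((x.z s)⁻¹ - 9 / 8 * ((x.z s)⁻¹) ^ 3))
      ((2 + μ) * (x.w t * (((x.z t ^ 2)⁻¹ - 27 / 8 * (x.z t ^ 4)⁻¹) -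
        x.z t / dd (x.r t) (x.z t) ^ 3))) t := by
    intro t ht
    have h1 := ((x.dw t).pow 2).div_const 2
    have h2 : HasDerivAt (fun s => (x.z s)⁻¹) (-x.w t / x.z t ^ 2) t :=
      (x.dz t).inv (hzpos t ht).ne'
    have h3 : HasDerivAt (fun s => ((x.z s)⁻¹) ^ 3)
        (3 * ((x.z t)⁻¹) ^ 2 * (-x.w t / x.z t ^ 2)) t := by
      have h5 := h2.pow 3
      refine h5.congr_deriv ?_
      norm_num
    have h4 := h1.sub ((h2.sub (h3.const_mul (9 / 8))).const_mul (2 + μ))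
    refine h4.congr_deriv ?_
    have hz0 := (hzpos t ht).ne'
    have hD1 : dd (x.r t) (x.z t) ≠ 0 := (x.D_pos t).ne'
    simp only [Nat.cast_ofNat]
    field_simp
    ring
  have hmono : MonotoneOn
      (fun s => x.w s ^ 2 / 2 - (2 + μ) * ((x.z s)⁻¹ - 9 / 8 * ((x.z s)⁻¹) ^ 3))
      (Set.Icc ta tc) := by
    refine monotoneOn_of_deriv_nonneg (convex_Icc ta tc) ?_ ?_ ?_
    · exact fun t ht => (hd t ht).continuousAt.continuousWithinAt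
    · exact fun t ht => (hd t (interior_subset ht)).differentiableAt.differentiableWithinAt
    · intro t ht
      have ht' := interior_subset ht
      rw [(hd t ht').deriv]
      have h1 := hw t ht'
      have h2 := T1_pull (x.r_pos t) (x.r_bounds hμ hμ' hk t).2.le (hz t ht')
      have h3 : 0 ≤ x.w t * (((x.z t ^ 2)⁻¹ - 27 / 8 * (x.z t ^ 4)⁻¹) -
        x.z t / dd (x.r t) (x.z t) ^ 3) := mul_nonneg_of_nonpos_of_nonpos h1 (by linarith)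
      exact mul_nonneg (by linarith) h3
  have hzanti : AntitoneOn x.z (Set.Icc ta tc) := by
    refine antitoneOn_of_deriv_nonpos (convex_Icc ta tc) ?_ ?_ ?_
    · exact x.continuous_z.continuousOn
    · exact fun t _ => (x.dz t).differentiableAt.differentiableWithinAt
    · intro t ht
      rw [(x.dz t).deriv]
      exact hw t (interior_subset ht)
  intro t ht
  have h1 := hmono ⟨le_rfl, hab⟩ ht ht.1
  simp only [hwa] at h1
  have hta : ta ∈ Set.Icc ta tc := ⟨le_rfl, hab⟩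
  have hz1 := hzpos t ht
  have hz2 := hzpos ta hta
  have hz3 : x.z t ≤ x.z ta := hzanti hta ht ht.1
  set a : ℝ := (x.z t)⁻¹ with ha
  set b : ℝ := (x.z ta)⁻¹ with hb
  have hb0 : 0 < b := inv_pos.mpr hz2
  have hab' : b ≤ a := inv_anti₀ hz1 hz3
  have e1 : 2 * (2 + μ) * (1 / x.z t - 1 / x.z ta) * (1 - 27 / (8 * x.z t ^ 2)) =
      (2 + μ) * (2 * ((a - b) * (1 - 27 / 8 * a ^ 2))) := by
    rw [ha, hb]
    field_simp
  rw [e1]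
  have h2 : a ^ 3 - b ^ 3 ≤ (a - b) * (3 * a ^ 2) := by
    have h3 : a ^ 3 - b ^ 3 = (a - b) * (a ^ 2 + a * b + b ^ 2) := by ring
    rw [h3]
    refine mul_le_mul_of_nonneg_left ?_ (by linarith)
    have h4 : a * b ≤ a * a := mul_le_mul_of_nonneg_left hab' (by linarith)
    have h5 : b * b ≤ a * a := mul_self_le_mul_self hb0.le hab'
    nlinarith
  have h3 : (a - b) * (1 - 27 / 8 * a ^ 2) ≤ (a - 9 / 8 * a ^ 3) - (b - 9 / 8 * b ^ 3) := by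
    nlinarith
  have h4 : (2 + μ) * ((a - b) * (1 - 27 / 8 * a ^ 2)) ≤
      (2 + μ) * ((a - 9 / 8 * a ^ 3) - (b - 9 / 8 * b ^ 3)) :=
    mul_le_mul_of_nonneg_left h3 (by linarith)
  have h5 : (0 : ℝ) ^ 2 / 2 = 0 := by norm_num
  rw [h5] at h1
  nlinarith

end Orb

end IsoTB
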