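import Pool.Agent.Lib.MP_3f23fb_mp.W.T1

/-!
# MP_3f23fb_mp, module W/T2: duration of the falling branch up to an absolute constant

w(ta) = 0, w < 0 on (ta,tc], z ≥ 3 on [ta,tc], z(tc) = 3, z_a = z(ta) ≥ 6, σ = 2/z_a, u = σ z ∈ (0,2) on (ta,tc], u(ta) = 2, u(tc) = 3σ ≤ 1. 
2(1/z - 1/z_a) = σ(2-u)/u. So by speed_le |w| ≤ √(2+μ) √(σ(2-u)/u), and d/dt gg(u) = √(u/(2-u)) σ w ≥ -√(2+μ) pw σ on (ta,tc).
(lower) gg(σ z) + √(2+μ) pw σ t is monotone on [ta,tc] (continuous, derivative ≥ 0 inside): π - gg(3σ) ≤ √(2+μ) pw σ (tc - ta). gg u ≤ (2/3) pw u·... for u ≤ 1: gg' = √(u/(2-u)) ≤ √u, so gg u ≤ (2/3) u√u ≤ pw u;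
gg(3σ) ≤ pw(3σ) = pw 3 pw σ ≤ 5.2 pw σ. So tc - ta ≥ π/(√(2+μ) pw σ) - 5.2/√2 ≥ ... - 4.
(upper) |w| ≥ √(2+μ) √(σ(2-u)/u) √(1 - 27/(8z²)) ≥ √(2+μ) √(σ(2-u)/u) (1 - 27/(8z²)); -w' = (2+μ) z/D³ ≥ 1.4/z² (D² ≤ z² + 9/4 ≤ (5/4) z² for z ≥ 3, (5/4)^{3/2} ≤ 1.4).
Ψ(t) = gg(σ z) + √(2+μ) pw σ (t + (5/2) w) has derivative ≤ √(2+μ) pw σ (-(1 - 27/(8z²)) + 1 - (5/2)(1.4)/z²) = √(2+μ) pw σ (3.375 - 3.5)/z² ≤ 0; Ψ(tc) ≤ Ψ(ta):
√(2+μ) pw σ (tc - ta + (5/2) w(tc)) ≤ π, and |w(tc)| ≤ 5/2: tc - ta ≤ π/(√(2+μ) pw σ) + 25/4.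
-/

set_option autoImplicit false
set_option linter.unusedVariables false

namespace IsoTB

private theorem mono_aux {f f' : ℝ → ℝ} {a b : ℝ} (hab : a ≤ b)
    (hc : ContinuousOn f (Set.Icc a b)) (hd : ∀ t ∈ Set.Ioo a b, HasDerivAt f (f' t) t)
    (h0 : ∀ t ∈ Set.Ioo a b, 0 ≤ f' t) : f a ≤ f b := by
  have h : MonotoneOn f (Set.Icc a b) := by
    refine monotoneOn_of_deriv_nonneg (convex_Icc a b) hc ?_ ?_
    · intro t ht
      rw [interior_Icc] at ht
      exact (hd t ht).differentiableAt.differentiableWithinAt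
    · intro t ht
      rw [interior_Icc] at ht
      rw [(hd t ht).deriv]
      exact h0 t ht
  exact h (Set.left_mem_Icc.2 hab) (Set.right_mem_Icc.2 hab) hab

private theorem pw_deriv {u : ℝ} (h0 : 0 < u) : HasDerivAt pw (3 / 2 * √u) u := by
  have h1 : HasDerivAt (fun y : ℝ => y * √y) (1 * √u + u * (1 / (2 * √u))) u :=
    (hasDerivAt_id u).mul (Real.hasDerivAt_sqrt h0.ne')
  have h2 : 1 * √u + u * (1 / (2 * √u)) = 3 / 2 * √u := by
    have a1 : 0 < √u := Real.sqrt_pos.2 h0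
    have a3 : √u * √u = u := Real.mul_self_sqrt h0.le
    field_simp
    nlinarith
  rw [h2] at h1
  exact h1

theorem gg_le_pw {u : ℝ} (h0 : 0 ≤ u) (h1 : u ≤ 1) : gg u ≤ pw u := by
  have h := mono_aux (f := fun v => pw v - gg v) (f' := fun v => 3 / 2 * √v - √(v / (2 - v))) h0
    ((continuous_pw.sub continuous_gg).continuousOn) (by
      intro t ht
      exact (pw_deriv ht.1).sub (gg_deriv ht.1 (by linarith [ht.2]))) (by
      intro t ht
      have h2 : t / (2 - t) ≤ t := by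
        have h3 : 0 < 2 - t := by linarith [ht.2]
        rw [div_le_iff₀ h3]
        nlinarith [ht.1, ht.2]
      have h3 := Real.sqrt_le_sqrt h2
      have h4 := Real.sqrt_nonneg t
      linarith)
  have h2 : pw 0 - gg 0 = 0 := by simp [gg_zero, pw]
  linarith

namespace Orb

variable {μ k : ℝ} (x : Orb μ k)

private theorem T2_sq (hμ : 0 < μ) {σ u : ℝ} (hσ : 0 < σ) (hu : 0 < u) (hu2 : u < 2) (w : ℝ) :
    (√(u / (2 - u)) * (σ * w)) ^ 2 = u / (2 - u) * σ ^ 2 * w ^ 2 ∧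
      (√(2 + μ) * pw σ) ^ 2 = (2 + μ) * σ ^ 3 := by
  have h2 : 0 < 2 - u := by linarith
  constructor
  · rw [mul_pow, Real.sq_sqrt (by positivity)]; ring
  · rw [mul_pow, Real.sq_sqrt (by linarith), pw_sq hσ.le]

theorem fall_time (hμ : 0 < μ) (hμ' : μ ≤ 1 / 64) (hk : 0 < k) {ta tc : ℝ} (hab : ta ≤ tc) (hwa : x.w ta = 0)
    (hw : ∀ t, ta < t → t ≤ tc → x.w t < 0) (hz : ∀ t ∈ Set.Icc ta tc, 3 ≤ x.z t) (hc : x.z tc = 3) (ha : 6 ≤ x.z ta) :
    |tc - ta - Real.pi / (√(2 + μ) * pw (2 / x.z ta))| ≤ 7 := by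
  have hza : 0 < x.z ta := by linarith
  obtain ⟨σ, hσ⟩ : ∃ σ, σ = 2 / x.z ta := ⟨_, rfl⟩
  rw [← hσ]
  have hσ0 : 0 < σ := by rw [hσ]; positivity
  have hσza : σ * x.z ta = 2 := by rw [hσ]; field_simp
  have hσ3 : 3 * σ ≤ 1 := by nlinarith
  have hw' : ∀ t ∈ Set.Icc ta tc, x.w t ≤ 0 := by
    intro t ht
    rcases eq_or_lt_of_le ht.1 with h | h
    · rw [← h, hwa]
    · exact (hw t h ht.2).le
  have hz0 : ∀ t ∈ Set.Icc ta tc, 0 < x.z t := fun t ht => by linarith [hz t ht]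
  -- z is below its value at the apex
  have hzlt : ∀ t ∈ Set.Ioo ta tc, x.z t < x.z ta := by
    intro t ht
    have hanti : StrictAntiOn x.z (Set.Icc ta tc) := by
      refine strictAntiOn_of_deriv_neg (convex_Icc ta tc) x.continuous_z.continuousOn ?_
      intro s hs
      rw [interior_Icc] at hs
      rw [(x.dz s).deriv]
      exact hw s hs.1 hs.2.le
    exact hanti (Set.left_mem_Icc.2 hab) ⟨ht.1.le, ht.2.le⟩ ht.1
  have hu0 : ∀ t ∈ Set.Ioo ta tc, 0 < σ * x.z t := fun t ht =>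
    mul_pos hσ0 (hz0 t ⟨ht.1.le, ht.2.le⟩)
  have hu2 : ∀ t ∈ Set.Ioo ta tc, σ * x.z t < 2 := fun t ht => by
    rw [← hσza]; exact mul_lt_mul_of_pos_left (hzlt t ht) hσ0
  have hrel : ∀ t ∈ Set.Ioo ta tc, 2 * (1 / x.z t - 1 / x.z ta) =
      σ * (2 - σ * x.z t) / (σ * x.z t) := by
    intro t ht
    have h1 := hz0 t ⟨ht.1.le, ht.2.le⟩
    rw [hσ]
    field_simp
  have hs1 := x.speed_le hμ hab hwa hz0 hw'
  have hs2 := x.le_speed hμ hμ' hk hab hwa hz hw'
  obtain ⟨c, hcd⟩ : ∃ c, c = √(2 + μ) * pw σ := ⟨_, rfl⟩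
  have hsq2 : 1.4 ≤ √(2 + μ) := by
    apply Real.le_sqrt_of_sq_le
    norm_num
    linarith
  have hpw : 0 < pw σ := pw_pos hσ0
  have hc0 : 0 < c := by rw [hcd]; positivity
  rw [← hcd]
  have hcc : Continuous fun t => gg (σ * x.z t) :=
    continuous_gg.comp (continuous_const.mul x.continuous_z)
  have hder : ∀ t ∈ Set.Ioo ta tc, HasDerivAt (fun t => gg (σ * x.z t))
      (√(σ * x.z t / (2 - σ * x.z t)) * (σ * x.w t)) t := by
    intro t ht
    exact (gg_deriv (hu0 t ht) (hu2 t ht)).comp t ((x.dz t).const_mul σ)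
  -- lower bound
  have hlow : gg (σ * x.z ta) + c * ta ≤ gg (σ * x.z tc) + c * tc := by
    refine mono_aux (f := fun t => gg (σ * x.z t) + c * t)
      (f' := fun t => √(σ * x.z t / (2 - σ * x.z t)) * (σ * x.w t) + c) hab
      (hcc.add (continuous_const.mul continuous_id)).continuousOn ?_ ?_
    · intro t ht
      have h1 : HasDerivAt (fun t : ℝ => c * t) c t := by
        simpa using (hasDerivAt_id t).const_mul c
      exact (hder t ht).add h1
    · intro t ht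
      have ht' : t ∈ Set.Icc ta tc := ⟨ht.1.le, ht.2.le⟩
      obtain ⟨e1, e2⟩ := T2_sq hμ hσ0 (hu0 t ht) (hu2 t ht) (x.w t)
      have h1 := hs1 t ht'
      have h2 := hu0 t ht
      have h3 := hu2 t ht
      have h4 : (√(σ * x.z t / (2 - σ * x.z t)) * (σ * x.w t)) ^ 2 ≤ c ^ 2 := by
        rw [hcd, e1, e2]
        have h5 : 2 * (2 + μ) * (1 / x.z t - 1 / x.z ta) =
            (2 + μ) * (σ * (2 - σ * x.z t) / (σ * x.z t)) := by
          rw [← hrel t ht]; ring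
        rw [h5] at h1
        have h6 : 0 < 2 - σ * x.z t := by linarith
        calc σ * x.z t / (2 - σ * x.z t) * σ ^ 2 * x.w t ^ 2
            ≤ σ * x.z t / (2 - σ * x.z t) * σ ^ 2 *
              ((2 + μ) * (σ * (2 - σ * x.z t) / (σ * x.z t))) :=
              mul_le_mul_of_nonneg_left h1 (by positivity)
          _ = (2 + μ) * σ ^ 3 := by
              generalize σ * x.z t = u at h2 h3 h6
              field_simp
      have h7 := abs_le_of_sq_le_sq h4 hc0.le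
      have h8 := neg_abs_le (√(σ * x.z t / (2 - σ * x.z t)) * (σ * x.w t))
      linarith
  -- upper bound
  have hup : gg (σ * x.z tc) + c * (tc + 5 / 2 * x.w tc) ≤
      gg (σ * x.z ta) + c * (ta + 5 / 2 * x.w ta) := by
    have h := mono_aux (f := fun t => -(gg (σ * x.z t) + c * (t + 5 / 2 * x.w t)))
      (f' := fun t => -(√(σ * x.z t / (2 - σ * x.z t)) * (σ * x.w t) +
        c * (1 + 5 / 2 * (-((2 + μ) * (x.z t / dd (x.r t) (x.z t) ^ 3)))))) hab
      ((hcc.add (continuous_const.mul (continuous_id.add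
        (continuous_const.mul x.continuous_w)))).neg).continuousOn (by
      intro t ht
      have h1 : HasDerivAt (fun t : ℝ => t + 5 / 2 * x.w t)
          (1 + 5 / 2 * (-((2 + μ) * (x.z t / dd (x.r t) (x.z t) ^ 3)))) t :=
        (hasDerivAt_id t).add ((x.dw t).const_mul (5 / 2))
      exact ((hder t ht).add (h1.const_mul c)).neg) (by
      intro t ht
      have ht' : t ∈ Set.Icc ta tc := ⟨ht.1.le, ht.2.le⟩
      obtain ⟨e1, e2⟩ := T2_sq hμ hσ0 (hu0 t ht) (hu2 t ht) (x.w t)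
      have h1 := hs2 t ht'
      have h2 := hu0 t ht
      have h3 := hu2 t ht
      have hzt := hz t ht'
      have hzp : 0 < x.z t := by linarith
      have h6 : 0 < 2 - σ * x.z t := by linarith
      obtain ⟨q, hq⟩ : ∃ q, q = 1 - 27 / (8 * x.z t ^ 2) := ⟨_, rfl⟩
      rw [← hq] at h1
      have hq1 : q ≤ 1 := by
        rw [hq]
        have : 0 < 27 / (8 * x.z t ^ 2) := by positivity
        linarith
      have hq0 : 0 ≤ q := by
        rw [hq, sub_nonneg, div_le_one (by positivity)]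
        nlinarith
      have h4 : (c * q) ^ 2 ≤ (√(σ * x.z t / (2 - σ * x.z t)) * (σ * x.w t)) ^ 2 := by
        rw [mul_pow, hcd, e1, e2]
        have h5 : 2 * (2 + μ) * (1 / x.z t - 1 / x.z ta) =
            (2 + μ) * (σ * (2 - σ * x.z t) / (σ * x.z t)) := by
          rw [← hrel t ht]; ring
        rw [h5] at h1
        have h7 : q ^ 2 ≤ q := by nlinarith
        calc (2 + μ) * σ ^ 3 * q ^ 2 ≤ (2 + μ) * σ ^ 3 * q :=
              mul_le_mul_of_nonneg_left h7 (by positivity)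
          _ = σ * x.z t / (2 - σ * x.z t) * σ ^ 2 *
              ((2 + μ) * (σ * (2 - σ * x.z t) / (σ * x.z t)) * q) := by
              generalize σ * x.z t = u at h2 h3 h6
              field_simp
          _ ≤ σ * x.z t / (2 - σ * x.z t) * σ ^ 2 * x.w t ^ 2 :=
              mul_le_mul_of_nonneg_left h1 (by positivity)
      have h7 : |c * q| ≤ |√(σ * x.z t / (2 - σ * x.z t)) * (σ * x.w t)| :=
        sq_le_sq.1 h4
      have hwt := hw' t ht'
      have h8 : √(σ * x.z t / (2 - σ * x.z t)) * (σ * x.w t) ≤ 0 :=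
        mul_nonpos_of_nonneg_of_nonpos (Real.sqrt_nonneg _)
          (mul_nonpos_of_nonneg_of_nonpos hσ0.le hwt)
      rw [abs_of_nonneg (by positivity), abs_of_nonpos h8] at h7
      -- the acceleration
      have hr := x.r_pos t
      have hrb := (x.r_bounds hμ hμ' hk t).2
      have hD := dd_pos (x.z t) hr
      have hD2 := dd_sq (x.r t) (x.z t)
      have hD3 : dd (x.r t) (x.z t) ^ 3 ≤ 1.4 * x.z t ^ 3 := by
        have a1 : dd (x.r t) (x.z t) ^ 2 ≤ 5 / 4 * x.z t ^ 2 := by rw [hD2]; nlinarith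
        have a2 : (dd (x.r t) (x.z t) ^ 3) ^ 2 ≤ (1.4 * x.z t ^ 3) ^ 2 := by
          have a3 : (dd (x.r t) (x.z t) ^ 3) ^ 2 = (dd (x.r t) (x.z t) ^ 2) ^ 3 := by ring
          rw [a3]
          refine (pow_le_pow_left₀ (by positivity) a1 3).trans ?_
          have a4 : (5 / 4 * x.z t ^ 2) ^ 3 = 125 / 64 * (x.z t ^ 3) ^ 2 := by ring
          have a5 : (1.4 * x.z t ^ 3) ^ 2 = 1.96 * (x.z t ^ 3) ^ 2 := by ring
          rw [a4, a5]
          have a6 : 0 ≤ (x.z t ^ 3) ^ 2 := by positivity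
          nlinarith
        have a7 := abs_le_of_sq_le_sq a2 (by positivity)
        rwa [abs_of_pos (by positivity)] at a7
      have hacc : 1.4 / x.z t ^ 2 ≤ (2 + μ) * (x.z t / dd (x.r t) (x.z t) ^ 3) := by
        have a1 : x.z t / (1.4 * x.z t ^ 3) ≤ x.z t / dd (x.r t) (x.z t) ^ 3 :=
          div_le_div_of_nonneg_left hzp.le (by positivity) hD3
        have a2 : x.z t / (1.4 * x.z t ^ 3) = 1 / 1.4 * (1 / x.z t ^ 2) := by
          field_simp
        rw [a2] at a1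
        have a3 : 0 < 1 / x.z t ^ 2 := by positivity
        have a4 : 0 ≤ x.z t / dd (x.r t) (x.z t) ^ 3 := by positivity
        have a5 : 1.4 / x.z t ^ 2 = 1.4 * (1 / x.z t ^ 2) := by ring
        rw [a5]
        have a6 : 2 * (x.z t / dd (x.r t) (x.z t) ^ 3) ≤
            (2 + μ) * (x.z t / dd (x.r t) (x.z t) ^ 3) := by nlinarith
        have a7 : (1.4 : ℝ) * (1 / x.z t ^ 2) ≤ 2 * (1 / 1.4 * (1 / x.z t ^ 2)) := by
          have a8 : (1.4 : ℝ) ≤ 2 * (1 / 1.4) := by norm_num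
          nlinarith
        linarith
      have hfin : 1 + 5 / 2 * (-((2 + μ) * (x.z t / dd (x.r t) (x.z t) ^ 3))) ≤ q := by
        rw [hq]
        have a1 : 27 / (8 * x.z t ^ 2) ≤ 5 / 2 * (1.4 / x.z t ^ 2) := by
          have a2 : 27 / (8 * x.z t ^ 2) = 27 / 8 * (1 / x.z t ^ 2) := by field_simp
          have a3 : 5 / 2 * (1.4 / x.z t ^ 2) = 3.5 * (1 / x.z t ^ 2) := by ring
          rw [a2, a3]
          have a4 : 0 < 1 / x.z t ^ 2 := by positivity
          nlinarith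
        linarith
      have h9 := mul_le_mul_of_nonneg_left hfin hc0.le
      linarith)
    linarith
  rw [hσza, gg_two, hc, mul_comm σ 3] at hlow
  rw [hσza, gg_two, hc, hwa, mul_comm σ 3] at hup
  have hg0 : 0 ≤ gg (3 * σ) := gg_nonneg (by positivity) (by linarith)
  have hg1 : gg (3 * σ) ≤ pw 3 * pw σ := by
    rw [← pw_mul (by norm_num) hσ0.le]
    exact gg_le_pw (by positivity) hσ3
  have hpw3 : pw 3 ≤ 5.2 := by
    unfold pw
    have : √3 ≤ 1.7321 := by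
      rw [Real.sqrt_le_left (by norm_num)]
      norm_num
    linarith
  have hg2 : gg (3 * σ) ≤ 7 * c := by
    rw [hcd]
    have a1 : pw 3 * pw σ ≤ 5.2 * pw σ := mul_le_mul_of_nonneg_right hpw3 hpw.le
    have a2 : 1.4 * pw σ ≤ √(2 + μ) * pw σ := mul_le_mul_of_nonneg_right hsq2 hpw.le
    linarith
  have hwc := (abs_le.1 (x.abs_w_le hμ hμ' hk tc)).1
  have hpi : Real.pi / c * c = Real.pi := div_mul_cancel₀ _ hc0.ne'
  rw [abs_le]
  constructor
  · -- lower
    by_contra hlt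
    push Not at hlt
    have h1 : (tc - ta - Real.pi / c) * c < -7 * c := mul_lt_mul_of_pos_right hlt hc0
    nlinarith
  · by_contra hlt
    push Not at hlt
    have h1 : 7 * c < (tc - ta - Real.pi / c) * c := mul_lt_mul_of_pos_right hlt hc0
    have h2 : -(5 / 2) * c ≤ x.w tc * c := mul_le_mul_of_nonneg_right hwc hc0.le
    nlinarith

end Orb

end IsoTB
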