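import Pool.Agent.Lib.MP_3f23fb_mp.W.T2
import Pool.Agent.Lib.MP_3f23fb_mp.W.O6

/-!
# MP_3f23fb_mp, module W/T3: the time law with an absolute error

Assume μ ≤ 1/5000 and μ(‖Y(0)‖²+k) ≤ 1/5000. cross: ‖Y‖ ≤ ‖Y(0)‖ + 9 on [0,t₁], so μ(‖Y‖²+k) ≤ 2μ‖Y(0)‖² + 162μ + μk ≤ 164/5000 ≤ 1/30 on [0,t₁].
Apex ta (exists_apex): D_a = 2/(μ(‖Y(ta)‖²+k)) ≥ 60, z_a ≥ D_a - 3/2 ≥ 58 (dd_le_add).
Falling branch: tc = the time in [ta,t₁] with z(tc) = 3 (intermediate value, z strictly decreasing there); z ≥ 3 on [ta,tc]. fall_time: |tc - ta - π/(√(2+μ) pw(2/z_a))| ≤ 7. On [tc,t₁] 0 ≤ z ≤ 3: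
D² ≤ 9 + 9/4, D ≤ 3.36, w² = (2+μ)(2/D - μ(‖Y‖²+k)) ≥ 2(0.59 - 0.04) ≥ 1, so w ≤ -1 and t₁ - tc ≤ 3. Rising branch: the same for x.rev t₁ (IsRet.rev, apex t₁ - ta, same z_a; use the norm bounds of x at the
reflected times, Y_rev; note that the argument only needs μ(‖Y‖²+k) ≤ 1/30 on [0,t₁], not the hypothesis at time 0). So |t₁ - 2π/(√(2+μ) pw(2/z_a))| ≤ 20.
Replace 2/z_a by 2/D_a = μ(‖Y(ta)‖²+k): 1/pw(2/z) = pw(z/2); 0 ≤ pw(D_a/2) - pw(z_a/2) ≤ (3/2)√(D_a/2)(D_a - z_a)/2 and D_a - z_a = r²/(D_a+z_a) ≤ (9/4)/D_a, so the difference is ≤ 1; times 2π/√2 ≤ 4.5.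
-/

set_option autoImplicit false
set_option linter.unusedVariables false

namespace IsoTB

private theorem T3_half {μ k : ℝ} (hμ : 0 < μ) (hμ' : μ ≤ 1 / 64) (hk : 0 < k) (x : Orb μ k)
    {t₁ ta : ℝ} (h : x.IsRet t₁) (hta0 : 0 < ta) (hta : ta < t₁) (hwa : x.w ta = 0)
    (hw : ∀ t, ta < t → t ≤ t₁ → x.w t < 0)
    (hY : ∀ t ∈ Set.Icc 0 t₁, μ * (‖x.Y t‖ ^ 2 + k) ≤ 1 / 30) (hza : 58 ≤ x.z ta) :
    |t₁ - ta - Real.pi / (√(2 + μ) * pw (2 / x.z ta))| ≤ 10 := by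
  have hanti : AntitoneOn x.z (Set.Icc ta t₁) := by
    refine antitoneOn_of_deriv_nonpos (convex_Icc ta t₁) x.continuous_z.continuousOn ?_ ?_
    · intro t _
      exact (x.dz t).differentiableAt.differentiableWithinAt
    · intro t ht
      rw [interior_Icc] at ht
      rw [(x.dz t).deriv]
      exact (hw t ht.1 ht.2.le).le
  have hi : (3 : ℝ) ∈ Set.Icc (x.z t₁) (x.z ta) := by
    rw [h.z1]
    exact ⟨by norm_num, by linarith⟩
  obtain ⟨tc, htc, hc⟩ := intermediate_value_Icc' hta.le x.continuous_z.continuousOn hi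
  have hfall := x.fall_time hμ hμ' hk htc.1 hwa (fun t h1 h2 => hw t h1 (h2.trans htc.2))
    (fun t ht => by
      rw [← hc]
      exact hanti ⟨ht.1, ht.2.trans htc.2⟩ htc ht.2) hc (by linarith)
  have hlt : ta < tc := by
    rcases eq_or_lt_of_le htc.1 with h1 | h1
    · rw [← h1] at hc
      linarith
    · exact h1
  have hw1 : ∀ t ∈ Set.Icc tc t₁, x.w t ≤ -1 := by
    intro t ht
    have h1 := hw t (by linarith [ht.1]) ht.2
    have h2 := x.w_sq hμ t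
    have h3 := hY t ⟨by linarith [ht.1], ht.2⟩
    have hz3 : x.z t ≤ 3 := by
      rw [← hc]
      exact hanti htc ⟨by linarith [ht.1], ht.2⟩ ht.1
    have hz0 : 0 ≤ x.z t := by
      rcases eq_or_lt_of_le ht.2 with h4 | h4
      · rw [h4, h.z1]
      · exact (h.zpos t (by linarith [ht.1]) h4).le
    have hr := x.r_pos t
    have hrb := (x.r_bounds hμ hμ' hk t).2
    have hD := x.D_pos t
    have hD2 : x.D t ^ 2 = x.r t ^ 2 + x.z t ^ 2 := dd_sq (x.r t) (x.z t)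
    have hD3 : x.D t ≤ 3.36 := by
      by_contra hcon
      push Not at hcon
      nlinarith
    have h5 : 0.59 ≤ 2 / x.D t := by
      rw [le_div_iff₀ hD]
      nlinarith
    have h6 : 1 ≤ x.w t ^ 2 := by
      rw [h2]
      nlinarith
    by_contra hcon
    push Not at hcon
    nlinarith
  have h3 : x.z t₁ - x.z tc ≤ (-1) * (t₁ - tc) :=
    (convex_Icc tc t₁).image_sub_le_mul_sub_of_deriv_le x.continuous_z.continuousOn
      (fun t _ => (x.dz t).differentiableAt.differentiableWithinAt)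
      (fun t ht => by rw [(x.dz t).deriv]; exact hw1 t (interior_subset ht))
      tc (Set.left_mem_Icc.2 htc.2) t₁ (Set.right_mem_Icc.2 htc.2) htc.2
  rw [h.z1, hc] at h3
  have h4 : t₁ - tc ≤ 3 := by linarith
  have h5 : 0 ≤ t₁ - tc := by linarith [htc.2]
  rw [abs_le] at hfall ⊢
  constructor
  · linarith [hfall.1]
  · linarith [hfall.2]

private theorem T3_pw {a b : ℝ} (ha : 0 < a) (hab : a ≤ b) (hb : 1 ≤ b)
    (h : b * (b - a) ≤ 9 / 16) : 0 ≤ pw b - pw a ∧ pw b - pw a ≤ 1 := by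
  have h0 := pw_mono ha.le hab
  refine ⟨by linarith, ?_⟩
  have hb0 : 0 < b := by linarith
  have e1 : √a * √a = a := Real.mul_self_sqrt ha.le
  have e2 : √b * √b = b := Real.mul_self_sqrt hb0.le
  have e3 : √a ≤ √b := Real.sqrt_le_sqrt hab
  have e4 : 0 ≤ √a := Real.sqrt_nonneg _
  have e5 : √b ≤ b := by
    rw [Real.sqrt_le_left hb0.le]
    nlinarith
  have h1 : pw b - pw a ≤ 3 / 2 * √b * (b - a) := by
    unfold pw
    generalize √a = α at *
    generalize √b = β at *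
    rw [← e1, ← e2]
    nlinarith [mul_nonneg (mul_nonneg (sub_nonneg.2 e3) (sub_nonneg.2 e3))
      (by linarith : (0 : ℝ) ≤ β + 2 * α)]
  have h2 : √b * (b - a) ≤ b * (b - a) := mul_le_mul_of_nonneg_right e5 (by linarith)
  nlinarith

private theorem T3_inv {y : ℝ} (hy : 0 < y) : 1 / pw (2 / y) = pw (y / 2) := by
  have h1 : pw (2 / y) * pw (y / 2) = 1 := by
    rw [← pw_mul (by positivity) (by positivity)]
    have : 2 / y * (y / 2) = 1 := by field_simp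
    rw [this]
    simp [pw]
  have h2 : 0 < pw (2 / y) := pw_pos (by positivity)
  rw [eq_comm, eq_div_iff h2.ne', mul_comm]
  exact h1

theorem time_law {μ k : ℝ} (hμ : 0 < μ) (hμ₀ : μ ≤ 1 / 5000) (hk : 0 < k) (x : Orb μ k) {t₁ : ℝ} (h : x.IsRet t₁)
    (hY : μ * (‖x.Y 0‖ ^ 2 + k) ≤ 1 / 5000) :
    ∃ ta, 0 < ta ∧ ta < t₁ ∧ x.w ta = 0 ∧
      |t₁ - 2 * Real.pi / (√(2 + μ) * pw (μ * (‖x.Y ta‖ ^ 2 + k)))| ≤ 40 := by
  have hμ' : μ ≤ 1 / 64 := by linarith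
  obtain ⟨hcr, -, -⟩ := cross hμ (by linarith) hk x h (by linarith)
  have hYb : ∀ t ∈ Set.Icc 0 t₁, μ * (‖x.Y t‖ ^ 2 + k) ≤ 1 / 30 := by
    intro t ht
    have h1 := hcr t ht
    have h2 : ‖x.Y t‖ ^ 2 ≤ 2 * ‖x.Y 0‖ ^ 2 + 162 := by
      have h3 := norm_nonneg (x.Y t)
      have h4 := norm_nonneg (x.Y 0)
      nlinarith [sq_nonneg (‖x.Y 0‖ - 9)]
    have h3 : μ * (‖x.Y t‖ ^ 2 + k) ≤ μ * (2 * ‖x.Y 0‖ ^ 2 + 162 + k) :=
      mul_le_mul_of_nonneg_left (by linarith) hμ.le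
    have h4 : 0 < μ * k := by positivity
    nlinarith
  obtain ⟨ta, hta0, hta1, hwa, hwp, hwm⟩ := h.exists_apex hμ
  have hza0 : 0 < x.z ta := h.zpos ta hta0 hta1
  have hD := x.D_pos ta
  have hr := x.r_pos ta
  have hrb := (x.r_bounds hμ hμ' hk ta).2
  have hs : μ * (‖x.Y ta‖ ^ 2 + k) = 2 / x.D ta := by
    have h1 := x.w_sq hμ ta
    rw [hwa] at h1
    have h2 : (2 + μ) * (2 / x.D ta - μ * (‖x.Y ta‖ ^ 2 + k)) = 0 := by rw [← h1]; ring
    have h3 := (mul_eq_zero.1 h2).resolve_left (by positivity)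
    linarith
  have hD60 : 60 ≤ x.D ta := by
    have h1 := hYb ta ⟨hta0.le, hta1.le⟩
    rw [hs, div_le_iff₀ hD] at h1
    linarith
  have hDz : x.D ta ≤ x.r ta + |x.z ta| := dd_le_add (x.z ta) hr
  rw [abs_of_pos hza0] at hDz
  have hz58 : 58 ≤ x.z ta := by linarith
  have hfallx := T3_half hμ hμ' hk x h hta0 hta1 hwa hwm hYb hz58
  have hrisex := T3_half hμ hμ' hk (x.rev t₁) h.rev (ta := t₁ - ta) (by linarith) (by linarith)
    (by
      change -x.w (t₁ - (t₁ - ta)) = 0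
      rw [sub_sub_cancel, hwa, neg_zero])
    (by
      intro t h1 h2
      change -x.w (t₁ - t) < 0
      have := hwp (t₁ - t) (by linarith) (by linarith)
      linarith)
    (by
      intro t ht
      rw [x.Y_rev, RCLike.norm_conj]
      exact hYb (t₁ - t) ⟨by linarith [ht.2], by linarith [ht.1]⟩)
    (by
      change 58 ≤ x.z (t₁ - (t₁ - ta))
      rw [sub_sub_cancel]
      exact hz58)
  have hzr : (x.rev t₁).z (t₁ - ta) = x.z ta := by
    change x.z (t₁ - (t₁ - ta)) = x.z ta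
    rw [sub_sub_cancel]
  rw [hzr, sub_sub_cancel] at hrisex
  refine ⟨ta, hta0, hta1, hwa, ?_⟩
  rw [hs]
  have hsq2 : 1.4 ≤ √(2 + μ) := by
    apply Real.le_sqrt_of_sq_le
    norm_num
    linarith
  have hsq0 : 0 < √(2 + μ) := by linarith
  have hD2 : x.D ta ^ 2 = x.r ta ^ 2 + x.z ta ^ 2 := dd_sq (x.r ta) (x.z ta)
  have hzD : x.z ta ≤ x.D ta := (le_abs_self _).trans (abs_le_dd_right (x.r ta) (x.z ta))
  obtain ⟨hp0, hp1⟩ := T3_pw (a := x.z ta / 2) (b := x.D ta / 2) (by positivity) (by linarith)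
    (by linarith) (by nlinarith)
  have e1 : Real.pi / (√(2 + μ) * pw (2 / x.z ta)) = Real.pi / √(2 + μ) * pw (x.z ta / 2) := by
    rw [← T3_inv hza0]
    have := pw_pos (show 0 < 2 / x.z ta by positivity)
    field_simp
  have e2 : 2 * Real.pi / (√(2 + μ) * pw (2 / x.D ta)) =
      2 * (Real.pi / √(2 + μ) * pw (x.D ta / 2)) := by
    rw [← T3_inv hD]
    have := pw_pos (show 0 < 2 / x.D ta by positivity)
    field_simp
  rw [e1] at hfallx hrisex
  rw [e2]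
  have hpi : Real.pi / √(2 + μ) ≤ 2.25 := by
    rw [div_le_iff₀ hsq0]
    have := Real.pi_lt_d2
    linarith
  have hpi0 : 0 < Real.pi / √(2 + μ) := by positivity
  have h9 : Real.pi / √(2 + μ) * (pw (x.D ta / 2) - pw (x.z ta / 2)) ≤ 2.25 := by
    nlinarith
  have h10 : 0 ≤ Real.pi / √(2 + μ) * (pw (x.D ta / 2) - pw (x.z ta / 2)) := by positivity
  rw [mul_sub] at h9 h10
  rw [abs_le] at hfallx hrisex ⊢
  constructor
  · linarith [hfallx.1, hrisex.1]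
  · linarith [hfallx.2, hrisex.2]

end IsoTB
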