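import Pool.Agent.Lib.MP_3f23fb_mp.W.N3
import Pool.Agent.Lib.MP_3f23fb_mp.W.T3

/-!
# MP_3f23fb_mp, module W/T4: the phase in terms of ‖V(0)‖

Let τ, δ₀ be from scatter ε; assume μ, μ(‖Y(0)‖²+k) ≤ min δ₀ (1/5000). The apex ta of time_law lies in [τ, t₁-τ] (signs of w in scatter), so |‖Y(ta)‖ - ‖V(0)‖| ≤ ε. Write v = ‖V(0)‖, T(s) = 2π/(√(2+μ) pw(μ s)), antitone in s.
If v ≥ ε: T((v+ε)²+k) - 40 ≤ t₁ ≤ T((v-ε)²+k) + 40. ph t₁ = ∫_0^{t₁} Ω, |Ω - 1/2| ≤ (5/2) μ ‖Y‖ ≤ (5/2) μ (‖Y(0)‖+9), ‖Y(0)‖ ≤ v + 2: with η = 5μ(v+11) (so |ph t₁ - t₁/2| ≤ η t₁/2) and η ≤ 1: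
(1-η)(T((v+ε)²+k) - 40)/2 ≤ ph t₁ ≤ (1+η)(T((v-ε)²+k) + 40)/2.
-/

set_option autoImplicit false
set_option linter.unusedVariables false

open Complex

namespace IsoTB

/-- The Kepler return time. -/
noncomputable def TT (μ s : ℝ) : ℝ := 2 * Real.pi / (√(2 + μ) * pw (μ * s))

private theorem TT_anti {μ s s' : ℝ} (hμ : 0 < μ) (hs : 0 < s) (h : s ≤ s') :
    TT μ s' ≤ TT μ s := by
  unfold TT
  have h1 : 0 < √(2 + μ) := Real.sqrt_pos.2 (by linarith)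
  have h2 : 0 < pw (μ * s) := pw_pos (mul_pos hμ hs)
  have h3 : pw (μ * s) ≤ pw (μ * s') :=
    pw_mono (mul_pos hμ hs).le (mul_le_mul_of_nonneg_left h hμ.le)
  exact div_le_div_of_nonneg_left (by positivity) (mul_pos h1 h2)
    (mul_le_mul_of_nonneg_left h3 h1.le)

theorem phase_law (ε : ℝ) (hε : 0 < ε) : ∃ δ₀ : ℝ, 0 < δ₀ ∧ δ₀ ≤ 1 / 5000 ∧
    ∀ {μ k : ℝ}, 0 < μ → μ ≤ δ₀ → 0 < k → ∀ (x : Orb μ k) (t₁ : ℝ), x.IsRet t₁ → μ * (‖x.Y 0‖ ^ 2 + k) ≤ δ₀ →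
      ε < ‖x.V 0‖ → 5 * μ * (‖x.V 0‖ + 11) ≤ 1 →
      (1 - 5 * μ * (‖x.V 0‖ + 11)) * (TT μ ((‖x.V 0‖ + ε) ^ 2 + k) - 40) / 2 ≤ x.ph t₁ ∧
      x.ph t₁ ≤ (1 + 5 * μ * (‖x.V 0‖ + 11)) * (TT μ ((‖x.V 0‖ - ε) ^ 2 + k) + 40) / 2 := by
  obtain ⟨τ, δs, hτ, hδs, hδs', H⟩ := scatter ε hε
  refine ⟨min δs (1 / 5000), lt_min hδs (by norm_num), min_le_right _ _, ?_⟩
  intro μ k hμ hμ0 hk x t₁ hret hY hεv hη1
  have hμs : μ ≤ δs := hμ0.trans (min_le_left _ _)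
  have hμ5 : μ ≤ 1 / 5000 := hμ0.trans (min_le_right _ _)
  have hYs : μ * (‖x.Y 0‖ ^ 2 + k) ≤ δs := hY.trans (min_le_left _ _)
  have hY5 : μ * (‖x.Y 0‖ ^ 2 + k) ≤ 1 / 5000 := hY.trans (min_le_right _ _)
  obtain ⟨-, -, hwp, hwm, hmid⟩ := H hμ hμs hk x t₁ hret hYs
  obtain ⟨ta, hta0, hta1, hwa, htl⟩ := time_law hμ hμ5 hk x hret hY5
  have ht1 : 0 < t₁ := hret.pos
  set v : ℝ := ‖x.V 0‖ with hv
  have hta : ta ∈ Set.Icc τ (t₁ - τ) := by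
    constructor
    · by_contra hlt
      rw [not_le] at hlt
      have := hwp ta ⟨hta0.le, hlt.le⟩
      linarith
    · by_contra hlt
      rw [not_le] at hlt
      have := hwm ta ⟨hlt.le, hta1.le⟩
      linarith
  have hYa := (hmid ta hta).2
  rw [abs_le] at hYa
  have hYn : 0 ≤ ‖x.Y ta‖ := norm_nonneg _
  have hs1 : (v - ε) ^ 2 + k ≤ ‖x.Y ta‖ ^ 2 + k := by
    have : (v - ε) ^ 2 ≤ ‖x.Y ta‖ ^ 2 := pow_le_pow_left₀ (by linarith) (by linarith) 2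
    linarith
  have hs2 : ‖x.Y ta‖ ^ 2 + k ≤ (v + ε) ^ 2 + k := by
    have : ‖x.Y ta‖ ^ 2 ≤ (v + ε) ^ 2 := pow_le_pow_left₀ hYn (by linarith) 2
    linarith
  have hT1 : TT μ (‖x.Y ta‖ ^ 2 + k) ≤ TT μ ((v - ε) ^ 2 + k) := TT_anti hμ (by positivity) hs1
  have hT2 : TT μ ((v + ε) ^ 2 + k) ≤ TT μ (‖x.Y ta‖ ^ 2 + k) := TT_anti hμ (by positivity) hs2
  have htl' : |t₁ - TT μ (‖x.Y ta‖ ^ 2 + k)| ≤ 40 := htl
  rw [abs_le] at htl'
  have hY0 : ‖x.Y 0‖ ≤ v + 2 := by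
    have e : x.Y 0 = x.V 0 + I * JJ := by
      rw [Orb.V]
      ring
    rw [e]
    refine (norm_add_le _ _).trans ?_
    rw [norm_mul, Complex.norm_I, one_mul]
    linarith [norm_JJ_le]
  have h3 := (cross hμ (hμ5.trans (by norm_num)) hk x hret (hY5.trans (by norm_num))).1
  have hph : |x.ph t₁ - t₁ / 2| ≤ 5 / 2 * μ * (v + 11) * t₁ := by
    have e : x.ph t₁ - t₁ / 2 = ∫ s in (0 : ℝ)..t₁, (x.Om s - 1 / 2) := by
      rw [intervalIntegral.integral_sub (x.continuous_Om.intervalIntegrable _ _)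
        (continuous_const.intervalIntegrable _ _), intervalIntegral.integral_const]
      rw [Orb.ph]
      simp only [smul_eq_mul]
      ring
    rw [e]
    have h4 := intervalIntegral.norm_integral_le_of_norm_le_const (a := (0 : ℝ)) (b := t₁)
      (f := fun s => x.Om s - 1 / 2) (C := 5 / 2 * μ * (v + 11)) (by
        intro s hs
        rw [Set.uIoc_of_le ht1.le] at hs
        rw [Real.norm_eq_abs]
        refine (x.abs_Om_sub_half_le hμ (hμ5.trans (by norm_num)) hk s).trans ?_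
        refine mul_le_mul_of_nonneg_left ?_ (by positivity)
        have := h3 s ⟨hs.1.le, hs.2⟩
        linarith)
    rw [Real.norm_eq_abs, sub_zero, abs_of_pos ht1] at h4
    exact h4
  rw [abs_le] at hph
  set η : ℝ := 5 * μ * (v + 11) with hη
  have hη0 : 0 ≤ η := by
    have : 0 ≤ v := norm_nonneg _
    positivity
  have e1 : 5 / 2 * μ * (v + 11) * t₁ = η * t₁ / 2 := by
    rw [hη]
    ring
  rw [e1] at hph
  constructor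
  · have h5 : (1 - η) * (TT μ ((v + ε) ^ 2 + k) - 40) ≤ (1 - η) * t₁ :=
      mul_le_mul_of_nonneg_left (by linarith) (by linarith)
    linarith
  · have h5 : (1 + η) * t₁ ≤ (1 + η) * (TT μ ((v - ε) ^ 2 + k) + 40) :=
      mul_le_mul_of_nonneg_left (by linarith) (by linarith)
    linarith

end IsoTB
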