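import Pool.Agent.Lib.MP_3f23fb_mp.W.T4

/-!
# MP_3f23fb_mp, module W/T5: the numerical gap inequality

c = 2π/√(2+μ) ∈ [4.4, 4.45] (μ ≤ 1/5000). d ∈ [1/2, 4], R ≥ d, k ≤ R², ε = d/15. s_A = (R - d/3 + ε)² + k, s_B = (R + d/3 - ε)² + k. 
s_B - s_A = (2d/3 - 2d/15)·2R = (16/15) d R; (2R/3)² ≤ s_A ≤ s_B ≤ (4R/3)² + R² = (5R/3)². 1/pw s_A - 1/pw s_B = (pw s_B - pw s_A)/(pw s_A pw s_B) ≥ (s_B - s_A)√s_B/(pw s_B)² = (s_B-s_A)/(s_B²√s_B)
≥ (16/15) d R (3/(5R))⁵ ≥ 0.0829 d/R⁴ (√s_A ≤ √s_B). TT μ s = c/(pw μ · pw s). With q = 1/pw μ (= μ^{-3/2}): TT(s_A) - TT(s_B) ≥ 0.36 d q/R⁴ ≥ 0.18 q/R⁴... (d ≥ 1/2); TT(s_A), TT(s_B) ≤ 4.45 q (3/(2R))³ ≤ 15.1 q/R³.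
η_A = 5μ(R - d/3 + 11), η_B = 5μ(R + d/3 + 11) ≤ 5μ(R+13) ≤ 135 μ R (R ≥ 1/2).
Φ_A - Φ_B = (1-η_A)(TT(s_A)-40)/2 - (1+η_B)(TT(s_B)+40)/2 ≥ (TT(s_A) - TT(s_B))/2 - 135 μR·15.1 q/R³ - 40·(1+135 μ R) ≥ (q/R⁴)(0.09 - 2040 μ R²) - 41 (if 135·40 μR ≤ 1)
≥ 0.045 q/R⁴ - 41 ≥ 8π, if μR² ≤ 1/50000 and q/R⁴ ≥ 2000, i.e. pw μ R⁴ ≤ 1/2000, i.e. μ³R⁸ ≤ 1/(4·10⁶) (pw_sq). (μR ≤ 2μR² because R ≥ 1/2.)
-/

set_option autoImplicit false
set_option linter.unusedVariables false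

open Complex

namespace IsoTB

private theorem T5_cube {A B δ : ℝ} (hA : 0 < A) (hAB : A ≤ B) (h : B ^ 2 - A ^ 2 = δ) (hδ : 0 ≤ δ) :
    δ * (1 / B ^ 5) ≤ 1 / A ^ 3 - 1 / B ^ 3 := by
  have hB : 0 < B := hA.trans_le hAB
  have h1 : δ * B ≤ B ^ 3 - A ^ 3 := by
    rw [← h]
    nlinarith [mul_nonneg (sq_nonneg A) (sub_nonneg.2 hAB)]
  have h2 : 1 / A ^ 3 - 1 / B ^ 3 = (B ^ 3 - A ^ 3) / (A ^ 3 * B ^ 3) := by
    field_simp
  rw [h2, mul_one_div, div_le_div_iff₀ (by positivity) (by positivity)]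
  have h3 : A ^ 3 ≤ B ^ 3 := pow_le_pow_left₀ hA.le hAB 3
  calc δ * (A ^ 3 * B ^ 3) = (δ * B ^ 3) * A ^ 3 := by ring
    _ ≤ (δ * B ^ 3) * B ^ 3 := mul_le_mul_of_nonneg_left h3 (by positivity)
    _ = (δ * B) * B ^ 5 := by ring
    _ ≤ (B ^ 3 - A ^ 3) * B ^ 5 := mul_le_mul_of_nonneg_right h1 (by positivity)

private theorem T5_pw (s : ℝ) (hs : 0 ≤ s) : pw s = √s ^ 3 := by
  unfold pw
  have h := Real.sq_sqrt hs
  calc s * √s = √s ^ 2 * √s := by rw [h]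
    _ = √s ^ 3 := by ring

theorem gap_ineq {μ k d R : ℝ} (hμ : 0 < μ) (hk : 0 < k) (hd : 1 / 2 ≤ d) (hd' : d ≤ 4) (hR : d ≤ R) (hkR : k ≤ R ^ 2)
    (h1 : μ * R ^ 2 ≤ 1 / 50000) (h2 : μ ^ 3 * R ^ 8 ≤ 1 / 4000000) :
    8 * Real.pi ≤ (1 - 5 * μ * (R - d / 3 + 11)) * (TT μ ((R - d / 3 + d / 15) ^ 2 + k) - 40) / 2 -
      (1 + 5 * μ * (R + d / 3 + 11)) * (TT μ ((R + d / 3 - d / 15) ^ 2 + k) + 40) / 2 := by
  have hR0 : 1 / 2 ≤ R := hd.trans hR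
  have hRpos : 0 < R := by linarith
  have hdpos : 0 < d := by linarith
  set sA : ℝ := (R - d / 3 + d / 15) ^ 2 + k with hsA
  set sB : ℝ := (R + d / 3 - d / 15) ^ 2 + k with hsB
  have hsA0 : 0 < sA := by positivity
  have hsB0 : 0 < sB := by positivity
  have hdiff : sB - sA = 16 / 15 * d * R := by
    rw [hsA, hsB]
    ring
  set A : ℝ := √sA with hAdef
  set B : ℝ := √sB with hBdef
  have hA2 : A ^ 2 = sA := Real.sq_sqrt hsA0.le
  have hB2 : B ^ 2 = sB := Real.sq_sqrt hsB0.le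
  have hA0 : 0 < A := Real.sqrt_pos.2 hsA0
  have hB0 : 0 < B := Real.sqrt_pos.2 hsB0
  have hAB : A ≤ B := Real.sqrt_le_sqrt (by nlinarith [mul_pos hdpos hRpos])
  have hAlow : 2 * R / 3 ≤ A := by
    refine Real.le_sqrt_of_sq_le ?_
    have h3 : 2 * R / 3 ≤ R - d / 3 + d / 15 := by linarith
    have h4 : (2 * R / 3) ^ 2 ≤ (R - d / 3 + d / 15) ^ 2 := pow_le_pow_left₀ (by positivity) h3 2
    linarith
  have hBup : B ≤ 5 * R / 3 := by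
    refine Real.sqrt_le_iff.2 ⟨by positivity, ?_⟩
    have h3 : R + d / 3 - d / 15 ≤ 4 * R / 3 := by linarith
    have h4 : (R + d / 3 - d / 15) ^ 2 ≤ (4 * R / 3) ^ 2 :=
      pow_le_pow_left₀ (by linarith) h3 2
    nlinarith
  set m : ℝ := pw μ with hm
  have hm0 : 0 < m := pw_pos hμ
  have hm2 : m ^ 2 = μ ^ 3 := pw_sq hμ.le
  set c : ℝ := 2 * Real.pi / √(2 + μ) with hc
  have hμs : μ ≤ 1 / 12500 := by nlinarith
  have hsq1 : √(2 + μ) ≤ 1415 / 1000 := by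
    refine Real.sqrt_le_iff.2 ⟨by norm_num, ?_⟩
    norm_num
    linarith
  have hsq2 : 14 / 10 ≤ √(2 + μ) := by
    refine Real.le_sqrt_of_sq_le ?_
    norm_num
    linarith
  have hsq0 : 0 < √(2 + μ) := by linarith
  have hpi1 : 3.14 < Real.pi := Real.pi_gt_d2
  have hpi2 : Real.pi < 3.15 := Real.pi_lt_d2
  have hc1 : 4.4 ≤ c := by
    rw [hc, le_div_iff₀ hsq0]
    nlinarith
  have hc2 : c ≤ 4.5 := by
    rw [hc, div_le_iff₀ hsq0]
    nlinarith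
  have hTA : TT μ sA = c / m * (1 / A ^ 3) := by
    unfold TT
    rw [pw_mul hμ.le hsA0.le, T5_pw sA hsA0.le, ← hAdef, ← hm, hc]
    field_simp
  have hTB : TT μ sB = c / m * (1 / B ^ 3) := by
    unfold TT
    rw [pw_mul hμ.le hsB0.le, T5_pw sB hsB0.le, ← hBdef, ← hm, hc]
    field_simp
  set E : ℝ := 1 / (m * R ^ 4) with hE
  have hE0 : 0 < E := by positivity
  have hE1 : 2000 ≤ E := by
    rw [hE, le_div_iff₀ (by positivity)]
    have h3 : (m * R ^ 4) ^ 2 ≤ (1 / 2000) ^ 2 := by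
      have e : (m * R ^ 4) ^ 2 = μ ^ 3 * R ^ 8 := by
        rw [mul_pow, hm2]
        ring
      rw [e]
      norm_num
      linarith
    have h4 : m * R ^ 4 ≤ 1 / 2000 := (abs_le_of_sq_le_sq' h3 (by norm_num)).2
    linarith
  have hTA1 : TT μ sA ≤ 15.2 * (R * E) := by
    rw [hTA]
    have h3 : 1 / A ^ 3 ≤ 1 / (2 * R / 3) ^ 3 :=
      one_div_le_one_div_of_le (by positivity) (pow_le_pow_left₀ (by positivity) hAlow 3)
    have h4 : c / m ≤ 4.5 / m := div_le_div_of_nonneg_right hc2 hm0.le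
    have h5 : c / m * (1 / A ^ 3) ≤ 4.5 / m * (1 / (2 * R / 3) ^ 3) :=
      mul_le_mul h4 h3 (by positivity) (by positivity)
    refine h5.trans ?_
    have h6 : 4.5 / m * (1 / (2 * R / 3) ^ 3) = 4.5 * 27 / 8 * (R * E) := by
      rw [hE]
      field_simp
      norm_num
    rw [h6]
    have h7 : 0 < R * E := by positivity
    nlinarith
  have hTA0 : 0 < TT μ sA := by
    rw [hTA]
    positivity
  have hTB0 : 0 < TT μ sB := by
    rw [hTB]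
    positivity
  have hgap : 0.18 * E ≤ TT μ sA - TT μ sB := by
    rw [hTA, hTB, ← mul_sub]
    have hBA : B ^ 2 - A ^ 2 = 16 / 15 * d * R := by
      rw [hA2, hB2]
      exact hdiff
    have h3 := T5_cube hA0 hAB hBA (by positivity)
    have h4 : 1 / (5 * R / 3) ^ 5 ≤ 1 / B ^ 5 :=
      one_div_le_one_div_of_le (by positivity) (pow_le_pow_left₀ hB0.le hBup 5)
    have h5 : 16 / 15 * d * R * (1 / (5 * R / 3) ^ 5) ≤ 1 / A ^ 3 - 1 / B ^ 3 :=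
      (mul_le_mul_of_nonneg_left h4 (by positivity)).trans h3
    have h6 : 16 / 15 * (1 / 2) * R * (1 / (5 * R / 3) ^ 5) ≤
        16 / 15 * d * R * (1 / (5 * R / 3) ^ 5) := by
      refine mul_le_mul_of_nonneg_right ?_ (by positivity)
      refine mul_le_mul_of_nonneg_right ?_ hRpos.le
      linarith
    have h7 : 4.4 / m ≤ c / m := div_le_div_of_nonneg_right hc1 hm0.le
    have h8 : 4.4 / m * (16 / 15 * (1 / 2) * R * (1 / (5 * R / 3) ^ 5)) ≤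
        c / m * (1 / A ^ 3 - 1 / B ^ 3) :=
      mul_le_mul h7 (h6.trans h5) (by positivity) (by positivity)
    refine le_trans ?_ h8
    have h9 : 4.4 / m * (16 / 15 * (1 / 2) * R * (1 / (5 * R / 3) ^ 5)) =
        4.4 * 16 / 30 * (243 / 3125) * E := by
      rw [hE]
      field_simp
      norm_num
    rw [h9]
    nlinarith
  set ηA : ℝ := 5 * μ * (R - d / 3 + 11) with hηA
  set ηB : ℝ := 5 * μ * (R + d / 3 + 11) with hηB
  have hη0 : 0 ≤ ηA := by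
    have : 0 ≤ R - d / 3 + 11 := by linarith
    positivity
  have hη1 : ηA ≤ ηB := by
    rw [hηA, hηB]
    exact mul_le_mul_of_nonneg_left (by linarith) (by positivity)
  have hη2 : ηB ≤ 135 * (μ * R) := by
    rw [hηB]
    have h3 : R + d / 3 + 11 ≤ 27 * R := by linarith
    calc 5 * μ * (R + d / 3 + 11) ≤ 5 * μ * (27 * R) :=
          mul_le_mul_of_nonneg_left h3 (by positivity)
      _ = 135 * (μ * R) := by ring
  have hμR : μ * R ≤ 1 / 25000 := by nlinarith [mul_pos hμ hRpos]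
  have hTBA : TT μ sB ≤ TT μ sA := by nlinarith
  have h3 : ηB * TT μ sA ≤ 135 * (μ * R) * (15.2 * (R * E)) :=
    mul_le_mul hη2 hTA1 hTA0.le (by positivity)
  have h4 : 135 * (μ * R) * (15.2 * (R * E)) ≤ 0.0411 * E := by
    calc 135 * (μ * R) * (15.2 * (R * E)) = 2052 * (μ * R ^ 2) * E := by ring
      _ ≤ 2052 * (1 / 50000) * E := by
          refine mul_le_mul_of_nonneg_right ?_ hE0.le
          linarith
      _ ≤ 0.0411 * E := by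
          refine mul_le_mul_of_nonneg_right ?_ hE0.le
          norm_num
  have h5 : ηA * TT μ sA ≤ ηB * TT μ sA := mul_le_mul_of_nonneg_right hη1 hTA0.le
  have h6 : ηB * TT μ sB ≤ ηB * TT μ sA := mul_le_mul_of_nonneg_left hTBA (by linarith)
  have h7 : ηB ≤ 1 / 100 := by linarith
  have e : (1 - ηA) * (TT μ sA - 40) / 2 - (1 + ηB) * (TT μ sB + 40) / 2 =
      (TT μ sA - TT μ sB) / 2 - (ηA * TT μ sA + ηB * TT μ sB) / 2 - 40 + 20 * ηA - 20 * ηB := by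
    ring
  rw [e]
  have h8 : 0.18 * E / 2 - 0.0411 * E - 40 - 20 * (1 / 100) ≤
      (TT μ sA - TT μ sB) / 2 - (ηA * TT μ sA + ηB * TT μ sB) / 2 - 40 + 20 * ηA - 20 * ηB := by
    linarith
  refine le_trans ?_ h8
  nlinarith

end IsoTB
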